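import Pool.Agent.Hlead.Comm.Emb

/-!
The Casimir element of a star-closed algebra of matrices, through a frame of the algebra.
-/

set_option autoImplicit false
set_option linter.unusedSectionVars false

open scoped BigOperators Matrix

namespace Pool.Agent.Hlead.Comm

section frame

variable {n : Type} [Fintype n] [DecidableEq n]

/-- The expansion of matrices of a linear space of matrices in a frame. -/
def IsFrame (A : Submodule ℂ (Matrix n n ℂ)) {N : ℕ} (x : Fin N → Matrix n n ℂ) : Prop :=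
  (∀ i, x i ∈ A) ∧ ∀ y ∈ A, y = ∑ i, ((x i)ᴴ * y).trace • x i

theorem exists_frame (A : Submodule ℂ (Matrix n n ℂ)) :
    ∃ (N : ℕ) (x : Fin N → Matrix n n ℂ), IsFrame A x := by
  classical
  let L : Matrix n n ℂ ≃ₗ[ℂ] EuclideanSpace ℂ (n × n) :=
    { toFun := fun M => WithLp.toLp 2 (fun p => M p.1 p.2)
      map_add' := fun M N => by ext p; simp
      map_smul' := fun c M => by ext p; simp
      invFun := fun v => fun a b => v (a, b)
      left_inv := fun M => rfl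
      right_inv := fun v => rfl }
  let B : Submodule ℂ (EuclideanSpace ℂ (n × n)) := A.map (L : Matrix n n ℂ →ₗ[ℂ] _)
  let b := stdOrthonormalBasis ℂ B
  refine ⟨Module.finrank ℂ B, fun i => L.symm (b i : EuclideanSpace ℂ (n × n)), ?_, ?_⟩
  · intro i
    obtain ⟨a, ha, hab⟩ := (Submodule.mem_map).1 (b i).2
    show L.symm (b i : EuclideanSpace ℂ (n × n)) ∈ A
    rw [← hab]
    simpa using ha
  · intro y hy
    have h1 : (⟨L y, Submodule.mem_map_of_mem hy⟩ : B) =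
        ∑ i, inner ℂ (b i) (⟨L y, Submodule.mem_map_of_mem hy⟩ : B) • b i :=
      (b.sum_repr' _).symm
    have h2 := congrArg (fun v : B => L.symm (v : EuclideanSpace ℂ (n × n))) h1
    simp only [L.symm_apply_apply] at h2
    refine h2.trans ?_
    rw [Submodule.coe_sum, map_sum]
    refine Finset.sum_congr rfl (fun i _ => ?_)
    rw [Submodule.coe_smul, map_smul]
    congr 1
    rw [Submodule.coe_inner, PiLp.inner_apply, Fintype.sum_prod_type, Matrix.trace,
      Finset.sum_comm]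
    refine Finset.sum_congr rfl (fun j _ => ?_)
    rw [Matrix.diag_apply, Matrix.mul_apply]
    refine Finset.sum_congr rfl (fun k _ => ?_)
    rw [Matrix.conjTranspose_apply, RCLike.inner_apply, mul_comm]
    rfl

variable {A : Submodule ℂ (Matrix n n ℂ)} {N : ℕ} {x : Fin N → Matrix n n ℂ}

variable {W : Type} [AddCommGroup W] [Module ℂ W]

theorem frame_star_expand (hx : IsFrame A x) {y : Matrix n n ℂ} (hy : yᴴ ∈ A) :
    y = ∑ i, (y * x i).trace • (x i)ᴴ := by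
  have h1 := hx.2 _ hy
  have h2 := congrArg Matrix.conjTranspose h1
  rw [Matrix.conjTranspose_conjTranspose, Matrix.conjTranspose_sum] at h2
  rw [h2]
  refine Finset.sum_congr rfl (fun i _ => ?_)
  rw [Matrix.conjTranspose_smul]
  congr 1
  rw [← Matrix.trace_conjTranspose, Matrix.conjTranspose_mul, Matrix.conjTranspose_conjTranspose,
    Matrix.conjTranspose_conjTranspose, ← h2]

theorem casimir_left (hx : IsFrame A x) (hmul : ∀ a ∈ A, ∀ b ∈ A, a * b ∈ A)
    (hstar : ∀ a ∈ A, aᴴ ∈ A) (B : Matrix n n ℂ →ₗ[ℂ] Matrix n n ℂ →ₗ[ℂ] W)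
    {y : Matrix n n ℂ} (hy : y ∈ A) :
    ∑ i, B (y * x i) (x i)ᴴ = ∑ i, B (x i) ((x i)ᴴ * y) := by
  have h1 : ∀ i, B (y * x i) (x i)ᴴ = ∑ j, ((x j)ᴴ * y * x i).trace • B (x j) (x i)ᴴ := by
    intro i
    conv_lhs => rw [hx.2 _ (hmul y hy _ (hx.1 i))]
    rw [map_sum, LinearMap.sum_apply]
    refine Finset.sum_congr rfl (fun j _ => ?_)
    rw [map_smul, LinearMap.smul_apply, Matrix.mul_assoc]
  have h2 : ∀ j, B (x j) ((x j)ᴴ * y) = ∑ i, ((x j)ᴴ * y * x i).trace • B (x j) (x i)ᴴ := by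
    intro j
    have h3 : ((x j)ᴴ * y)ᴴ ∈ A := by
      rw [Matrix.conjTranspose_mul, Matrix.conjTranspose_conjTranspose]
      exact hmul _ (hstar y hy) _ (hx.1 j)
    conv_lhs => rw [frame_star_expand hx h3]
    rw [map_sum]
    refine Finset.sum_congr rfl (fun i _ => ?_)
    rw [map_smul]
  simp_rw [h1, h2]
  rw [Finset.sum_comm]

theorem casimir_right (hx : IsFrame A x) (hmul : ∀ a ∈ A, ∀ b ∈ A, a * b ∈ A)
    (hstar : ∀ a ∈ A, aᴴ ∈ A) (B : Matrix n n ℂ →ₗ[ℂ] Matrix n n ℂ →ₗ[ℂ] W)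
    {y : Matrix n n ℂ} (hy : y ∈ A) :
    ∑ i, B (x i * y) (x i)ᴴ = ∑ i, B (x i) (y * (x i)ᴴ) := by
  have h1 : ∀ i, B (x i * y) (x i)ᴴ = ∑ j, ((x j)ᴴ * (x i * y)).trace • B (x j) (x i)ᴴ := by
    intro i
    conv_lhs => rw [hx.2 _ (hmul _ (hx.1 i) y hy)]
    rw [map_sum, LinearMap.sum_apply]
    refine Finset.sum_congr rfl (fun j _ => ?_)
    rw [map_smul, LinearMap.smul_apply]
  have h2 : ∀ j, B (x j) (y * (x j)ᴴ) = ∑ i, ((x j)ᴴ * (x i * y)).trace • B (x j) (x i)ᴴ := by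
    intro j
    have h3 : (y * (x j)ᴴ)ᴴ ∈ A := by
      rw [Matrix.conjTranspose_mul, Matrix.conjTranspose_conjTranspose]
      exact hmul _ (hx.1 j) _ (hstar y hy)
    conv_lhs => rw [frame_star_expand hx h3]
    rw [map_sum]
    refine Finset.sum_congr rfl (fun i _ => ?_)
    rw [map_smul]
    congr 1
    rw [← Matrix.mul_assoc, Matrix.trace_mul_comm, Matrix.mul_assoc, ← Matrix.mul_assoc _ _ y,
      Matrix.trace_mul_comm, Matrix.mul_assoc]
    rw [Matrix.trace_mul_comm]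
  simp_rw [h1, h2]
  rw [Finset.sum_comm]

theorem casimir_star (hx : IsFrame A x)
    (hstar : ∀ a ∈ A, aᴴ ∈ A) (B : Matrix n n ℂ →ₗ[ℂ] Matrix n n ℂ →ₗ[ℂ] W) :
    ∑ i, B (x i)ᴴ (x i) = ∑ i, B (x i) (x i)ᴴ := by
  have h1 : ∀ i, B (x i)ᴴ (x i) = ∑ j, ((x j)ᴴ * (x i)ᴴ).trace • B (x j) (x i) := by
    intro i
    conv_lhs => rw [hx.2 _ (hstar _ (hx.1 i))]
    rw [map_sum, LinearMap.sum_apply]
    refine Finset.sum_congr rfl (fun j _ => ?_)
    rw [map_smul, LinearMap.smul_apply]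
  have h2 : ∀ j, B (x j) (x j)ᴴ = ∑ i, ((x j)ᴴ * (x i)ᴴ).trace • B (x j) (x i) := by
    intro j
    conv_lhs => rw [hx.2 _ (hstar _ (hx.1 j))]
    rw [map_sum]
    refine Finset.sum_congr rfl (fun i _ => ?_)
    rw [map_smul, Matrix.trace_mul_comm]
  simp_rw [h1, h2]
  rw [Finset.sum_comm]

end frame

end Pool.Agent.Hlead.Comm
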