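import Pool.Agent.Hlead.Comm.Slice

/-!
Periodic chains of commuting interactions: gluing ground states of two chains along a ring.
The sites of the chain of length `a` are `ZMod a × Y`.
-/

set_option autoImplicit false
set_option linter.unusedSectionVars false

open scoped BigOperators Matrix ComplexOrder

namespace Pool.Agent.Hlead.Comm

/-- A layered translation invariant interaction: the term at layer `c` and `y : Y` acts on the sites
`(c + P p, ψ p y)`, `p : F`. -/
structure Lay (Y F : Type) (d : ℕ) where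
  g : ℕ
  P : F → ℕ
  hP : ∀ p, P p ≤ g
  ψ : F → Y → Y
  inj : ∀ y p q, P p = P q → ψ p y = ψ q y → p = q
  h : Matrix (F → Fin d) (F → Fin d) ℂ
  herm : hᴴ = h

namespace Lay

variable {Y F : Type} [Fintype Y] [DecidableEq Y] [Fintype F] [DecidableEq F] {d : ℕ}
  (X : Lay Y F d)

/-- The sites of a term. -/
def patch (a c : ℕ) (y : Y) : F → ZMod a × Y := fun p => (((c + X.P p : ℕ) : ZMod a), X.ψ p y)

/-- The ring: the first `g` layers. -/
def rng (a : ℕ) : Fin X.g × Y → ZMod a × Y := fun q => (((q.1 : ℕ) : ZMod a), q.2)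

/-- The terms. -/
noncomputable def term (a : ℕ) [NeZero a] (c : ℕ) (y : Y) :
    Matrix (ZMod a × Y → Fin d) (ZMod a × Y → Fin d) ℂ := emb (X.patch a c y) X.h

/-- Vectors killed by all terms. -/
def Ground (a : ℕ) [NeZero a] (Φ : (ZMod a × Y → Fin d) → ℂ) : Prop :=
  ∀ c y, X.term a c y *ᵥ Φ = 0

/-- All terms commute on chains of length at least `m`. -/
def AllComm (m : ℕ) : Prop := ∀ (a : ℕ) [NeZero a], m ≤ a → ∀ c c' y y',
  Commute (X.term a c y) (X.term a c' y')

theorem natCast_inj {a u v : ℕ} (hu : u < a) (hv : v < a) (h : (u : ZMod a) = (v : ZMod a)) :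
    u = v := by
  rw [ZMod.natCast_eq_natCast_iff'] at h
  rwa [Nat.mod_eq_of_lt hu, Nat.mod_eq_of_lt hv] at h

theorem patch_inj {a : ℕ} (ha : X.g < a) (c : ℕ) (y : Y) : Function.Injective (X.patch a c y) := by
  intro p q hpq
  simp only [patch, Prod.mk.injEq] at hpq
  obtain ⟨h1, h2⟩ := hpq
  push_cast at h1
  have h3 := add_left_cancel h1
  exact X.inj y p q (natCast_inj (lt_of_le_of_lt (X.hP p) ha) (lt_of_le_of_lt (X.hP q) ha) h3) h2

theorem patch_mod (a c : ℕ) (y : Y) : X.patch a (c % a) y = X.patch a c y := by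
  funext p
  simp [patch]

theorem rng_inj {a : ℕ} (ha : X.g ≤ a) : Function.Injective (X.rng a (Y := Y)) := by
  intro p q hpq
  simp only [rng, Prod.mk.injEq] at hpq
  obtain ⟨h1, h2⟩ := hpq
  have h3 := natCast_inj (lt_of_lt_of_le p.1.2 ha) (lt_of_lt_of_le q.1.2 ha) h1
  exact Prod.ext (Fin.ext h3) h2

/-- A patch that does not touch the ring. -/
theorem patch_ne_rng {a c : ℕ} (y : Y) (h1 : X.g ≤ c) (h2 : c + X.g < a) (p : F)
    (q : Fin X.g × Y) : X.patch a c y p ≠ X.rng a q := by
  intro h
  simp only [patch, rng, Prod.mk.injEq] at h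
  have h3 := X.hP p
  have h4 := q.1.2
  have h5 := natCast_inj (by omega) (by omega) h.1
  omega

/-- The operators on the ring that commute with all terms that do not cross the cut. -/
noncomputable def alg (m : ℕ) :
    Submodule ℂ (Matrix (Fin X.g × Y → Fin d) (Fin X.g × Y → Fin d) ℂ) where
  carrier := {x | ∀ (a : ℕ) [NeZero a], m ≤ a → ∀ c y, c + X.g < a →
    Commute (emb (X.rng a) x) (X.term a c y)}
  add_mem' := by
    intro x y hx hy a _ ha c y' hc
    rw [emb_add]
    exact (hx a ha c y' hc).add_left (hy a ha c y' hc)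
  zero_mem' := by
    intro a _ ha c y' hc
    rw [emb_zero]
    exact Commute.zero_left _
  smul_mem' := by
    intro k x hx a _ ha c y' hc
    rw [emb_smul]
    exact (hx a ha c y' hc).smul_left k

theorem alg_mul {m : ℕ} (hm : X.g ≤ m) : ∀ x ∈ X.alg m, ∀ y ∈ X.alg m,
    x * y ∈ X.alg (Y := Y) m := by
  intro x hx y hy a _ ha c y' hc
  rw [emb_mul (X.rng_inj (le_trans hm ha))]
  exact (hx a ha c y' hc).mul_left (hy a ha c y' hc)

theorem alg_one {m : ℕ} (hm : X.g ≤ m) : 1 ∈ X.alg (Y := Y) m := by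
  intro a _ ha c y' hc
  rw [emb_one (X.rng_inj (le_trans hm ha))]
  exact Commute.one_left _

theorem term_herm (a : ℕ) [NeZero a] (c : ℕ) (y : Y) : (X.term a c y)ᴴ = X.term a c y := by
  unfold term
  rw [emb_conjTranspose, X.herm]

theorem alg_star {m : ℕ} : ∀ x ∈ X.alg m, xᴴ ∈ X.alg (Y := Y) m := by
  intro x hx a _ ha c y' hc
  have h1 := congrArg Matrix.conjTranspose (hx a ha c y' hc).eq
  rw [Matrix.conjTranspose_mul, Matrix.conjTranspose_mul, term_herm, emb_conjTranspose] at h1
  exact h1.symm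

/-- Positions on the ring of the sites of a crossing term. -/
def gam (i : ℕ) (hi : 1 ≤ i) (y : Y) : {p // ¬ X.P p < i} → Fin X.g × Y :=
  fun p => (⟨X.P p - i, by have := X.hP p; have := p.2; omega⟩, X.ψ p y)

theorem gam_inj (i : ℕ) (hi : 1 ≤ i) (y : Y) : Function.Injective (X.gam i hi y) := by
  intro p q hpq
  simp only [gam, Prod.mk.injEq, Fin.mk.injEq] at hpq
  obtain ⟨h1, h2⟩ := hpq
  have := p.2
  have := q.2
  exact Subtype.ext (X.inj y p q (by omega) h2)

theorem slice_mem {m : ℕ} (hm : X.g ≤ m) (hm' : 3 * X.g < m) (hC : X.AllComm (Y := Y) m) (i : ℕ)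
    (hi : 1 ≤ i) (hi' : i ≤ X.g) (y : Y) (u u' : {p // X.P p < i} → Fin d) :
    emb (X.gam i hi y) (slice (fun p => X.P p < i) X.h u u') ∈ X.alg (Y := Y) m := by
  intro a _ ha c y' hc
  have hinj : Function.Injective (X.patch a (a - i) y) := X.patch_inj (by omega) _ _
  rw [emb_comp (X.gam_inj i hi y) (X.rng_inj (le_trans hm ha))]
  have e1 : (fun p => X.rng a (X.gam i hi y p)) =
      fun p : {p // ¬ X.P p < i} => X.patch a (a - i) y p := by
    funext p
    have h1 := p.2
    simp only [rng, gam, patch, Prod.mk.injEq, and_true]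
    have h2 : a - i + X.P p = a + (X.P p - i) := by omega
    rw [h2]
    push_cast
    simp
  rw [e1]
  by_cases h1 : c + X.g < a - i
  · refine (commute_slice (fun p => X.P p < i) hinj X.h (hC a ha c (a - i) y' y) ?_ u u').symm
    intro M
    refine emb_commute (X.patch_inj (by omega) _ _) (hinj.comp Subtype.val_injective) ?_ _ _
    intro p q hpq
    simp only [patch, Prod.mk.injEq, Function.comp_apply] at hpq
    have h2 := X.hP p
    have h3 := q.2
    have h4 := natCast_inj (by omega) (by omega) hpq.1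
    omega
  · refine emb_commute (hinj.comp Subtype.val_injective) (X.patch_inj (by omega) _ _) ?_ _ _
    intro p q hpq
    have h3 : X.rng a (X.gam i hi y p) = X.patch a (a - i) y p := congrFun e1 p
    rw [Function.comp_apply, ← h3] at hpq
    exact X.patch_ne_rng y' (by omega) hc q _ hpq.symm

end Lay

end Pool.Agent.Hlead.Comm
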