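import Pool.Agent.Hlead.Comm.Chain

/-!
Gluing ground states of two periodic chains, and covers.
-/

set_option autoImplicit false
set_option linter.unusedSectionVars false

open scoped BigOperators Matrix ComplexOrder

namespace Pool.Agent.Hlead.Comm

namespace Lay

section inc

variable {Y : Type} [Fintype Y] [DecidableEq Y]

/-- The first `a₁` layers. -/
def incL (a₁ n : ℕ) : ZMod a₁ × Y → ZMod n × Y := fun q => (((q.1.val : ℕ) : ZMod n), q.2)

/-- The last `a₂` layers. -/
def incR (a₁ a₂ n : ℕ) : ZMod a₂ × Y → ZMod n × Y :=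
  fun q => (((a₁ + q.1.val : ℕ) : ZMod n), q.2)

variable {a₁ a₂ n : ℕ} [NeZero a₁] [NeZero a₂]

theorem incL_inj (hn : a₁ ≤ n) : Function.Injective (incL (Y := Y) a₁ n) := by
  intro p q hpq
  simp only [incL, Prod.mk.injEq] at hpq
  have h1 := ZMod.val_lt p.1
  have h2 := ZMod.val_lt q.1
  exact Prod.ext (ZMod.val_injective a₁ (natCast_inj (by omega) (by omega) hpq.1)) hpq.2

theorem incR_inj (hn : a₁ + a₂ ≤ n) : Function.Injective (incR (Y := Y) a₁ a₂ n) := by
  intro p q hpq
  simp only [incR, Prod.mk.injEq] at hpq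
  have h1 := ZMod.val_lt p.1
  have h2 := ZMod.val_lt q.1
  have h3 := natCast_inj (a := n) (u := a₁ + p.1.val) (v := a₁ + q.1.val) (by omega) (by omega)
    hpq.1
  exact Prod.ext (ZMod.val_injective a₂ (by omega)) hpq.2

theorem inc_disj (hn : a₁ + a₂ ≤ n) (p : ZMod a₁ × Y) (q : ZMod a₂ × Y) :
    incL a₁ n p ≠ incR a₁ a₂ n q := by
  intro h
  simp only [incL, incR, Prod.mk.injEq] at h
  have h1 := ZMod.val_lt p.1
  have h2 := ZMod.val_lt q.1
  have h3 := natCast_inj (a := n) (u := p.1.val) (v := a₁ + q.1.val) (by omega) (by omega) h.1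
  omega

theorem inc_cov [NeZero n] (hn : n = a₁ + a₂) (s : ZMod n × Y) :
    (∃ p, incL a₁ n p = s) ∨ ∃ q, incR a₁ a₂ n q = s := by
  have h1 := ZMod.val_lt s.1
  by_cases h : s.1.val < a₁
  · left
    refine ⟨((s.1.val : ℕ), s.2), ?_⟩
    simp only [incL]
    rw [ZMod.val_natCast_of_lt h, ZMod.natCast_zmod_val]
  · right
    refine ⟨((s.1.val - a₁ : ℕ), s.2), ?_⟩
    simp only [incR]
    rw [ZMod.val_natCast_of_lt (by omega)]
    have h2 : a₁ + (s.1.val - a₁) = s.1.val := by omega
    rw [h2, ZMod.natCast_zmod_val]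

end inc

variable {Y F : Type} [Fintype Y] [DecidableEq Y] [Fintype F] [DecidableEq F] {d : ℕ}
  (X : Lay Y F d)

theorem term_mod (a : ℕ) [NeZero a] (c : ℕ) (y : Y) : X.term a (c % a) y = X.term a c y := by
  unfold term
  rw [X.patch_mod]

section glue

variable {a₁ a₂ n : ℕ} [NeZero a₁] [NeZero a₂] [NeZero n] {m N : ℕ}
  {x : Fin N → Matrix (Fin X.g × Y → Fin d) (Fin X.g × Y → Fin d) ℂ}

theorem ground_glue (hm' : 3 * X.g < m) (hC : X.AllComm (Y := Y) m)
    (hx : IsFrame (X.alg (Y := Y) m) x) (ha₁ : m ≤ a₁) (ha₂ : m ≤ a₂) (hn : n = a₁ + a₂)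
    {Φ₁ : (ZMod a₁ × Y → Fin d) → ℂ} {Φ₂ : (ZMod a₂ × Y → Fin d) → ℂ}
    (h₁ : X.Ground a₁ Φ₁) (h₂ : X.Ground a₂ Φ₂) :
    X.Ground n (cas (fun p => incL a₁ n (X.rng a₁ p)) (fun p => incR a₁ a₂ n (X.rng a₂ p)) x *ᵥ
      tens (incL a₁ n) (incR a₁ a₂ n) Φ₁ Φ₂) := by
  have hm : X.g ≤ m := by omega
  have iL : Function.Injective (incL (Y := Y) a₁ n) := incL_inj (by omega)
  have iR : Function.Injective (incR (Y := Y) a₁ a₂ n) := incR_inj (by omega)
  have iD : ∀ (p : ZMod a₁ × Y) (q : ZMod a₂ × Y), incL a₁ n p ≠ incR a₁ a₂ n q :=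
    inc_disj (by omega)
  have r1 : Function.Injective (X.rng (Y := Y) a₁) := X.rng_inj (by omega)
  have r2 : Function.Injective (X.rng (Y := Y) a₂) := X.rng_inj (by omega)
  have j1 : Function.Injective (fun p : Fin X.g × Y => incL a₁ n (X.rng a₁ p)) := iL.comp r1
  have j2 : Function.Injective (fun p : Fin X.g × Y => incR a₁ a₂ n (X.rng a₂ p)) := iR.comp r2
  have jD : ∀ p q : Fin X.g × Y, incL a₁ n (X.rng a₁ p) ≠ incR a₁ a₂ n (X.rng a₂ q) :=
    fun p q => iD _ _
  have hmul := X.alg_mul (Y := Y) hm
  have hstar := X.alg_star (Y := Y) (m := m)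
  have zL : ∀ c y, emb (incL a₁ n) (X.term a₁ c y) *ᵥ tens (incL a₁ n) (incR a₁ a₂ n) Φ₁ Φ₂ = 0 := by
    intro c y
    rw [emb_mulVec_tens_left iL iD, h₁ c y, tens_zero_left]
  have zR : ∀ c y, emb (incR a₁ a₂ n) (X.term a₂ c y) *ᵥ
      tens (incL a₁ n) (incR a₁ a₂ n) Φ₁ Φ₂ = 0 := by
    intro c y
    rw [emb_mulVec_tens_right iR iD, h₂ c y, tens_zero_right]
  have tL : ∀ c y, emb (incL a₁ n) (X.term a₁ c y) =
      emb (fun p => incL a₁ n (X.patch a₁ c y p)) X.h := by
    intro c y
    unfold term
    rw [emb_comp (X.patch_inj (by omega) _ _) iL]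
  have tR : ∀ c y, emb (incR a₁ a₂ n) (X.term a₂ c y) =
      emb (fun p => incR a₁ a₂ n (X.patch a₂ c y p)) X.h := by
    intro c y
    unfold term
    rw [emb_comp (X.patch_inj (by omega) _ _) iR]
  intro c y
  rw [← X.term_mod]
  have hc : c % n < n := Nat.mod_lt _ (NeZero.pos n)
  obtain ⟨k, hk⟩ : ∃ k, k = c % n := ⟨_, rfl⟩
  rw [← hk] at hc ⊢
  by_cases c1 : k + X.g < a₁
  · -- no crossing, first chain
    have e1 : X.term n k y = emb (incL a₁ n) (X.term a₁ k y) := by
      rw [tL]
      unfold term
      congr 1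
      funext p
      have := X.hP p
      simp only [patch, incL]
      rw [ZMod.val_natCast_of_lt (by omega)]
    have e2 : Commute (X.term n k y) (cas (fun p => incL a₁ n (X.rng a₁ p))
        (fun p => incR a₁ a₂ n (X.rng a₂ p)) x) := by
      refine cas_commute hx hstar ?_ ?_
      · intro z hz
        have e3 := (hz a₁ ha₁ k y c1).eq
        rw [e1, ← emb_comp r1 iL]
        show _ * _ = _ * _
        rw [← emb_mul iL, ← emb_mul iL, e3]
      · intro z _
        rw [e1, ← emb_comp r2 iR]
        exact emb_commute iL iR iD _ _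
    rw [Matrix.mulVec_mulVec, e2.eq, ← Matrix.mulVec_mulVec, e1, zL, Matrix.mulVec_zero]
  · by_cases c2 : k < a₁
    · -- crossing, first chain
      have e1 := crossing (fun p => X.P p < a₁ - k) j1 j2 jD hx hmul hstar X.h
        (γ := X.gam (a₁ - k) (by omega) y) (X.gam_inj _ _ _)
        (X.slice_mem hm hm' hC (a₁ - k) (by omega) (by omega) y)
        (π₁ := fun p => incL a₁ n (X.patch a₁ k y p)) (π₂ := X.patch n k y)
        (iL.comp (X.patch_inj (by omega) _ _)) (X.patch_inj (by omega) _ _) ?_ ?_ ?_ ?_ ?_
      · rw [Matrix.mulVec_mulVec]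
        unfold term
        rw [e1.1, ← tL, ← Matrix.mulVec_mulVec, zL, Matrix.mulVec_zero]
      · intro p hp
        simp only [patch, incL]
        rw [ZMod.val_natCast_of_lt (by omega)]
      · intro p hp q h
        have h1 := iL h
        simp only [patch, rng, Prod.mk.injEq] at h1
        have := q.1.2
        have h2 := natCast_inj (by omega) (by omega) h1.1
        omega
      · intro p hp q h
        exact iD _ _ h
      · intro p
        have h1 := p.2
        have h2 := X.hP p
        congr 1
        simp only [patch, rng, gam, Prod.mk.injEq, and_true]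
        have h3 : k + X.P p = a₁ + (X.P p - (a₁ - k)) := by omega
        rw [h3]
        push_cast
        simp
      · intro p
        have h1 := p.2
        have h2 := X.hP p
        simp only [patch, rng, gam, incR, Prod.mk.injEq, and_true]
        rw [ZMod.val_natCast_of_lt (by omega)]
        congr 1
        omega
    · by_cases c3 : k + X.g < n
      · -- no crossing, second chain
        have e1 : X.term n k y = emb (incR a₁ a₂ n) (X.term a₂ (k - a₁) y) := by
          rw [tR]
          unfold term
          congr 1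
          funext p
          have := X.hP p
          simp only [patch, incR]
          rw [ZMod.val_natCast_of_lt (by omega)]
          congr 2
          omega
        have e2 : Commute (X.term n k y) (cas (fun p => incL a₁ n (X.rng a₁ p))
            (fun p => incR a₁ a₂ n (X.rng a₂ p)) x) := by
          refine cas_commute hx hstar ?_ ?_
          · intro z _
            rw [e1, ← emb_comp r1 iL]
            exact (emb_commute iL iR iD _ _).symm
          · intro z hz
            have e3 := (hz a₂ ha₂ (k - a₁) y (by omega)).eq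
            rw [e1, ← emb_comp r2 iR]
            show _ * _ = _ * _
            rw [← emb_mul iR, ← emb_mul iR, e3]
        rw [Matrix.mulVec_mulVec, e2.eq, ← Matrix.mulVec_mulVec, e1, zR, Matrix.mulVec_zero]
      · -- crossing, second chain
        have e1 := crossing (fun p => X.P p < n - k) j1 j2 jD hx hmul hstar X.h
          (γ := X.gam (n - k) (by omega) y) (X.gam_inj _ _ _)
          (X.slice_mem hm hm' hC (n - k) (by omega) (by omega) y)
          (π₂ := fun p => incR a₁ a₂ n (X.patch a₂ (k - a₁) y p)) (π₁ := X.patch n k y)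
          (X.patch_inj (by omega) _ _) (iR.comp (X.patch_inj (by omega) _ _)) ?_ ?_ ?_ ?_ ?_
        · rw [Matrix.mulVec_mulVec]
          unfold term
          rw [e1.2, ← tR, ← Matrix.mulVec_mulVec, zR, Matrix.mulVec_zero]
        · intro p hp
          simp only [patch, incR]
          rw [ZMod.val_natCast_of_lt (by omega)]
          congr 2
          omega
        · intro p hp q h
          simp only [patch, rng, incL, Prod.mk.injEq] at h
          have := q.1.2
          rw [ZMod.val_natCast_of_lt (by omega)] at h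
          have h2 := natCast_inj (by omega) (by omega) h.1
          omega
        · intro p hp q h
          simp only [patch, rng, incR, Prod.mk.injEq] at h
          have := q.1.2
          rw [ZMod.val_natCast_of_lt (by omega)] at h
          have h2 := natCast_inj (by omega) (by omega) h.1
          omega
        · intro p
          have h1 := p.2
          have h2 := X.hP p
          simp only [patch, rng, gam, incL, Prod.mk.injEq, and_true]
          rw [ZMod.val_natCast_of_lt (by omega)]
          have h3 : k + X.P p = n + (X.P p - (n - k)) := by omega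
          rw [h3]
          push_cast
          simp
        · intro p
          have h1 := p.2
          have h2 := X.hP p
          congr 1
          simp only [patch, rng, gam, Prod.mk.injEq, and_true]
          have h3 : k - a₁ + X.P p = a₂ + (X.P p - (n - k)) := by omega
          rw [h3]
          push_cast
          simp

end glue

end Lay

end Pool.Agent.Hlead.Comm
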