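import Pool.Agent.Hlead.Comm.Cover

/-!
Expectation values in glued ground states; covers of a periodic chain.
-/

set_option autoImplicit false
set_option linter.unusedSectionVars false

open scoped BigOperators Matrix ComplexOrder

namespace Pool.Agent.Hlead.Comm

namespace Lay

variable {Y F : Type} [Fintype Y] [DecidableEq Y] [Fintype F] [DecidableEq F] {d : ℕ}
  (X : Lay Y F d)

/-- Positions of observables. -/
def pos {U : Type} (col : U → ℕ) (yy : U → Y) (a : ℕ) : U → ZMod a × Y :=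
  fun u => ((col u : ZMod a), yy u)

/-- Expectation pairing. -/
noncomputable def ev {S : Type} [Fintype S] [DecidableEq S]
    (O : Matrix (S → Fin d) (S → Fin d) ℂ) (Φ Φ' : (S → Fin d) → ℂ) : ℂ :=
  star Φ ⬝ᵥ (O *ᵥ Φ')

theorem ev_self_ne_zero {S : Type} [Fintype S] [DecidableEq S] {Φ : (S → Fin d) → ℂ}
    (h : Φ ≠ 0) : star Φ ⬝ᵥ Φ ≠ 0 := fun h' => h (dotProduct_star_self_eq_zero.1 h')

section glue

variable {a₁ a₂ n : ℕ} [NeZero a₁] [NeZero a₂] [NeZero n] {m N : ℕ}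
  {x : Fin N → Matrix (Fin X.g × Y → Fin d) (Fin X.g × Y → Fin d) ℂ}
  {χ : Matrix (Fin X.g × Y → Fin d) (Fin X.g × Y → Fin d) ℂ →ₗ[ℂ] ℂ}

theorem eig_glue (hm : X.g ≤ m)
    (hx : IsFrame (X.alg (Y := Y) m) x) (ha₁ : m ≤ a₁) (ha₂ : m ≤ a₂) (hn : n = a₁ + a₂)
    {Φ₁ : (ZMod a₁ × Y → Fin d) → ℂ} {Φ₂ : (ZMod a₂ × Y → Fin d) → ℂ}
    (h₂ : Eig (X.alg (Y := Y) m) (X.rng a₂) χ Φ₂) :
    Eig (X.alg (Y := Y) m) (X.rng n) χ
      (cas (fun p => incL a₁ n (X.rng a₁ p)) (fun p => incR a₁ a₂ n (X.rng a₂ p)) x *ᵥ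
      tens (incL a₁ n) (incR a₁ a₂ n) Φ₁ Φ₂) := by
  have iL : Function.Injective (incL (Y := Y) a₁ n) := incL_inj (by omega)
  have iR : Function.Injective (incR (Y := Y) a₁ a₂ n) := incR_inj (by omega)
  have iD : ∀ (p : ZMod a₁ × Y) (q : ZMod a₂ × Y), incL a₁ n p ≠ incR a₁ a₂ n q :=
    inc_disj (by omega)
  have r1 : Function.Injective (X.rng (Y := Y) a₁) := X.rng_inj (by omega)
  have r2 : Function.Injective (X.rng (Y := Y) a₂) := X.rng_inj (by omega)
  have j1 : Function.Injective (fun p : Fin X.g × Y => incL a₁ n (X.rng a₁ p)) := iL.comp r1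
  have j2 : Function.Injective (fun p : Fin X.g × Y => incR a₁ a₂ n (X.rng a₂ p)) := iR.comp r2
  intro z hz
  have e1 : X.rng (Y := Y) n = fun p => incL a₁ n (X.rng a₁ p) := by
    funext p
    have := p.1.2
    simp only [rng, incL]
    rw [ZMod.val_natCast_of_lt (by omega)]
  rw [e1, Matrix.mulVec_mulVec, cas_left j1 j2 hx (X.alg_mul hm) X.alg_star hz.1,
    ← Matrix.mulVec_mulVec, ← emb_comp r2 iR, emb_mulVec_tens_right iR iD, h₂ z hz,
    tens_smul_right, Matrix.mulVec_smul]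

theorem kap_ne_zero (hm : X.g ≤ m) (hx : IsFrame (X.alg (Y := Y) m) x) (ha₁ : m ≤ a₁)
    {Φ : (ZMod a₁ × Y → Fin d) → ℂ} (hΦ : Φ ≠ 0)
    (h : Eig (X.alg (Y := Y) m) (X.rng a₁) χ Φ) : χ (kap x χ) ≠ 0 := by
  obtain ⟨n, hn⟩ : ∃ n, n = a₁ + a₁ := ⟨_, rfl⟩
  haveI : NeZero n := ⟨by have := NeZero.ne a₁; omega⟩
  have iL : Function.Injective (incL (Y := Y) a₁ n) := incL_inj (by omega)
  have iR : Function.Injective (incR (Y := Y) a₁ a₁ n) := incR_inj (by omega)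
  have iD : ∀ (p : ZMod a₁ × Y) (q : ZMod a₁ × Y), incL a₁ n p ≠ incR a₁ a₁ n q :=
    inc_disj (by omega)
  have r1 : Function.Injective (X.rng (Y := Y) a₁) := X.rng_inj (by omega)
  have j1 : Function.Injective (fun p : Fin X.g × Y => incL a₁ n (X.rng a₁ p)) := iL.comp r1
  have j2 : Function.Injective (fun p : Fin X.g × Y => incR a₁ a₁ n (X.rng a₁ p)) := iR.comp r1
  intro h0
  have h1 := cas_sq_tens iL iR iD r1 r1 hx (X.alg_mul hm) X.alg_star h h
  rw [h0, zero_smul] at h1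
  have h2 := inner_cas j1 j2 (fun p q => iD _ _) hx X.alg_star
    (O := 1) (Commute.one_left _) (tens (incL a₁ n) (incR a₁ a₁ n) Φ Φ)
  rw [h1, Matrix.mulVec_zero, dotProduct_zero, Matrix.one_mulVec] at h2
  exact hΦ (cas_tens_ne_zero iL iR iD (inc_cov hn) r1 hx (X.alg_one hm)
    (dotProduct_star_self_eq_zero.1 h2))

theorem tens_inner (hn : n = a₁ + a₂) (Θ Θ' : (ZMod a₁ × Y → Fin d) → ℂ)
    (Φ Φ' : (ZMod a₂ × Y → Fin d) → ℂ) :
    star (tens (incL a₁ n) (incR a₁ a₂ n) Θ Φ) ⬝ᵥ tens (incL a₁ n) (incR a₁ a₂ n) Θ' Φ' =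
      (star Θ ⬝ᵥ Θ') * (star Φ ⬝ᵥ Φ') := by
  have h := sum_tens (incL (Y := Y) a₁ n) (incR a₁ a₂ n) (incL_inj (by omega))
    (incR_inj (by omega)) (inc_disj (by omega)) (inc_cov hn)
    (fun s => star (Θ s) * Θ' s) (fun s => star (Φ s) * Φ' s)
  simp only [dotProduct, Pi.star_apply]
  rw [← h]
  refine Finset.sum_congr rfl (fun s _ => ?_)
  simp only [tens, star_mul']
  ring

theorem ev_glue (hm : X.g ≤ m)
    (hx : IsFrame (X.alg (Y := Y) m) x) (ha₁ : m ≤ a₁) (ha₂ : m ≤ a₂) (hn : n = a₁ + a₂)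
    {Φ₁ : (ZMod a₁ × Y → Fin d) → ℂ} {Φ₂ : (ZMod a₂ × Y → Fin d) → ℂ}
    (h₁ : Eig (X.alg (Y := Y) m) (X.rng a₁) χ Φ₁)
    (h₂ : Eig (X.alg (Y := Y) m) (X.rng a₂) χ Φ₂) {U : Type} [Fintype U] [DecidableEq U]
    (col : U → ℕ) (yy : U → Y) (hcol : ∀ u, X.g ≤ col u ∧ col u < a₁)
    (hinj : ∀ u v, col u = col v → yy u = yy v → u = v) (M : Matrix (U → Fin d) (U → Fin d) ℂ) :
    ev (emb (pos col yy n) M)
      (cas (fun p => incL a₁ n (X.rng a₁ p)) (fun p => incR a₁ a₂ n (X.rng a₂ p)) x *ᵥ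
      tens (incL a₁ n) (incR a₁ a₂ n) Φ₁ Φ₂)
      (cas (fun p => incL a₁ n (X.rng a₁ p)) (fun p => incR a₁ a₂ n (X.rng a₂ p)) x *ᵥ
      tens (incL a₁ n) (incR a₁ a₂ n) Φ₁ Φ₂) =
      χ (kap x χ) * (ev (emb (pos col yy a₁) M) Φ₁ Φ₁ * (star Φ₂ ⬝ᵥ Φ₂)) := by
  have iL : Function.Injective (incL (Y := Y) a₁ n) := incL_inj (by omega)
  have iR : Function.Injective (incR (Y := Y) a₁ a₂ n) := incR_inj (by omega)
  have iD : ∀ (p : ZMod a₁ × Y) (q : ZMod a₂ × Y), incL a₁ n p ≠ incR a₁ a₂ n q :=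
    inc_disj (by omega)
  have r1 : Function.Injective (X.rng (Y := Y) a₁) := X.rng_inj (by omega)
  have r2 : Function.Injective (X.rng (Y := Y) a₂) := X.rng_inj (by omega)
  have j1 : Function.Injective (fun p : Fin X.g × Y => incL a₁ n (X.rng a₁ p)) := iL.comp r1
  have j2 : Function.Injective (fun p : Fin X.g × Y => incR a₁ a₂ n (X.rng a₂ p)) := iR.comp r2
  have pinj : Function.Injective (pos col yy a₁) := by
    intro u v huv
    simp only [pos, Prod.mk.injEq] at huv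
    exact hinj u v (natCast_inj (hcol u).2 (hcol v).2 huv.1) huv.2
  have e1 : pos col yy n = fun u => incL a₁ n (pos col yy a₁ u) := by
    funext u
    simp only [pos, incL]
    rw [ZMod.val_natCast_of_lt (hcol u).2]
  have e2 : emb (pos col yy n) M = emb (incL a₁ n) (emb (pos col yy a₁) M) := by
    rw [emb_comp pinj iL, e1]
  have pdisj : ∀ (u : U) (q : Fin X.g × Y), pos col yy a₁ u ≠ X.rng a₁ q := by
    intro u q h
    simp only [pos, rng, Prod.mk.injEq] at h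
    have := q.1.2
    have h3 := natCast_inj (hcol u).2 (by have := hcol u; omega) h.1
    have := hcol u
    omega
  have hO : Commute (emb (pos col yy n) M) (cas (fun p => incL a₁ n (X.rng a₁ p))
      (fun p => incR a₁ a₂ n (X.rng a₂ p)) x) := by
    refine cas_commute hx X.alg_star ?_ ?_
    · intro z _
      rw [e2, ← emb_comp r1 iL]
      show _ * _ = _ * _
      rw [← emb_mul iL, ← emb_mul iL, (emb_commute pinj r1 pdisj M z).eq]
    · intro z _
      rw [e2, ← emb_comp r2 iR]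
      exact emb_commute iL iR iD _ _
  unfold ev
  rw [inner_cas j1 j2 (fun p q => iD _ _) hx X.alg_star hO,
    cas_sq_tens iL iR iD r1 r2 hx (X.alg_mul hm) X.alg_star h₁ h₂, Matrix.mulVec_smul,
    dotProduct_smul, e2, emb_mulVec_tens_left iL iD, tens_inner hn, smul_eq_mul]

/-- Covers of a periodic chain: a ground state that is an eigenvector of the centre lifts to the
cover of any degree, with the same expectation values away from the ring. -/
theorem cover (hm' : 3 * X.g < m) (hC : X.AllComm (Y := Y) m)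
    {a : ℕ} [NeZero a] (ha : m ≤ a) {Φ : (ZMod a × Y → Fin d) → ℂ} (hG : X.Ground a Φ)
    (hΦ : Φ ≠ 0) (hE : Eig (X.alg (Y := Y) m) (X.rng a) χ Φ) (k : ℕ) :
    ∀ (n : ℕ) [NeZero n], n = (k + 1) * a → ∃ Θ : (ZMod n × Y → Fin d) → ℂ, X.Ground n Θ ∧
      Θ ≠ 0 ∧ Eig (X.alg (Y := Y) m) (X.rng n) χ Θ ∧
      ∀ (U : Type) [Fintype U] [DecidableEq U] (col : U → ℕ) (yy : U → Y),
        (∀ u, X.g ≤ col u ∧ col u < a) → (∀ u v, col u = col v → yy u = yy v → u = v) →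
        ∀ M : Matrix (U → Fin d) (U → Fin d) ℂ,
        ev (emb (pos col yy n) M) Θ Θ * (star Φ ⬝ᵥ Φ) =
          ev (emb (pos col yy a) M) Φ Φ * (star Θ ⬝ᵥ Θ) := by
  have hm : X.g ≤ m := by omega
  obtain ⟨N, x, hx⟩ := exists_frame (X.alg (Y := Y) m)
  have hκ := X.kap_ne_zero hm hx ha hΦ hE
  induction k with
  | zero =>
    intro n _ hn
    have hn' : n = a := by rw [hn]; ring
    subst hn'
    exact ⟨Φ, hG, hΦ, hE, fun U _ _ col yy _ _ M => rfl⟩
  | succ k ih =>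
    intro n _ hn
    obtain ⟨a₁, ha₁⟩ : ∃ a₁, a₁ = (k + 1) * a := ⟨_, rfl⟩
    have hle : a ≤ a₁ := by rw [ha₁]; exact Nat.le_mul_of_pos_left a (Nat.succ_pos k)
    haveI : NeZero a₁ := ⟨by have := NeZero.ne a; omega⟩
    obtain ⟨Θ, hΘG, hΘ0, hΘE, hΘ⟩ := ih a₁ ha₁
    have hn' : n = a₁ + a := by rw [hn, ha₁]; ring
    refine ⟨_, X.ground_glue hm' hC hx (le_trans ha hle) ha hn' hΘG hG, ?_,
      X.eig_glue hm hx (le_trans ha hle) ha hn' hE, ?_⟩
    · intro h0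
      have h1 := X.ev_glue hm hx (le_trans ha hle) ha hn' hΘE hE (U := Fin 0) (fun _ => 0)
        (fun u => u.elim0) (fun u => u.elim0) (fun u => u.elim0) 1
      rw [h0] at h1
      have h2 : Function.Injective (pos (fun _ : Fin 0 => 0) (fun u : Fin 0 => (u.elim0 : Y)) a₁) :=
        fun u => u.elim0
      unfold ev at h1
      rw [Matrix.mulVec_zero, dotProduct_zero, emb_one h2, Matrix.one_mulVec] at h1
      have h3 := ev_self_ne_zero hΦ
      have h4 := ev_self_ne_zero hΘ0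
      exact (mul_ne_zero hκ (mul_ne_zero h4 h3)) h1.symm
    · intro U _ _ col yy hcol hinj M
      have hcol' : ∀ u, X.g ≤ col u ∧ col u < a₁ := fun u => ⟨(hcol u).1,
        lt_of_lt_of_le (hcol u).2 hle⟩
      rw [X.ev_glue hm hx (le_trans ha hle) ha hn' hΘE hE col yy hcol' hinj M]
      have h1 := X.ev_glue hm hx (le_trans ha hle) ha hn' hΘE hE (U := Fin 0) (fun _ => 0)
        (fun u => u.elim0) (fun u => u.elim0) (fun u => u.elim0) 1
      have h2 : ∀ a : ℕ, Function.Injective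
          (pos (fun _ : Fin 0 => 0) (fun u : Fin 0 => (u.elim0 : Y)) a) :=
        fun a u => u.elim0
      unfold ev at h1
      rw [emb_one (h2 _), emb_one (h2 _), Matrix.one_mulVec, Matrix.one_mulVec] at h1
      rw [h1]
      have h3 := hΘ U col yy hcol hinj M
      calc _ = χ (kap x χ) * (star Φ ⬝ᵥ Φ) * (ev (emb (pos col yy a₁) M) Θ Θ * (star Φ ⬝ᵥ Φ)) := by
            ring
        _ = _ := by
            rw [h3]
            ring

end glue

end Lay

end Pool.Agent.Hlead.Comm
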