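import Mathlib

/-!
Operators on finitely many sites, placed on a larger set of sites.
-/

set_option autoImplicit false
set_option linter.unusedSectionVars false

open scoped BigOperators Matrix

namespace Pool.Agent.Hlead.Comm

/-- A matrix is determined by its action on vectors. -/
theorem mat_ext {n : Type} [Fintype n] {A B : Matrix n n ℂ} (h : ∀ Φ : n → ℂ, A *ᵥ Φ = B *ᵥ Φ) :
    A = B := by
  classical
  apply Matrix.toLin'.injective
  apply LinearMap.ext
  intro Φ
  simpa using h Φ

section emb

variable {S T U V : Type} [Fintype S] [DecidableEq S] [Fintype T] [DecidableEq T]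
  [Fintype U] [DecidableEq U] [Fintype V] [DecidableEq V] {d : ℕ}

open Classical in
/-- The operator `M` on the sites `U`, placed on the sites `S` by `ι`. -/
noncomputable def emb (ι : U → S) (M : Matrix (U → Fin d) (U → Fin d) ℂ) :
    Matrix (S → Fin d) (S → Fin d) ℂ :=
  fun s s' => if ∀ u, (∀ p, ι p ≠ u) → s u = s' u then
    M (fun p => s (ι p)) (fun p => s' (ι p)) else 0

theorem sum_agree {α : Type} [AddCommMonoid α] {ι : U → S} (hι : Function.Injective ι)
    (s : S → Fin d) (F : (S → Fin d) → α) :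
    (∑ s' : S → Fin d, open Classical in
      if ∀ u, (∀ p, ι p ≠ u) → s u = s' u then F s' else 0) =
      ∑ q : U → Fin d, F (Function.extend ι q s) := by
  classical
  rw [← Finset.sum_filter]
  symm
  refine Finset.sum_bij (fun q _ => Function.extend ι q s) ?_ ?_ ?_ ?_
  · intro q _
    simp only [Finset.mem_filter, Finset.mem_univ, true_and]
    intro u hu
    rw [Function.extend_apply' _ _ _ (by rintro ⟨p, hp⟩; exact hu p hp)]
  · intro q _ q' _ hqq
    funext p
    have := congrFun hqq (ι p)
    rwa [hι.extend_apply, hι.extend_apply] at this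
  · intro s' hs'
    simp only [Finset.mem_filter, Finset.mem_univ, true_and] at hs'
    refine ⟨fun p => s' (ι p), Finset.mem_univ _, ?_⟩
    funext u
    by_cases hu : ∃ p, ι p = u
    · obtain ⟨p, rfl⟩ := hu
      rw [hι.extend_apply]
    · rw [Function.extend_apply' _ _ _ hu]
      exact hs' u (fun p hp => hu ⟨p, hp⟩)
  · intro q _
    rfl

theorem extend_comp_self {ι : U → S} (hι : Function.Injective ι) (q : U → Fin d) (s : S → Fin d) :
    (fun p => Function.extend ι q s (ι p)) = q := by
  funext p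
  rw [hι.extend_apply]

theorem extend_extend {ι : U → S} (hι : Function.Injective ι) (q q' : U → Fin d)
    (s : S → Fin d) :
    Function.extend ι q' (Function.extend ι q s) = Function.extend ι q' s := by
  funext u
  by_cases hu : ∃ p, ι p = u
  · obtain ⟨p, rfl⟩ := hu
    rw [hι.extend_apply, hι.extend_apply]
  · rw [Function.extend_apply' _ _ _ hu, Function.extend_apply' _ _ _ hu,
      Function.extend_apply' _ _ _ hu]

theorem extend_self {ι : U → S} (hι : Function.Injective ι) (s : S → Fin d) :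
    Function.extend ι (fun p => s (ι p)) s = s := by
  funext u
  by_cases hu : ∃ p, ι p = u
  · obtain ⟨p, rfl⟩ := hu
    rw [hι.extend_apply]
  · rw [Function.extend_apply' _ _ _ hu]

theorem extend_comp_of_disjoint {ι : U → S} {κ : V → S} (h : ∀ p q, ι p ≠ κ q)
    (q : U → Fin d) (s : S → Fin d) :
    (fun p => Function.extend ι q s (κ p)) = fun p => s (κ p) := by
  funext p
  rw [Function.extend_apply' _ _ _ (by rintro ⟨a, ha⟩; exact h a p ha)]

theorem extend_comm {ι : U → S} (hι : Function.Injective ι) {κ : V → S}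
    (hκ : Function.Injective κ) (h : ∀ p q, ι p ≠ κ q)
    (q : U → Fin d) (q' : V → Fin d) (s : S → Fin d) :
    Function.extend κ q' (Function.extend ι q s) =
      Function.extend ι q (Function.extend κ q' s) := by
  funext u
  by_cases hu : ∃ p, ι p = u
  · obtain ⟨p, rfl⟩ := hu
    rw [hι.extend_apply, Function.extend_apply' _ _ _ (by rintro ⟨a, ha⟩; exact h p a ha.symm),
      hι.extend_apply]
  · rw [Function.extend_apply' (f := ι) q (Function.extend κ q' s) u hu]
    by_cases hv : ∃ p, κ p = u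
    · obtain ⟨p, rfl⟩ := hv
      rw [hκ.extend_apply, hκ.extend_apply]
    · rw [Function.extend_apply' _ _ _ hv, Function.extend_apply' _ _ _ hv,
        Function.extend_apply' _ _ _ hu]

theorem extend_comp_comp {κ : U → T} (hκ : Function.Injective κ) {ι : T → S}
    (hι : Function.Injective ι) (q : U → Fin d) (s : S → Fin d) :
    Function.extend ι (Function.extend κ q (fun p => s (ι p))) s =
      Function.extend (fun p => ι (κ p)) q s := by
  have hικ : Function.Injective (fun p => ι (κ p)) := hι.comp hκ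
  funext u
  by_cases hu : ∃ p, ι p = u
  · obtain ⟨p, rfl⟩ := hu
    rw [hι.extend_apply]
    by_cases hv : ∃ t, κ t = p
    · obtain ⟨t, rfl⟩ := hv
      rw [hκ.extend_apply]
      exact (hικ.extend_apply q s t).symm
    · rw [Function.extend_apply' _ _ _ hv, Function.extend_apply' _ _ _ ?_]
      rintro ⟨t, ht⟩
      exact hv ⟨t, hι ht⟩
  · rw [Function.extend_apply' _ _ _ hu, Function.extend_apply' _ _ _ ?_]
    rintro ⟨t, ht⟩
    exact hu ⟨κ t, ht⟩

/-- The action of an operator placed by `ι`. -/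
theorem emb_mulVec {ι : U → S} (hι : Function.Injective ι)
    (M : Matrix (U → Fin d) (U → Fin d) ℂ) (Φ : (S → Fin d) → ℂ) (s : S → Fin d) :
    (emb ι M *ᵥ Φ) s = ∑ q : U → Fin d, M (fun p => s (ι p)) q * Φ (Function.extend ι q s) := by
  classical
  have h1 := sum_agree hι s (fun s' => M (fun p => s (ι p)) (fun p => s' (ι p)) * Φ s')
  simp only [Matrix.mulVec, dotProduct, emb, ite_mul, zero_mul]
  rw [h1]
  refine Finset.sum_congr rfl (fun q _ => ?_)
  rw [extend_comp_self hι]

theorem emb_mul {ι : U → S} (hι : Function.Injective ι)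
    (M N : Matrix (U → Fin d) (U → Fin d) ℂ) : emb ι (M * N) = emb ι M * emb ι N := by
  apply mat_ext
  intro Φ
  rw [← Matrix.mulVec_mulVec]
  funext s
  rw [emb_mulVec hι, emb_mulVec hι]
  simp_rw [emb_mulVec hι, extend_comp_self hι, extend_extend hι, Matrix.mul_apply,
    Finset.mul_sum, Finset.sum_mul]
  rw [Finset.sum_comm]
  refine Finset.sum_congr rfl (fun q _ => Finset.sum_congr rfl (fun q' _ => ?_))
  ring

theorem emb_one {ι : U → S} (hι : Function.Injective ι) :
    emb ι (1 : Matrix (U → Fin d) (U → Fin d) ℂ) = 1 := by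
  classical
  apply mat_ext
  intro Φ
  funext s
  rw [emb_mulVec hι, Matrix.one_mulVec]
  rw [Finset.sum_eq_single (fun p => s (ι p))]
  · rw [extend_self hι]; simp
  · intro q _ hq
    rw [Matrix.one_apply_ne (Ne.symm hq), zero_mul]
  · intro h
    exact absurd (Finset.mem_univ _) h

theorem emb_zero (ι : U → S) : emb ι (0 : Matrix (U → Fin d) (U → Fin d) ℂ) = 0 := by
  funext s s'
  simp [emb]

theorem emb_add (ι : U → S) (M N : Matrix (U → Fin d) (U → Fin d) ℂ) :
    emb ι (M + N) = emb ι M + emb ι N := by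
  classical
  funext s s'
  simp only [emb, Matrix.add_apply]
  split_ifs <;> simp

theorem emb_smul (ι : U → S) (c : ℂ) (M : Matrix (U → Fin d) (U → Fin d) ℂ) :
    emb ι (c • M) = c • emb ι M := by
  classical
  funext s s'
  simp only [emb, Matrix.smul_apply]
  split_ifs <;> simp

/-- `emb` as a linear map. -/
noncomputable def embL (ι : U → S) :
    Matrix (U → Fin d) (U → Fin d) ℂ →ₗ[ℂ] Matrix (S → Fin d) (S → Fin d) ℂ where
  toFun := emb ι
  map_add' := emb_add ι
  map_smul' := emb_smul ι

theorem embL_apply (ι : U → S) (M : Matrix (U → Fin d) (U → Fin d) ℂ) :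
    embL ι M = emb ι M := rfl

theorem emb_sum {J : Type} (ι : U → S) (F : Finset J) (M : J → Matrix (U → Fin d) (U → Fin d) ℂ) :
    emb ι (∑ j ∈ F, M j) = ∑ j ∈ F, emb ι (M j) := by
  exact map_sum (embL (d := d) ι) M F

theorem emb_sub (ι : U → S) (M N : Matrix (U → Fin d) (U → Fin d) ℂ) :
    emb ι (M - N) = emb ι M - emb ι N := by
  exact map_sub (embL (d := d) ι) M N

theorem emb_conjTranspose (ι : U → S) (M : Matrix (U → Fin d) (U → Fin d) ℂ) :
    (emb ι M)ᴴ = emb ι Mᴴ := by
  classical
  funext s s'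
  simp only [emb, Matrix.conjTranspose_apply]
  by_cases h : ∀ u, (∀ p, ι p ≠ u) → s' u = s u
  · rw [if_pos h, if_pos (fun u hu => (h u hu).symm)]
  · rw [if_neg h, if_neg (fun h' => h (fun u hu => (h' u hu).symm)), star_zero]

theorem emb_comp {κ : U → T} (hκ : Function.Injective κ) {ι : T → S}
    (hι : Function.Injective ι) (M : Matrix (U → Fin d) (U → Fin d) ℂ) :
    emb ι (emb κ M) = emb (fun p => ι (κ p)) M := by
  apply mat_ext
  intro Φ
  funext s
  have hικ : Function.Injective (fun p => ι (κ p)) := hι.comp hκ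
  rw [emb_mulVec hι, emb_mulVec hικ]
  have h1 := emb_mulVec hκ M (fun t => Φ (Function.extend ι t s)) (fun p => s (ι p))
  simp only [Matrix.mulVec, dotProduct] at h1
  rw [h1]
  simp_rw [extend_comp_comp hκ hι]

theorem emb_commute {ι : U → S} (hι : Function.Injective ι) {κ : V → S}
    (hκ : Function.Injective κ) (h : ∀ p q, ι p ≠ κ q)
    (M : Matrix (U → Fin d) (U → Fin d) ℂ) (N : Matrix (V → Fin d) (V → Fin d) ℂ) :
    Commute (emb ι M) (emb κ N) := by
  apply mat_ext
  intro Φ
  rw [← Matrix.mulVec_mulVec, ← Matrix.mulVec_mulVec]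
  funext s
  rw [emb_mulVec hι, emb_mulVec hκ]
  simp_rw [emb_mulVec hι, emb_mulVec hκ, extend_comp_of_disjoint h,
    extend_comp_of_disjoint (fun p q => (h q p).symm), Finset.mul_sum]
  rw [Finset.sum_comm]
  refine Finset.sum_congr rfl (fun q _ => Finset.sum_congr rfl (fun q' _ => ?_))
  rw [extend_comm hι hκ h]
  ring

end emb

section tens

variable {S T U : Type} [Fintype S] [DecidableEq S] [Fintype T] [DecidableEq T]
  [Fintype U] [DecidableEq U] {d : ℕ}

/-- Tensor product of two vectors living on disjoint sets of sites. -/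
def tens (i : T → S) (j : U → S) (Θ : (T → Fin d) → ℂ) (Φ : (U → Fin d) → ℂ) :
    (S → Fin d) → ℂ :=
  fun s => Θ (fun p => s (i p)) * Φ (fun p => s (j p))

theorem emb_mulVec_tens_left {i : T → S} {j : U → S} (hi : Function.Injective i)
    (hij : ∀ p q, i p ≠ j q) (M : Matrix (T → Fin d) (T → Fin d) ℂ)
    (Θ : (T → Fin d) → ℂ) (Φ : (U → Fin d) → ℂ) :
    emb i M *ᵥ tens i j Θ Φ = tens i j (M *ᵥ Θ) Φ := by
  funext s
  rw [emb_mulVec hi]
  simp only [tens, extend_comp_self hi, extend_comp_of_disjoint hij, Matrix.mulVec, dotProduct,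
    Finset.sum_mul]
  refine Finset.sum_congr rfl (fun q _ => ?_)
  ring

theorem emb_mulVec_tens_right {i : T → S} {j : U → S} (hj : Function.Injective j)
    (hij : ∀ p q, i p ≠ j q) (M : Matrix (U → Fin d) (U → Fin d) ℂ)
    (Θ : (T → Fin d) → ℂ) (Φ : (U → Fin d) → ℂ) :
    emb j M *ᵥ tens i j Θ Φ = tens i j Θ (M *ᵥ Φ) := by
  funext s
  rw [emb_mulVec hj]
  simp only [tens, extend_comp_self hj, extend_comp_of_disjoint (fun p q => (hij q p).symm),
    Matrix.mulVec, dotProduct, Finset.mul_sum]
  refine Finset.sum_congr rfl (fun q _ => ?_)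
  ring

theorem tens_smul_left (i : T → S) (j : U → S) (c : ℂ) (Θ : (T → Fin d) → ℂ)
    (Φ : (U → Fin d) → ℂ) : tens i j (c • Θ) Φ = c • tens i j Θ Φ := by
  funext s; simp [tens, mul_assoc]

theorem tens_smul_right (i : T → S) (j : U → S) (c : ℂ) (Θ : (T → Fin d) → ℂ)
    (Φ : (U → Fin d) → ℂ) : tens i j Θ (c • Φ) = c • tens i j Θ Φ := by
  funext s; simp [tens]; ring

theorem tens_zero_left (i : T → S) (j : U → S) (Φ : (U → Fin d) → ℂ) :
    tens i j (0 : (T → Fin d) → ℂ) Φ = 0 := by
  funext s; simp [tens]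

theorem tens_zero_right (i : T → S) (j : U → S) (Θ : (T → Fin d) → ℂ) :
    tens i j Θ (0 : (U → Fin d) → ℂ) = 0 := by
  funext s; simp [tens]

theorem tens_sum_left {J : Type} (i : T → S) (j : U → S) (F : Finset J)
    (Θ : J → (T → Fin d) → ℂ) (Φ : (U → Fin d) → ℂ) :
    tens i j (∑ a ∈ F, Θ a) Φ = ∑ a ∈ F, tens i j (Θ a) Φ := by
  funext s; simp [tens, Finset.sum_apply, Finset.sum_mul]

theorem tens_sum_right {J : Type} (i : T → S) (j : U → S) (F : Finset J)
    (Θ : (T → Fin d) → ℂ) (Φ : J → (U → Fin d) → ℂ) :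
    tens i j Θ (∑ a ∈ F, Φ a) = ∑ a ∈ F, tens i j Θ (Φ a) := by
  funext s; simp [tens, Finset.sum_apply, Finset.mul_sum]

/-- Two injections with disjoint ranges covering everything. -/
theorem sum_tens (i : T → S) (j : U → S) (hi : Function.Injective i) (hj : Function.Injective j)
    (hij : ∀ p q, i p ≠ j q) (hcov : ∀ s, (∃ p, i p = s) ∨ ∃ q, j q = s)
    (f : (T → Fin d) → ℂ) (g : (U → Fin d) → ℂ) :
    ∑ s : S → Fin d, f (fun p => s (i p)) * g (fun p => s (j p)) =
      (∑ t, f t) * ∑ u, g u := by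
  classical
  rw [Finset.sum_mul_sum, ← Finset.sum_product']
  refine Finset.sum_bij (fun s _ => (fun p => s (i p), fun p => s (j p))) ?_ ?_ ?_ ?_
  · intro s _; simp
  · intro s _ s' _ h
    funext u
    rcases hcov u with ⟨p, rfl⟩ | ⟨q, rfl⟩
    · exact congrFun (congrArg Prod.fst h) p
    · exact congrFun (congrArg Prod.snd h) q
  · intro ⟨t, u⟩ _
    refine ⟨fun x => if h : ∃ p, i p = x then t h.choose else
      u ((hcov x).resolve_left h).choose, Finset.mem_univ _, ?_⟩
    refine Prod.ext ?_ ?_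
    · funext p
      have hp : ∃ p', i p' = i p := ⟨p, rfl⟩
      simp only [dif_pos hp]
      rw [hi hp.choose_spec]
    · funext q
      have hq : ¬ ∃ p', i p' = j q := by
        rintro ⟨p, hp⟩
        exact hij p q hp
      simp only [dif_neg hq]
      rw [hj ((hcov (j q)).resolve_left hq).choose_spec]
  · intro s _
    rfl

end tens

end Pool.Agent.Hlead.Comm
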