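import Pool.Agent.Hlead.Comm.Square

/-!
The joint eigenvalue of the local terms in the unique ground state, and its eventual constancy.
-/

set_option autoImplicit false
set_option linter.unusedSectionVars false

open scoped BigOperators Matrix ComplexOrder

namespace Pool.Agent.Hlead.Comm

open Pool.Agent.Hhelper96.PEPS Lay

variable {d : ℕ} {F : Finset (ℤ × ℤ)} {f : ℕ}

theorem lt2_herm (a b : ℕ) [NeZero a] [NeZero b] {h : Matrix (F → Fin d) (F → Fin d) ℂ}
    (hh : hᴴ = h) (v : ZMod a × ZMod b) : (lt2 a b F h v).IsHermitian := by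
  show (lt2 a b F h v)ᴴ = lt2 a b F h v
  unfold lt2
  rw [emb_conjTranspose, hh]

theorem hamiltonian_eq (L : ℕ) [NeZero L] (h : Matrix (F → Fin d) (F → Fin d) ℂ) :
    hamiltonian L F h = ∑ v : Site L, lt2 L L F h v := by
  unfold hamiltonian
  exact Finset.sum_congr rfl (fun v _ => localTerm_eq L F h v)

/-- Translation of the torus. -/
def trans (L : ℕ) (w : Site L) : Site L ≃ Site L := Equiv.addLeft w

theorem lt2_trans {L : ℕ} [NeZero L] (hF : InBox F f) (hL : 2 * f < L)
    (h : Matrix (F → Fin d) (F → Fin d) ℂ) (v w : Site L) (Φ : (Site L → Fin d) → ℂ) :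
    lt2 L L F h (w + v) *ᵥ tr (trans L w) Φ = tr (trans L w) (lt2 L L F h v *ᵥ Φ) := by
  have h1 := emb_tr (trans L w) (place2_inj hF hL hL v) h Φ
  unfold lt2
  rw [← h1]
  congr 2
  funext p
  simp only [place2, trans, Equiv.coe_addLeft]
  refine Prod.ext ?_ ?_
  · show (w + v).1 + _ = w.1 + _
    rw [Prod.fst_add]; ring
  · show (w + v).2 + _ = w.2 + _
    rw [Prod.snd_add]; ring

/-- In the unique ground state all local terms have the same eigenvalue. -/
theorem joint_ground {L : ℕ} [NeZero L] (hF : InBox F f) (hL : 2 * f < L)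
    {h : Matrix (F → Fin d) (F → Fin d) ℂ} (hh : hᴴ = h)
    (hc : ∀ v w : Site L, Commute (lt2 L L F h v) (lt2 L L F h w)) {Δ : ℝ} (hΔ : 0 < Δ)
    {ψ : (Site L → Fin d) → ℂ} (hψ : IsGappedGround (hamiltonian L F h) Δ ψ) :
    ∃ e : ℝ, (∀ v, lt2 L L F h v *ᵥ ψ = (e : ℂ) • ψ) ∧
      (∀ Φ, (∀ v, lt2 L L F h v *ᵥ Φ = (e : ℂ) • Φ) → ∃ c : ℂ, Φ = c • ψ) ∧
      ∀ (φ : (Site L → Fin d) → ℂ) (lam : Site L → ℝ), φ ≠ 0 →
        (∀ v, lt2 L L F h v *ᵥ φ = (lam v : ℂ) • φ) → (L : ℝ) ^ 2 * e ≤ ∑ v, lam v := by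
  classical
  obtain ⟨hψ0, E₀, hE₀, hgap⟩ := hψ
  have huniq : ∀ Φ, hamiltonian L F h *ᵥ Φ = (E₀ : ℂ) • Φ → ∃ c : ℂ, Φ = c • ψ := by
    intro Φ hΦ
    by_cases h0 : Φ = 0
    · exact ⟨0, by rw [h0, zero_smul]⟩
    · rcases hgap E₀ Φ h0 hΦ with h1 | h1
      · exact h1
      · linarith
  have hHc : ∀ v, Commute (hamiltonian L F h) (lt2 L L F h v) := by
    intro v
    rw [hamiltonian_eq]
    exact Commute.sum_left _ _ _ (fun w _ => hc w v)
  have h1 : ∀ v, ∃ lam : ℝ, lt2 L L F h v *ᵥ ψ = (lam : ℂ) • ψ := by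
    intro v
    obtain ⟨c, hc'⟩ := huniq (lt2 L L F h v *ᵥ ψ) (by
      rw [Matrix.mulVec_mulVec, (hHc v).eq, ← Matrix.mulVec_mulVec, hE₀, Matrix.mulVec_smul])
    have h2 := eig_real (lt2_herm L L hh v) hψ0 hc'
    refine ⟨c.re, ?_⟩
    rw [hc', Complex.conj_eq_iff_re.1 h2]
  choose lam hlam using h1
  -- translation invariance
  have h2 : ∀ w v, lam (w + v) = lam v := by
    intro w v
    have h3 : hamiltonian L F h *ᵥ tr (trans L w) ψ = (E₀ : ℂ) • tr (trans L w) ψ := by
      rw [← tr_smul, ← hE₀, hamiltonian_eq, Matrix.sum_mulVec, Matrix.sum_mulVec]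
      have h4 : tr (trans L w) (∑ v, lt2 L L F h v *ᵥ ψ) =
          ∑ v, tr (trans L w) (lt2 L L F h v *ᵥ ψ) := by
        funext s
        simp only [tr, Finset.sum_apply]
      rw [h4, ← Equiv.sum_comp (Equiv.addLeft w)]
      exact Finset.sum_congr rfl (fun v _ => lt2_trans hF hL h v w ψ)
    obtain ⟨c, hc'⟩ := huniq _ h3
    have hc0 : c ≠ 0 := by
      rintro rfl
      rw [zero_smul, ← tr_zero (trans L w)] at hc'
      exact hψ0 (tr_injective _ hc')
    have h5 := lt2_trans hF hL h v w ψ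
    rw [hlam v, tr_smul, hc', Matrix.mulVec_smul, hlam (w + v), smul_smul, smul_smul] at h5
    have h6 : (c * (lam (w + v) : ℂ) - (lam v : ℂ) * c) • ψ = 0 := by
      rw [sub_smul, h5, sub_self]
    rcases smul_eq_zero.1 h6 with h7 | h7
    · have h8 : (lam (w + v) : ℂ) = (lam v : ℂ) := by
        apply mul_left_cancel₀ hc0
        linear_combination h7
      exact_mod_cast h8
    · exact absurd h7 hψ0
  have h3 : ∀ v, lam v = lam 0 := by
    intro v
    have := h2 v 0
    rwa [add_zero] at this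
  have hsum : ∀ (φ : (Site L → Fin d) → ℂ) (l : Site L → ℝ),
      (∀ v, lt2 L L F h v *ᵥ φ = (l v : ℂ) • φ) →
      hamiltonian L F h *ᵥ φ = ((∑ v, l v : ℝ) : ℂ) • φ := by
    intro φ l hl
    rw [hamiltonian_eq, Matrix.sum_mulVec]
    simp_rw [hl]
    rw [← Finset.sum_smul]
    push_cast
    rfl
  have hE : E₀ = (L : ℝ) ^ 2 * lam 0 := by
    have h4 := hsum ψ lam hlam
    rw [hE₀] at h4
    have h5 : ((E₀ : ℂ) - ((∑ v, lam v : ℝ) : ℂ)) • ψ = 0 := by rw [sub_smul, h4, sub_self]
    rcases smul_eq_zero.1 h5 with h6 | h6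
    · have h7 : E₀ = ∑ v, lam v := by exact_mod_cast sub_eq_zero.1 h6
      rw [h7]
      simp_rw [h3]
      rw [Finset.sum_const, Finset.card_univ, Fintype.card_prod, ZMod.card, nsmul_eq_mul]
      push_cast
      ring
    · exact absurd h6 hψ0
  refine ⟨lam 0, fun v => by rw [hlam v, h3 v], ?_, ?_⟩
  · intro Φ hΦ
    apply huniq
    rw [hsum Φ (fun _ => lam 0) hΦ, hE]
    congr 2
    rw [Finset.sum_const, Finset.card_univ, Fintype.card_prod, ZMod.card, nsmul_eq_mul]
    push_cast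
    ring
  · intro φ l hφ hl
    rw [← hE]
    rcases hgap _ φ hφ (hsum φ l hl) with ⟨c, hc'⟩ | h4
    · have hc0 : c ≠ 0 := by
        rintro rfl
        exact hφ (by rw [hc', zero_smul])
      have h5 := hsum φ l hl
      rw [hc', Matrix.mulVec_smul, hE₀, smul_smul, smul_smul] at h5
      have h6 : (c * (E₀ : ℂ) - ((∑ v, l v : ℝ) : ℂ) * c) • ψ = 0 := by
        rw [sub_smul, h5, sub_self]
      rcases smul_eq_zero.1 h6 with h7 | h7
      · have h8 : (E₀ : ℂ) = ((∑ v, l v : ℝ) : ℂ) := by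
          apply mul_left_cancel₀ hc0
          linear_combination h7
        exact le_of_eq (by exact_mod_cast h8)
      · exact absurd h7 hψ0
    · linarith

/-- The real eigenvalues of `h`. -/
def spec (h : Matrix (F → Fin d) (F → Fin d) ℂ) : Set ℝ :=
  {e | ∃ u : (F → Fin d) → ℂ, u ≠ 0 ∧ h *ᵥ u = (e : ℂ) • u}

theorem spec_finite (h : Matrix (F → Fin d) (F → Fin d) ℂ) : (spec h).Finite := by
  have h1 := Module.End.finite_hasEigenvalue (Matrix.toLin' h)
  have h2 : spec h = (fun e : ℝ => (e : ℂ)) ⁻¹' {μ | Module.End.HasEigenvalue (Matrix.toLin' h) μ} := by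
    ext e
    simp only [spec, Set.mem_ofPred_eq, Set.mem_preimage]
    constructor
    · rintro ⟨u, hu, hue⟩
      exact Module.End.hasEigenvalue_of_hasEigenvector (x := u)
        ((Module.End.hasEigenvector_iff).2 ⟨(Module.End.mem_eigenspace_iff).2 (by
          rw [Matrix.toLin'_apply]; exact hue), hu⟩)
    · intro he
      obtain ⟨u, hu⟩ := he.exists_hasEigenvector
      exact ⟨u, hu.2, by
        have := hu.apply_eq_smul
        rwa [Matrix.toLin'_apply] at this⟩
  rw [h2]
  exact h1.preimage (Complex.ofReal_injective.injOn)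

theorem mem_spec {S : Type} [Fintype S] [DecidableEq S] {ι : F → S} (hι : Function.Injective ι)
    {h : Matrix (F → Fin d) (F → Fin d) ℂ} {φ : (S → Fin d) → ℂ} (hφ : φ ≠ 0) {e : ℝ}
    (he : emb ι h *ᵥ φ = (e : ℂ) • φ) : e ∈ spec h := by
  obtain ⟨s, hs⟩ := Function.ne_iff.1 hφ
  refine ⟨fun q => φ (Function.extend ι q s), ?_, ?_⟩
  · intro h0
    apply hs
    have h1 := congrFun h0 (fun p => s (ι p))
    simp only [extend_self hι] at h1
    exact h1
  · funext q
    have h1 := congrFun he (Function.extend ι q s)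
    rw [emb_mulVec hι, extend_comp_self hι] at h1
    simp only [extend_extend hι] at h1
    exact h1

/-- The box of side `M` inside the torus of side `N`. -/
def box (M N : ℕ) : Site M → Site N := fun v => ((v.1.val : ZMod N), (v.2.val : ZMod N))

theorem box_inj {M N : ℕ} [NeZero M] (hMN : M ≤ N) : Function.Injective (box M N) := by
  intro v w h
  simp only [box, Prod.mk.injEq] at h
  have h1 := ZMod.val_lt v.1
  have h2 := ZMod.val_lt v.2
  have h3 := ZMod.val_lt w.1
  have h4 := ZMod.val_lt w.2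
  exact Prod.ext (ZMod.val_injective M (natCast_inj (by omega) (by omega) h.1))
    (ZMod.val_injective M (natCast_inj (by omega) (by omega) h.2))

/-- Comparison of the joint eigenvalues on two tori. -/
theorem compare {M N : ℕ} [NeZero M] [NeZero N] (hF : InBox F f) (hM : 2 * f < M) (hMN : M ≤ N)
    {h : Matrix (F → Fin d) (F → Fin d) ℂ} (hh : hᴴ = h)
    (hc : ∀ v w : Site M, Commute (lt2 M M F h v) (lt2 M M F h w))
    {eM eN : ℝ} (hlow : ∀ (φ : (Site M → Fin d) → ℂ) (lam : Site M → ℝ), φ ≠ 0 →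
        (∀ v, lt2 M M F h v *ᵥ φ = (lam v : ℂ) • φ) → (M : ℝ) ^ 2 * eM ≤ ∑ v, lam v)
    {ψ : (Site N → Fin d) → ℂ} (hψ0 : ψ ≠ 0) (hψ : ∀ v, lt2 N N F h v *ᵥ ψ = (eN : ℂ) • ψ)
    {Λ : ℝ} (hΛ : ∀ e ∈ spec h, |e| ≤ Λ) : (M : ℝ) * (eM - eN) ≤ 8 * f * Λ := by
  classical
  have hj : Function.Injective (box M N) := box_inj hMN
  -- the box vector
  obtain ⟨s₀, hs₀⟩ := Function.ne_iff.1 hψ0
  let φ₀ : (Site M → Fin d) → ℂ := fun s => ψ (Function.extend (box M N) s s₀)
  have hφ₀ : φ₀ ≠ 0 := by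
    intro h0
    apply hs₀
    have h1 := congrFun h0 (fun p => s₀ (box M N p))
    simp only [φ₀, extend_self hj] at h1
    exact h1
  -- interior terms
  let I : Finset (Site M) :=
    Finset.univ.filter (fun v : Site M => v.1.val + 2 * f < M ∧ v.2.val + 2 * f < M)
  have hint : ∀ v ∈ I, lt2 M M F h (v.1 + (f : ZMod M), v.2 + (f : ZMod M)) *ᵥ φ₀ =
      (eN : ℂ) • φ₀ := by
    intro v hv
    simp only [I, Finset.mem_filter, Finset.mem_univ, true_and] at hv
    have hπ := place2_inj hF hM hM (v.1 + (f : ZMod M), v.2 + (f : ZMod M))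
    have hN : 2 * f < N := by omega
    have hpos : ∀ p : F, box M N (place2 M M (v.1 + (f : ZMod M), v.2 + (f : ZMod M)) p) =
        place2 N N ((v.1.val : ZMod N) + (f : ZMod N), (v.2.val : ZMod N) + (f : ZMod N)) p := by
      intro p
      have hp := hF p p.2
      have e1 : v.1 + (f : ZMod M) + ((p : ℤ × ℤ).1 : ZMod M) =
          ((v.1.val + ((p : ℤ × ℤ).1 + f).toNat : ℕ) : ZMod M) := by
        push_cast
        rw [toNat_cast _ (by omega), ZMod.natCast_zmod_val]
        push_cast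
        ring
      have e2 : v.2 + (f : ZMod M) + ((p : ℤ × ℤ).2 : ZMod M) =
          ((v.2.val + ((p : ℤ × ℤ).2 + f).toNat : ℕ) : ZMod M) := by
        push_cast
        rw [toNat_cast _ (by omega), ZMod.natCast_zmod_val]
        push_cast
        ring
      simp only [box, place2]
      rw [e1, e2, ZMod.val_natCast_of_lt (by omega), ZMod.val_natCast_of_lt (by omega)]
      refine Prod.ext ?_ ?_
      · push_cast
        rw [toNat_cast _ (by omega)]
        push_cast
        ring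
      · push_cast
        rw [toNat_cast _ (by omega)]
        push_cast
        ring
    funext s
    unfold lt2
    rw [emb_mulVec hπ]
    obtain ⟨s', hs'⟩ : ∃ s', s' = Function.extend (box M N) s s₀ := ⟨_, rfl⟩
    have h1 := congrFun (hψ ((v.1.val : ZMod N) + (f : ZMod N),
      (v.2.val : ZMod N) + (f : ZMod N))) s'
    unfold lt2 at h1
    rw [emb_mulVec (place2_inj hF hN hN _)] at h1
    have h2 : ∀ q : F → Fin d, φ₀ (Function.extend
        (fun p : F => place2 M M (v.1 + (f : ZMod M), v.2 + (f : ZMod M)) p) q s) =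
        ψ (Function.extend (fun p : F => place2 N N ((v.1.val : ZMod N) + (f : ZMod N),
          (v.2.val : ZMod N) + (f : ZMod N)) p) q s') := by
      intro q
      simp only [φ₀]
      congr 1
      have h3 := extend_comp_comp hπ hj q s'
      have h4 : (fun p => s' (box M N p)) = s := by rw [hs', extend_comp_self hj]
      rw [h4] at h3
      rw [← extend_extend hj s, ← hs', h3]
      congr 1
      funext p
      exact hpos p
    have h5 : (fun p : F => s (place2 M M (v.1 + (f : ZMod M), v.2 + (f : ZMod M)) p)) =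
        fun p : F => s' (place2 N N ((v.1.val : ZMod N) + (f : ZMod N),
          (v.2.val : ZMod N) + (f : ZMod N)) p) := by
      funext p
      rw [← hpos p, hs', hj.extend_apply]
    simp_rw [h2]
    rw [h5, h1]
    simp only [Pi.smul_apply, φ₀, hs']
  -- a joint eigenvector
  let V : Submodule ℂ ((Site M → Fin d) → ℂ) :=
    { carrier := {φ | ∀ v ∈ I, lt2 M M F h (v.1 + (f : ZMod M), v.2 + (f : ZMod M)) *ᵥ φ =
        (eN : ℂ) • φ}
      add_mem' := fun {u w} hu hw v hv => by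
        rw [Matrix.mulVec_add, hu v hv, hw v hv, smul_add]
      zero_mem' := fun v _ => by rw [Matrix.mulVec_zero, smul_zero]
      smul_mem' := fun k w hw v hv => by rw [Matrix.mulVec_smul, hw v hv, smul_comm] }
  obtain ⟨φ, hφV, hφ0, χ, hχ⟩ := exists_joint V (fun v : Site M => lt2 M M F h v)
    (fun v => lt2_herm M M hh v) hc (fun w u hu v hv => by
      rw [Matrix.mulVec_mulVec, (hc _ w).eq, ← Matrix.mulVec_mulVec, hu v hv,
        Matrix.mulVec_smul]) (v := φ₀) hint hφ₀
  have hχr : ∀ v, χ v = ((χ v).re : ℂ) := fun v =>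
    (Complex.conj_eq_iff_re.1 (eig_real (lt2_herm M M hh v) hφ0 (hχ v))).symm
  have hlam : ∀ v, lt2 M M F h v *ᵥ φ = (((χ v).re : ℝ) : ℂ) • φ := by
    intro v
    rw [← hχr v]
    exact hχ v
  have h1 := hlow φ (fun v => (χ v).re) hφ0 hlam
  have hspec : ∀ v, (χ v).re ∈ spec h := fun v =>
    mem_spec (place2_inj hF hM hM v) hφ0 (hlam v)
  have heN : eN ∈ spec h := mem_spec (place2_inj hF (by omega) (by omega) 0) hψ0 (hψ 0)
  have hI : ∀ v ∈ I, (χ (v.1 + (f : ZMod M), v.2 + (f : ZMod M))).re = eN := by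
    intro v hv
    have h2 := hφV v hv
    rw [hlam] at h2
    have h3 : ((((χ (v.1 + (f : ZMod M), v.2 + (f : ZMod M))).re : ℝ) : ℂ) - (eN : ℂ)) • φ = 0 := by
      rw [sub_smul, h2, sub_self]
    rcases smul_eq_zero.1 h3 with h4 | h4
    · exact_mod_cast sub_eq_zero.1 h4
    · exact absurd h4 hφ0
  -- reindexing the sum
  have h2 : ∑ v : Site M, (χ v).re =
      ∑ v : Site M, (χ (v.1 + (f : ZMod M), v.2 + (f : ZMod M))).re := by
    rw [← Equiv.sum_comp (Equiv.addRight ((f : ZMod M), (f : ZMod M)))]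
    rfl
  have h3 : ∑ v : Site M, (χ (v.1 + (f : ZMod M), v.2 + (f : ZMod M))).re ≤
      ∑ v : Site M, (eN + if v ∈ I then 0 else 2 * Λ) := by
    refine Finset.sum_le_sum (fun v _ => ?_)
    by_cases hv : v ∈ I
    · rw [if_pos hv, hI v hv, add_zero]
    · rw [if_neg hv]
      have h4 := abs_le.1 (hΛ _ (hspec (v.1 + (f : ZMod M), v.2 + (f : ZMod M))))
      have h5 := abs_le.1 (hΛ _ heN)
      linarith [h4.2, h5.1]
  have hΛ0 : 0 ≤ Λ := le_trans (abs_nonneg _) (hΛ _ heN)
  have h4 : ∑ v : Site M, (eN + if v ∈ I then 0 else 2 * Λ) =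
      (M : ℝ) ^ 2 * eN + (Finset.univ.filter (fun v : Site M => v ∉ I)).card * (2 * Λ) := by
    rw [Finset.sum_add_distrib, Finset.sum_const, Finset.card_univ, Fintype.card_prod, ZMod.card,
      nsmul_eq_mul]
    congr 1
    · push_cast; ring
    · have h5 : ∀ v : Site M, (if v ∈ I then (0 : ℝ) else 2 * Λ) =
          if v ∉ I then 2 * Λ else 0 := by
        intro v
        by_cases hv : v ∈ I
        · rw [if_pos hv, if_neg (not_not.2 hv)]
        · rw [if_neg hv, if_pos hv]
      simp_rw [h5]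
      rw [← Finset.sum_filter, Finset.sum_const, nsmul_eq_mul]
  -- counting the boundary
  have hcount : (Finset.univ.filter (fun v : Site M => v ∉ I)).card ≤ 4 * f * M := by
    have hA : (Finset.univ.filter (fun x : ZMod M => M - 2 * f ≤ x.val)).card ≤ 2 * f := by
      have h6 : (Finset.univ.filter (fun x : ZMod M => M - 2 * f ≤ x.val)).card ≤
          (Finset.Ico (M - 2 * f) M).card := by
        refine Finset.card_le_card_of_injOn (fun x => x.val) ?_ ?_
        · intro x hx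
          simp only [Finset.coe_filter, Finset.mem_univ, true_and, Set.mem_ofPred_eq] at hx
          simp only [Finset.coe_Ico, Set.mem_Ico]
          exact ⟨hx, ZMod.val_lt x⟩
        · intro x _ y _ hxy
          exact ZMod.val_injective M hxy
      rw [Nat.card_Ico] at h6
      omega
    have hsub : Finset.univ.filter (fun v : Site M => v ∉ I) ⊆
        (Finset.univ.filter (fun x : ZMod M => M - 2 * f ≤ x.val)) ×ˢ Finset.univ ∪
        Finset.univ ×ˢ (Finset.univ.filter (fun x : ZMod M => M - 2 * f ≤ x.val)) := by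
      intro v hv
      simp only [I, Finset.mem_filter, Finset.mem_univ, true_and, not_and_or, not_lt] at hv
      simp only [Finset.mem_union, Finset.mem_product, Finset.mem_filter, Finset.mem_univ,
        true_and, and_true]
      omega
    refine (Finset.card_le_card hsub).trans ((Finset.card_union_le _ _).trans ?_)
    rw [Finset.card_product, Finset.card_product, Finset.card_univ, ZMod.card]
    nlinarith
  have hcount' : ((Finset.univ.filter (fun v : Site M => v ∉ I)).card : ℝ) ≤ 4 * f * M := by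
    exact_mod_cast hcount
  have h7 : (M : ℝ) ^ 2 * eM ≤ (M : ℝ) ^ 2 * eN + 4 * f * M * (2 * Λ) := by
    calc (M : ℝ) ^ 2 * eM ≤ _ := h1
      _ = _ := h2
      _ ≤ _ := h3
      _ = _ := h4
      _ ≤ _ := by
        have : ((Finset.univ.filter (fun v : Site M => v ∉ I)).card : ℝ) * (2 * Λ) ≤
            4 * f * M * (2 * Λ) := mul_le_mul_of_nonneg_right hcount' (by linarith)
        linarith
  have hMpos : (0 : ℝ) < M := by exact_mod_cast NeZero.pos M
  have h8 : (M : ℝ) * ((M : ℝ) * (eM - eN)) ≤ M * (8 * f * Λ) := by nlinarith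
  exact le_of_mul_le_mul_left h8 hMpos

/-- A sequence with values in a finite set that cannot decrease much is eventually constant. -/
theorem eventually_const {S : Set ℝ} (hS : S.Finite) (e : ℕ → ℝ) (n₀ : ℕ)
    (hmem : ∀ n ≥ n₀, e n ∈ S) {C : ℝ}
    (hC : ∀ m n, n₀ ≤ m → m ≤ n → ((m : ℝ) + 1) * (e m - e n) ≤ C) :
    ∃ n₁ ≥ n₀, ∀ n ≥ n₁, e n = e n₁ := by
  -- smallest gap
  obtain ⟨δ, hδ, hgap⟩ : ∃ δ : ℝ, 0 < δ ∧ ∀ x ∈ S, ∀ y ∈ S, y < x → δ ≤ x - y := by
    have hfin : (S ×ˢ S).Finite := hS.prod hS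
    obtain ⟨T, hT⟩ : ∃ T : Finset (ℝ × ℝ), T = hfin.toFinset.filter (fun p => p.2 < p.1) := ⟨_, rfl⟩
    by_cases hne : T.Nonempty
    · obtain ⟨p, hp, hmin⟩ := Finset.exists_min_image T (fun p => p.1 - p.2) hne
      rw [hT, Finset.mem_filter] at hp
      refine ⟨p.1 - p.2, sub_pos.2 hp.2, fun x hx y hy hxy => ?_⟩
      refine hmin (x, y) ?_
      rw [hT, Finset.mem_filter]
      exact ⟨hfin.mem_toFinset.2 ⟨hx, hy⟩, hxy⟩
    · refine ⟨1, one_pos, fun x hx y hy hxy => ?_⟩
      exfalso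
      apply hne
      refine ⟨(x, y), ?_⟩
      rw [hT, Finset.mem_filter]
      exact ⟨hfin.mem_toFinset.2 ⟨hx, hy⟩, hxy⟩
  obtain ⟨m₀, hm₀⟩ := exists_nat_gt (C / δ)
  obtain ⟨m₁, hm₁⟩ : ∃ m₁, m₁ = max n₀ m₀ := ⟨_, rfl⟩
  have hmono : ∀ m n, m₁ ≤ m → m ≤ n → e m ≤ e n := by
    intro m n hm hn
    by_contra hcon
    push Not at hcon
    have h1 := hgap _ (hmem m (by omega)) _ (hmem n (by omega)) hcon
    have h2 := hC m n (by omega) hn
    have h3 : (m₀ : ℝ) ≤ m := by exact_mod_cast (by omega : m₀ ≤ m)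
    rw [div_lt_iff₀ hδ] at hm₀
    nlinarith
  -- a maximal value
  have himg : ((fun n => e n) '' {n | m₁ ≤ n}).Finite :=
    hS.subset (by rintro _ ⟨n, hn, rfl⟩; exact hmem n (by simp only [Set.mem_ofPred_eq] at hn; omega))
  obtain ⟨_, ⟨n₁, hn₁, rfl⟩, hmax⟩ := Set.exists_max_image _ (fun x : ℝ => x) himg
    ⟨e m₁, m₁, le_refl m₁, rfl⟩
  simp only [Set.mem_ofPred_eq] at hn₁
  refine ⟨n₁, by omega, fun n hn => ?_⟩
  exact le_antisymm (hmax _ ⟨n, by simp only [Set.mem_ofPred_eq]; omega, rfl⟩) (hmono n₁ n hn₁ hn)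

end Pool.Agent.Hlead.Comm
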