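import Pool.Agent.Hlead.Comm.Casimir

/-!
The Casimir operator of two copies of a set of sites, its square on eigenvectors of the centre, and
expectation values.
-/

set_option autoImplicit false
set_option linter.unusedSectionVars false

open scoped BigOperators Matrix ComplexConjugate ComplexOrder

namespace Pool.Agent.Hlead.Comm

section centre

variable {n : Type} [Fintype n] [DecidableEq n] {A : Submodule ℂ (Matrix n n ℂ)} {N : ℕ}
  {x : Fin N → Matrix n n ℂ}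

/-- The central elements of `A`. -/
def IsCentral (A : Submodule ℂ (Matrix n n ℂ)) (z : Matrix n n ℂ) : Prop :=
  z ∈ A ∧ ∀ y ∈ A, z * y = y * z

/-- Coefficients of the square of the Casimir element. -/
noncomputable def kel (x : Fin N → Matrix n n ℂ) (l : Fin N) : Matrix n n ℂ :=
  ∑ i, ∑ j, ((x l)ᴴ * ((x i)ᴴ * (x j)ᴴ)).trace • (x i * x j)

theorem kel_mem (hx : IsFrame A x) (hmul : ∀ a ∈ A, ∀ b ∈ A, a * b ∈ A) (l : Fin N) :
    kel x l ∈ A :=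
  Submodule.sum_mem _ fun i _ => Submodule.sum_mem _ fun j _ =>
    Submodule.smul_mem _ _ (hmul _ (hx.1 i) _ (hx.1 j))

theorem kel_central (hx : IsFrame A x) (hmul : ∀ a ∈ A, ∀ b ∈ A, a * b ∈ A)
    (hstar : ∀ a ∈ A, aᴴ ∈ A) (l : Fin N) : IsCentral A (kel x l) := by
  refine ⟨kel_mem hx hmul l, fun y hy => ?_⟩
  have h1 : y * kel x l = ∑ i, ∑ j, ((x l)ᴴ * (((x i)ᴴ * y) * (x j)ᴴ)).trace • (x i * x j) := by
    have h2 := casimir_left hx hmul hstar (W := Matrix n n ℂ)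
      (LinearMap.mk₂ ℂ (fun M K => ∑ j, ((x l)ᴴ * (K * (x j)ᴴ)).trace • (M * x j))
        (fun M M' K => by simp [Matrix.add_mul, smul_add, Finset.sum_add_distrib])
        (fun c M K => by simp [Finset.smul_sum, smul_comm c])
        (fun M K K' => by
          simp [Matrix.add_mul, Matrix.mul_add, add_smul, Finset.sum_add_distrib])
        (fun c M K => by simp [Finset.smul_sum, mul_smul])) hy
    simp only [LinearMap.mk₂_apply] at h2
    rw [← h2, kel, Finset.mul_sum]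
    refine Finset.sum_congr rfl (fun i _ => ?_)
    rw [Finset.mul_sum]
    refine Finset.sum_congr rfl (fun j _ => ?_)
    rw [Matrix.mul_smul, Matrix.mul_assoc]
  have h3 : kel x l * y = ∑ i, ∑ j, ((x l)ᴴ * ((x i)ᴴ * (y * (x j)ᴴ))).trace • (x i * x j) := by
    rw [kel, Finset.sum_mul]
    refine Finset.sum_congr rfl (fun i _ => ?_)
    have h2 := casimir_right hx hmul hstar (W := Matrix n n ℂ)
      (LinearMap.mk₂ ℂ (fun M K => ((x l)ᴴ * ((x i)ᴴ * K)).trace • (x i * M))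
        (fun M M' K => by simp [Matrix.mul_add, smul_add])
        (fun c M K => by simp [smul_comm c])
        (fun M K K' => by simp [Matrix.mul_add, add_smul])
        (fun c M K => by simp [mul_smul])) hy
    simp only [LinearMap.mk₂_apply] at h2
    rw [← h2, Finset.sum_mul]
    refine Finset.sum_congr rfl (fun j _ => ?_)
    rw [Matrix.smul_mul, Matrix.mul_assoc]
  rw [h1, h3]
  simp only [Matrix.mul_assoc]

/-- The second-leg element. -/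
noncomputable def kap (x : Fin N → Matrix n n ℂ) (χ : Matrix n n ℂ →ₗ[ℂ] ℂ) : Matrix n n ℂ :=
  ∑ l, χ (kel x l) • x l

theorem kap_eq (hx : IsFrame A x) (hmul : ∀ a ∈ A, ∀ b ∈ A, a * b ∈ A)
    (hstar : ∀ a ∈ A, aᴴ ∈ A) (χ : Matrix n n ℂ →ₗ[ℂ] ℂ) :
    kap x χ = ∑ i, ∑ j, χ (x i * x j) • ((x i)ᴴ * (x j)ᴴ) := by
  have h1 : ∀ i j, (x i)ᴴ * (x j)ᴴ = ∑ l, ((x l)ᴴ * ((x i)ᴴ * (x j)ᴴ)).trace • x l :=
    fun i j => hx.2 _ (hmul _ (hstar _ (hx.1 i)) _ (hstar _ (hx.1 j)))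
  calc kap x χ = ∑ l, ∑ i, ∑ j, (((x l)ᴴ * ((x i)ᴴ * (x j)ᴴ)).trace * χ (x i * x j)) • x l := by
        unfold kap kel
        refine Finset.sum_congr rfl (fun l _ => ?_)
        simp only [map_sum, map_smul, smul_eq_mul, Finset.sum_smul]
    _ = ∑ i, ∑ j, ∑ l, (((x l)ᴴ * ((x i)ᴴ * (x j)ᴴ)).trace * χ (x i * x j)) • x l := by
        rw [Finset.sum_comm]
        refine Finset.sum_congr rfl (fun i _ => ?_)
        rw [Finset.sum_comm]
    _ = ∑ i, ∑ j, χ (x i * x j) • ((x i)ᴴ * (x j)ᴴ) := by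
        refine Finset.sum_congr rfl (fun i _ => Finset.sum_congr rfl (fun j _ => ?_))
        conv_rhs => rw [h1 i j]
        rw [Finset.smul_sum]
        refine Finset.sum_congr rfl (fun l _ => ?_)
        rw [smul_smul, mul_comm]

theorem kap_central (hx : IsFrame A x) (hmul : ∀ a ∈ A, ∀ b ∈ A, a * b ∈ A)
    (hstar : ∀ a ∈ A, aᴴ ∈ A) (χ : Matrix n n ℂ →ₗ[ℂ] ℂ) : IsCentral A (kap x χ) := by
  refine ⟨Submodule.sum_mem _ fun l _ => Submodule.smul_mem _ _ (hx.1 l), fun y hy => ?_⟩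
  rw [kap_eq hx hmul hstar χ]
  have h1 : y * ∑ i, ∑ j, χ (x i * x j) • ((x i)ᴴ * (x j)ᴴ) =
      ∑ i, ∑ j, χ (x i * y * x j) • ((x i)ᴴ * (x j)ᴴ) := by
    have h2 := casimir_right hx hmul hstar (W := Matrix n n ℂ)
      (LinearMap.mk₂ ℂ (fun M K => ∑ j, χ (M * x j) • (K * (x j)ᴴ))
        (fun M M' K => by simp [Matrix.add_mul, add_smul, Finset.sum_add_distrib])
        (fun c M K => by simp [Finset.smul_sum, mul_smul])
        (fun M K K' => by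
          simp [Matrix.add_mul, smul_add, Finset.sum_add_distrib])
        (fun c M K => by simp [Finset.smul_sum, smul_comm c])) hy
    simp only [LinearMap.mk₂_apply] at h2
    rw [h2, Finset.mul_sum]
    refine Finset.sum_congr rfl (fun i _ => ?_)
    rw [Finset.mul_sum]
    refine Finset.sum_congr rfl (fun j _ => ?_)
    rw [Matrix.mul_smul, Matrix.mul_assoc]
  have h3 : (∑ i, ∑ j, χ (x i * x j) • ((x i)ᴴ * (x j)ᴴ)) * y =
      ∑ i, ∑ j, χ (x i * (y * x j)) • ((x i)ᴴ * (x j)ᴴ) := by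
    rw [Finset.sum_mul]
    refine Finset.sum_congr rfl (fun i _ => ?_)
    have h2 := casimir_left hx hmul hstar (W := Matrix n n ℂ)
      (LinearMap.mk₂ ℂ (fun M K => χ (x i * M) • ((x i)ᴴ * K))
        (fun M M' K => by simp [Matrix.mul_add, add_smul])
        (fun c M K => by simp [mul_smul])
        (fun M K K' => by simp [Matrix.mul_add, smul_add])
        (fun c M K => by simp [smul_comm c])) hy
    simp only [LinearMap.mk₂_apply] at h2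
    rw [h2, Finset.sum_mul]
    refine Finset.sum_congr rfl (fun j _ => ?_)
    rw [Matrix.smul_mul, Matrix.mul_assoc]
  rw [h1, h3]
  simp only [Matrix.mul_assoc]

end centre

section cas

variable {S C : Type} [Fintype S] [DecidableEq S] [Fintype C] [DecidableEq C] {d : ℕ} {N : ℕ}

/-- The Casimir operator on two copies of the sites `C`. -/
noncomputable def cas (j₁ j₂ : C → S) (x : Fin N → Matrix (C → Fin d) (C → Fin d) ℂ) :
    Matrix (S → Fin d) (S → Fin d) ℂ :=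
  ∑ i, emb j₁ (x i) * emb j₂ (x i)ᴴ

/-- The bilinear map `(M, K) ↦ M₁ K₂`. -/
noncomputable def bil (j₁ j₂ : C → S) :
    Matrix (C → Fin d) (C → Fin d) ℂ →ₗ[ℂ] Matrix (C → Fin d) (C → Fin d) ℂ →ₗ[ℂ]
      Matrix (S → Fin d) (S → Fin d) ℂ :=
  LinearMap.mk₂ ℂ (fun M K => emb j₁ M * emb j₂ K)
    (fun M M' K => by rw [emb_add, add_mul])
    (fun c M K => by rw [emb_smul, Matrix.smul_mul])
    (fun M K K' => by rw [emb_add, mul_add])
    (fun c M K => by rw [emb_smul, Matrix.mul_smul])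

theorem bil_apply (j₁ j₂ : C → S) (M K : Matrix (C → Fin d) (C → Fin d) ℂ) :
    bil j₁ j₂ M K = emb j₁ M * emb j₂ K := rfl

variable {j₁ j₂ : C → S} {A : Submodule ℂ (Matrix (C → Fin d) (C → Fin d) ℂ)}
  {x : Fin N → Matrix (C → Fin d) (C → Fin d) ℂ}

theorem cas_left (h₁ : Function.Injective j₁) (h₂ : Function.Injective j₂)
    (hx : IsFrame A x) (hmul : ∀ a ∈ A, ∀ b ∈ A, a * b ∈ A)
    (hstar : ∀ a ∈ A, aᴴ ∈ A) {y : Matrix (C → Fin d) (C → Fin d) ℂ} (hy : y ∈ A) :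
    emb j₁ y * cas j₁ j₂ x = cas j₁ j₂ x * emb j₂ y := by
  have h3 := casimir_left hx hmul hstar (bil j₁ j₂) hy
  simp only [bil_apply, emb_mul h₁, emb_mul h₂] at h3
  unfold cas
  rw [Finset.mul_sum, Finset.sum_mul]
  simpa only [mul_assoc] using h3

theorem cas_right (h₁ : Function.Injective j₁) (h₂ : Function.Injective j₂)
    (hd : ∀ p q, j₁ p ≠ j₂ q)
    (hx : IsFrame A x) (hmul : ∀ a ∈ A, ∀ b ∈ A, a * b ∈ A)
    (hstar : ∀ a ∈ A, aᴴ ∈ A) {y : Matrix (C → Fin d) (C → Fin d) ℂ} (hy : y ∈ A) :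
    emb j₂ y * cas j₁ j₂ x = cas j₁ j₂ x * emb j₁ y := by
  have h3 := casimir_right hx hmul hstar (bil j₁ j₂) hy
  simp only [bil_apply, emb_mul h₁, emb_mul h₂] at h3
  unfold cas
  rw [Finset.mul_sum, Finset.sum_mul]
  have hc : ∀ M K : Matrix (C → Fin d) (C → Fin d) ℂ, emb j₁ M * emb j₂ K = emb j₂ K * emb j₁ M :=
    fun M K => emb_commute h₁ h₂ hd M K
  calc ∑ i, emb j₂ y * (emb j₁ (x i) * emb j₂ (x i)ᴴ) =
        ∑ i, emb j₁ (x i) * (emb j₂ y * emb j₂ (x i)ᴴ) := by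
        refine Finset.sum_congr rfl (fun i _ => ?_)
        rw [← mul_assoc, ← hc, mul_assoc]
    _ = ∑ i, emb j₁ (x i) * emb j₁ y * emb j₂ (x i)ᴴ := h3.symm
    _ = ∑ i, emb j₁ (x i) * emb j₂ (x i)ᴴ * emb j₁ y := by
        refine Finset.sum_congr rfl (fun i _ => ?_)
        rw [mul_assoc, mul_assoc, hc]

theorem cas_conj (h₁ : Function.Injective j₁) (h₂ : Function.Injective j₂)
    (hd : ∀ p q, j₁ p ≠ j₂ q)
    (hx : IsFrame A x) (hstar : ∀ a ∈ A, aᴴ ∈ A) :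
    (cas j₁ j₂ x)ᴴ = cas j₁ j₂ x := by
  unfold cas
  rw [Matrix.conjTranspose_sum]
  have h3 := casimir_star hx hstar (bil j₁ j₂)
  simp only [bil_apply] at h3
  rw [← h3]
  refine Finset.sum_congr rfl (fun i _ => ?_)
  rw [Matrix.conjTranspose_mul, emb_conjTranspose, emb_conjTranspose,
    Matrix.conjTranspose_conjTranspose]
  exact (emb_commute h₁ h₂ hd _ _).symm

theorem cas_commute (hx : IsFrame A x) (hstar : ∀ a ∈ A, aᴴ ∈ A)
    {T : Matrix (S → Fin d) (S → Fin d) ℂ} (hT₁ : ∀ y ∈ A, Commute T (emb j₁ y))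
    (hT₂ : ∀ y ∈ A, Commute T (emb j₂ y)) : Commute T (cas j₁ j₂ x) := by
  unfold cas
  refine Commute.sum_right _ _ _ (fun i _ => ?_)
  exact (hT₁ _ (hx.1 i)).mul_right (hT₂ _ (hstar _ (hx.1 i)))

theorem inner_cas (h₁ : Function.Injective j₁) (h₂ : Function.Injective j₂)
    (hd : ∀ p q, j₁ p ≠ j₂ q)
    (hx : IsFrame A x) (hstar : ∀ a ∈ A, aᴴ ∈ A)
    {O : Matrix (S → Fin d) (S → Fin d) ℂ} (hO : Commute O (cas j₁ j₂ x))
    (v : (S → Fin d) → ℂ) :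
    star (cas j₁ j₂ x *ᵥ v) ⬝ᵥ (O *ᵥ (cas j₁ j₂ x *ᵥ v)) =
      star v ⬝ᵥ (O *ᵥ (cas j₁ j₂ x *ᵥ (cas j₁ j₂ x *ᵥ v))) := by
  rw [Matrix.star_mulVec, cas_conj h₁ h₂ hd hx hstar, ← Matrix.dotProduct_mulVec]
  congr 1
  rw [Matrix.mulVec_mulVec, Matrix.mulVec_mulVec, Matrix.mulVec_mulVec, Matrix.mulVec_mulVec]
  congr 1
  rw [← hO.eq]

end cas

section eig

variable {S S₁ S₂ C : Type} [Fintype S] [DecidableEq S] [Fintype S₁] [DecidableEq S₁]
  [Fintype S₂] [DecidableEq S₂] [Fintype C] [DecidableEq C] {d : ℕ} {N : ℕ}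
  {A : Submodule ℂ (Matrix (C → Fin d) (C → Fin d) ℂ)}
  {x : Fin N → Matrix (C → Fin d) (C → Fin d) ℂ}

/-- `Φ` is a joint eigenvector, with eigenvalues given by `χ`, of the centre of `A` placed by `ι`. -/
def Eig (A : Submodule ℂ (Matrix (C → Fin d) (C → Fin d) ℂ)) (ι : C → S)
    (χ : Matrix (C → Fin d) (C → Fin d) ℂ →ₗ[ℂ] ℂ) (Φ : (S → Fin d) → ℂ) : Prop :=
  ∀ z, IsCentral A z → emb ι z *ᵥ Φ = χ z • Φ

theorem cas_sq_tens {i₁ : S₁ → S} {i₂ : S₂ → S} (hi₁ : Function.Injective i₁)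
    (hi₂ : Function.Injective i₂) (hd : ∀ p q, i₁ p ≠ i₂ q) {ι₁ : C → S₁} {ι₂ : C → S₂}
    (hι₁ : Function.Injective ι₁) (hι₂ : Function.Injective ι₂)
    (hx : IsFrame A x) (hmul : ∀ a ∈ A, ∀ b ∈ A, a * b ∈ A) (hstar : ∀ a ∈ A, aᴴ ∈ A)
    {χ : Matrix (C → Fin d) (C → Fin d) ℂ →ₗ[ℂ] ℂ} {Θ : (S₁ → Fin d) → ℂ} {Φ : (S₂ → Fin d) → ℂ}
    (hΘ : Eig A ι₁ χ Θ) (hΦ : Eig A ι₂ χ Φ) :
    cas (fun p => i₁ (ι₁ p)) (fun p => i₂ (ι₂ p)) x *ᵥ
      (cas (fun p => i₁ (ι₁ p)) (fun p => i₂ (ι₂ p)) x *ᵥ tens i₁ i₂ Θ Φ) =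
      χ (kap x χ) • tens i₁ i₂ Θ Φ := by
  have hc : ∀ (M K : Matrix (C → Fin d) (C → Fin d) ℂ) (Θ' : (S₁ → Fin d) → ℂ)
      (Φ' : (S₂ → Fin d) → ℂ),
      (emb (fun p => i₁ (ι₁ p)) M * emb (fun p => i₂ (ι₂ p)) K) *ᵥ tens i₁ i₂ Θ' Φ' =
        tens i₁ i₂ (emb ι₁ M *ᵥ Θ') (emb ι₂ K *ᵥ Φ') := by
    intro M K Θ' Φ'
    rw [← emb_comp hι₁ hi₁, ← emb_comp hι₂ hi₂, ← Matrix.mulVec_mulVec,
      emb_mulVec_tens_right hi₂ hd, emb_mulVec_tens_left hi₁ hd]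
  have hcas : ∀ (Θ' : (S₁ → Fin d) → ℂ) (Φ' : (S₂ → Fin d) → ℂ),
      cas (fun p => i₁ (ι₁ p)) (fun p => i₂ (ι₂ p)) x *ᵥ tens i₁ i₂ Θ' Φ' =
        ∑ i, tens i₁ i₂ (emb ι₁ (x i) *ᵥ Θ') (emb ι₂ (x i)ᴴ *ᵥ Φ') := by
    intro Θ' Φ'
    unfold cas
    rw [Matrix.sum_mulVec]
    exact Finset.sum_congr rfl (fun i _ => hc _ _ _ _)
  rw [hcas, Matrix.mulVec_sum]
  have h1 : ∀ i j, (x i)ᴴ * (x j)ᴴ = ∑ l, ((x l)ᴴ * ((x i)ᴴ * (x j)ᴴ)).trace • x l :=
    fun i j => hx.2 _ (hmul _ (hstar _ (hx.1 i)) _ (hstar _ (hx.1 j)))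
  calc ∑ j, cas (fun p => i₁ (ι₁ p)) (fun p => i₂ (ι₂ p)) x *ᵥ
        tens i₁ i₂ (emb ι₁ (x j) *ᵥ Θ) (emb ι₂ (x j)ᴴ *ᵥ Φ)
      = ∑ j, ∑ i, tens i₁ i₂ (emb ι₁ (x i * x j) *ᵥ Θ) (emb ι₂ ((x i)ᴴ * (x j)ᴴ) *ᵥ Φ) := by
        refine Finset.sum_congr rfl (fun j _ => ?_)
        rw [hcas]
        refine Finset.sum_congr rfl (fun i _ => ?_)
        rw [emb_mul hι₁, emb_mul hι₂, Matrix.mulVec_mulVec, Matrix.mulVec_mulVec]
    _ = ∑ j, ∑ i, ∑ l, ((x l)ᴴ * ((x i)ᴴ * (x j)ᴴ)).trace •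
          tens i₁ i₂ (emb ι₁ (x i * x j) *ᵥ Θ) (emb ι₂ (x l) *ᵥ Φ) := by
        refine Finset.sum_congr rfl (fun j _ => Finset.sum_congr rfl (fun i _ => ?_))
        conv_lhs => rw [h1 i j]
        rw [emb_sum, Matrix.sum_mulVec, tens_sum_right]
        refine Finset.sum_congr rfl (fun l _ => ?_)
        rw [emb_smul, Matrix.smul_mulVec, tens_smul_right]
    _ = ∑ l, tens i₁ i₂ (emb ι₁ (kel x l) *ᵥ Θ) (emb ι₂ (x l) *ᵥ Φ) := by
        have h2 : ∀ l, tens i₁ i₂ (emb ι₁ (kel x l) *ᵥ Θ) (emb ι₂ (x l) *ᵥ Φ) =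
            ∑ i, ∑ j, ((x l)ᴴ * ((x i)ᴴ * (x j)ᴴ)).trace •
              tens i₁ i₂ (emb ι₁ (x i * x j) *ᵥ Θ) (emb ι₂ (x l) *ᵥ Φ) := by
          intro l
          unfold kel
          rw [emb_sum, Matrix.sum_mulVec, tens_sum_left]
          refine Finset.sum_congr rfl (fun i _ => ?_)
          rw [emb_sum, Matrix.sum_mulVec, tens_sum_left]
          refine Finset.sum_congr rfl (fun j _ => ?_)
          rw [emb_smul, Matrix.smul_mulVec, tens_smul_left]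
        simp_rw [h2]
        rw [Finset.sum_comm]
        have h3 : ∀ i, ∑ j, ∑ l, ((x l)ᴴ * ((x i)ᴴ * (x j)ᴴ)).trace •
            tens i₁ i₂ (emb ι₁ (x i * x j) *ᵥ Θ) (emb ι₂ (x l) *ᵥ Φ) =
            ∑ l, ∑ j, ((x l)ᴴ * ((x i)ᴴ * (x j)ᴴ)).trace •
            tens i₁ i₂ (emb ι₁ (x i * x j) *ᵥ Θ) (emb ι₂ (x l) *ᵥ Φ) := by
          intro i
          rw [Finset.sum_comm]
        simp_rw [h3]
        rw [Finset.sum_comm]
    _ = ∑ l, χ (kel x l) • tens i₁ i₂ Θ (emb ι₂ (x l) *ᵥ Φ) := by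
        refine Finset.sum_congr rfl (fun l _ => ?_)
        rw [hΘ _ (kel_central hx hmul hstar l), tens_smul_left]
    _ = tens i₁ i₂ Θ (emb ι₂ (kap x χ) *ᵥ Φ) := by
        unfold kap
        rw [emb_sum, Matrix.sum_mulVec, tens_sum_right]
        refine Finset.sum_congr rfl (fun l _ => ?_)
        rw [emb_smul, Matrix.smul_mulVec, tens_smul_right]
    _ = χ (kap x χ) • tens i₁ i₂ Θ Φ := by
        rw [hΦ _ (kap_central hx hmul hstar χ), tens_smul_right]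

/-- Configurations on two complementary sets of sites can be joined. -/
theorem exists_join {i₁ : S₁ → S} {i₂ : S₂ → S} (hi₁ : Function.Injective i₁)
    (hi₂ : Function.Injective i₂) (hd : ∀ p q, i₁ p ≠ i₂ q)
    (hcov : ∀ s, (∃ p, i₁ p = s) ∨ ∃ q, i₂ q = s) (t : S₁ → Fin d) (u : S₂ → Fin d) :
    ∃ s : S → Fin d, (fun p => s (i₁ p)) = t ∧ (fun p => s (i₂ p)) = u := by
  classical
  refine ⟨fun x => if h : ∃ p, i₁ p = x then t h.choose else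
    u ((hcov x).resolve_left h).choose, ?_, ?_⟩
  · funext p
    have hp : ∃ p', i₁ p' = i₁ p := ⟨p, rfl⟩
    simp only [dif_pos hp]
    rw [hi₁ hp.choose_spec]
  · funext q
    have hq : ¬ ∃ p', i₁ p' = i₂ q := by
      rintro ⟨p, hp⟩
      exact hd p q hp
    simp only [dif_neg hq]
    rw [hi₂ ((hcov (i₂ q)).resolve_left hq).choose_spec]

theorem cas_tens_ne_zero {T : Type} [Fintype T] [DecidableEq T] {i₁ i₂ : T → S}
    (hi₁ : Function.Injective i₁)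
    (hi₂ : Function.Injective i₂) (hd : ∀ p q, i₁ p ≠ i₂ q)
    (hcov : ∀ s, (∃ p, i₁ p = s) ∨ ∃ q, i₂ q = s) {ι : C → T}
    (hι : Function.Injective ι) (hx : IsFrame A x) (hone : 1 ∈ A) {Φ : (T → Fin d) → ℂ}
    (h : cas (fun p => i₁ (ι p)) (fun p => i₂ (ι p)) x *ᵥ tens i₁ i₂ Φ Φ = 0) : Φ = 0 := by
  funext s
  obtain ⟨u, hu⟩ : ∃ u : (C → Fin d) → ℂ, u = fun q => Φ (Function.extend ι q s) := ⟨_, rfl⟩
  have hemb : ∀ (M : Matrix (C → Fin d) (C → Fin d) ℂ) (q : C → Fin d),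
      (emb ι M *ᵥ Φ) (Function.extend ι q s) = (M *ᵥ u) q := by
    intro M q
    rw [emb_mulVec hι, extend_comp_self hι, hu]
    simp only [extend_extend hι, Matrix.mulVec, dotProduct]
  have h1 : ∀ q₁ q₂ : C → Fin d, ∑ i, (x i *ᵥ u) q₁ * ((x i)ᴴ *ᵥ u) q₂ = 0 := by
    intro q₁ q₂
    obtain ⟨s', hs₁, hs₂⟩ := exists_join hi₁ hi₂ hd hcov (Function.extend ι q₁ s)
      (Function.extend ι q₂ s)
    have h2 := congrFun h s'
    rw [cas, Matrix.sum_mulVec, Finset.sum_apply] at h2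
    rw [Pi.zero_apply] at h2
    rw [← h2]
    refine Finset.sum_congr rfl (fun i _ => ?_)
    rw [← emb_comp hι hi₁, ← emb_comp hι hi₂, ← Matrix.mulVec_mulVec,
      emb_mulVec_tens_right hi₂ hd, emb_mulVec_tens_left hi₁ hd]
    simp only [tens, hs₁, hs₂]
    rw [hemb, hemb]
  have h3 : ∑ i, (star u ⬝ᵥ (x i *ᵥ u)) * (star u ⬝ᵥ ((x i)ᴴ *ᵥ u)) = 0 := by
    have h4 : ∀ i, (star u ⬝ᵥ (x i *ᵥ u)) * (star u ⬝ᵥ ((x i)ᴴ *ᵥ u)) =
        ∑ q₁, ∑ q₂, star u q₁ * star u q₂ * ((x i *ᵥ u) q₁ * ((x i)ᴴ *ᵥ u) q₂) := by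
      intro i
      rw [dotProduct, dotProduct, Finset.sum_mul_sum]
      refine Finset.sum_congr rfl (fun q₁ _ => Finset.sum_congr rfl (fun q₂ _ => ?_))
      ring
    simp_rw [h4]
    rw [Finset.sum_comm]
    refine Finset.sum_eq_zero (fun q₁ _ => ?_)
    rw [Finset.sum_comm]
    refine Finset.sum_eq_zero (fun q₂ _ => ?_)
    rw [← Finset.mul_sum, h1, mul_zero]
  have h5 : ∀ i, star u ⬝ᵥ (x i *ᵥ u) = 0 := by
    have h6 : ∀ i, (star u ⬝ᵥ (x i *ᵥ u)) * (star u ⬝ᵥ ((x i)ᴴ *ᵥ u)) =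
        ((‖star u ⬝ᵥ (x i *ᵥ u)‖ ^ 2 : ℝ) : ℂ) := by
      intro i
      have h7 : star u ⬝ᵥ ((x i)ᴴ *ᵥ u) = star (star u ⬝ᵥ (x i *ᵥ u)) := by
        rw [Matrix.star_dotProduct, Matrix.star_mulVec, Matrix.conjTranspose_conjTranspose,
          ← Matrix.dotProduct_mulVec]
      rw [h7]
      have h8 := Complex.mul_conj (star u ⬝ᵥ (x i *ᵥ u))
      rw [Complex.normSq_eq_norm_sq] at h8
      exact h8
    simp_rw [h6] at h3
    rw [← Complex.ofReal_sum, Complex.ofReal_eq_zero] at h3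
    have h9 := (Finset.sum_eq_zero_iff_of_nonneg (fun i _ => by positivity)).1 h3
    intro i
    have h10 := h9 i (Finset.mem_univ i)
    have h11 : ‖star u ⬝ᵥ (x i *ᵥ u)‖ = 0 := by
      exact pow_eq_zero_iff (two_ne_zero) |>.1 h10
    exact norm_eq_zero.1 h11
  have h12 : star u ⬝ᵥ u = 0 := by
    have h13 := hx.2 1 hone
    calc star u ⬝ᵥ u = star u ⬝ᵥ ((1 : Matrix (C → Fin d) (C → Fin d) ℂ) *ᵥ u) := by
          rw [Matrix.one_mulVec]
      _ = star u ⬝ᵥ ((∑ i, ((x i)ᴴ * 1).trace • x i) *ᵥ u) := by rw [← h13]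
      _ = 0 := by
          rw [Matrix.sum_mulVec, dotProduct_sum]
          refine Finset.sum_eq_zero (fun i _ => ?_)
          rw [Matrix.smul_mulVec, dotProduct_smul, h5, smul_zero]
  have h14 : u = 0 := dotProduct_star_self_eq_zero.1 h12
  have h15 : Φ s = u (fun p => s (ι p)) := by
    rw [hu]
    simp only [extend_self hι]
  rw [h15, h14]
  rfl

end eig

end Pool.Agent.Hlead.Comm
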