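import Pool.Agent.Hlead.Comm.Cover2

/-!
Joint eigenvectors of commuting Hermitian matrices inside an invariant subspace.
-/

set_option autoImplicit false
set_option linter.unusedSectionVars false

open scoped BigOperators Matrix ComplexOrder

namespace Pool.Agent.Hlead.Comm

/-- Induction over joint eigenvectors of a commuting family of Hermitian matrices in an invariant
subspace. -/
theorem joint_ind {n J : Type} [Fintype n] [DecidableEq n] (V : Submodule ℂ (n → ℂ))
    (T : J → Matrix n n ℂ) (hT : ∀ j, (T j).IsHermitian) (hc : ∀ i j, Commute (T i) (T j))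
    (hV : ∀ j, ∀ v ∈ V, T j *ᵥ v ∈ V) (p : (n → ℂ) → Prop) (h0 : p 0)
    (hadd : ∀ u v, p u → p v → p (u + v))
    (heig : ∀ v ∈ V, (∃ χ : J → ℂ, ∀ j, T j *ᵥ v = χ j • v) → p v) : ∀ v ∈ V, p v := by
  classical
  obtain ⟨V', hV'⟩ : ∃ V' : Submodule ℂ (EuclideanSpace ℂ n),
      V' = V.comap (WithLp.linearEquiv 2 ℂ (n → ℂ) : EuclideanSpace ℂ n →ₗ[ℂ] (n → ℂ)) :=
    ⟨_, rfl⟩
  have hmem : ∀ w : EuclideanSpace ℂ n, w ∈ V' ↔ w.ofLp ∈ V := by
    intro w
    rw [hV']
    rfl
  have hinv : ∀ j, ∀ w ∈ V', Matrix.toEuclideanLin (T j) w ∈ V' := by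
    intro j w hw
    rw [hmem] at hw ⊢
    exact hV j _ hw
  let R : J → (V' →ₗ[ℂ] V') := fun j => (Matrix.toEuclideanLin (T j)).restrict (hinv j)
  have hsym : ∀ j, LinearMap.IsSymmetric (𝕜 := ℂ) (E := V') (R j) := by
    intro j
    exact (Matrix.isSymmetric_toEuclideanLin_iff.mpr (hT j)).restrict_invariant (hinv j)
  have hcomm : Pairwise (Function.onFun Commute R) := by
    intro i j _
    show R i * R j = R j * R i
    apply LinearMap.ext
    intro w
    apply Subtype.ext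
    have h1 := (hc i j).eq
    show Matrix.toEuclideanLin (T i) (Matrix.toEuclideanLin (T j) (w : EuclideanSpace ℂ n)) =
      Matrix.toEuclideanLin (T j) (Matrix.toEuclideanLin (T i) (w : EuclideanSpace ℂ n))
    rw [Matrix.toEuclideanLin_apply, Matrix.toEuclideanLin_apply, Matrix.toEuclideanLin_apply,
      Matrix.toEuclideanLin_apply]
    simp only [Matrix.mulVec_mulVec, h1]
  have htop := LinearMap.IsSymmetric.iSup_iInf_eq_top_of_commute hsym hcomm
  intro v hv
  have hv' : WithLp.toLp 2 v ∈ V' := by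
    rw [hmem]
    exact hv
  have hin : (⟨WithLp.toLp 2 v, hv'⟩ : V') ∈
      ⨆ χ : J → ℂ, ⨅ j, Module.End.eigenspace (R j) (χ j) := by
    rw [htop]
    exact Submodule.mem_top
  have key : ∀ w : V', w ∈ (⨆ χ : J → ℂ, ⨅ j, Module.End.eigenspace (R j) (χ j)) →
      p (w : EuclideanSpace ℂ n).ofLp := by
    intro w hw
    refine Submodule.iSup_induction (fun χ : J → ℂ => ⨅ j, Module.End.eigenspace (R j) (χ j))
      (motive := fun w : V' => p (w : EuclideanSpace ℂ n).ofLp) hw ?_ ?_ ?_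
    · intro χ w hw
      refine heig _ ((hmem _).1 w.2) ⟨χ, fun j => ?_⟩
      have h1 := (Submodule.mem_iInf _).1 hw j
      rw [Module.End.mem_eigenspace_iff] at h1
      have h2 := congrArg (fun u : V' => (u : EuclideanSpace ℂ n).ofLp) h1
      exact h2
    · exact h0
    · intro u w hu hw
      exact hadd _ _ hu hw
  exact key _ hin

/-- A nonzero invariant subspace contains a joint eigenvector. -/
theorem exists_joint {n J : Type} [Fintype n] [DecidableEq n] (V : Submodule ℂ (n → ℂ))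
    (T : J → Matrix n n ℂ) (hT : ∀ j, (T j).IsHermitian) (hc : ∀ i j, Commute (T i) (T j))
    (hV : ∀ j, ∀ v ∈ V, T j *ᵥ v ∈ V) {v : n → ℂ} (hv : v ∈ V) (hv0 : v ≠ 0) :
    ∃ w ∈ V, w ≠ 0 ∧ ∃ χ : J → ℂ, ∀ j, T j *ᵥ w = χ j • w := by
  by_contra hcon
  push Not at hcon
  apply hv0
  refine joint_ind V T hT hc hV (fun v => v = 0) rfl (fun u v hu hv => by rw [hu, hv, add_zero])
    ?_ v hv
  intro w hw ⟨χ, hχ⟩
  by_contra h0
  obtain ⟨j, hj⟩ := hcon w hw h0 χ
  exact hj (hχ j)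

/-- The eigenvalue of a Hermitian matrix is real. -/
theorem eig_real {n : Type} [Fintype n] [DecidableEq n] {T : Matrix n n ℂ} (hT : T.IsHermitian)
    {v : n → ℂ} (hv : v ≠ 0) {c : ℂ} (h : T *ᵥ v = c • v) : star c = c := by
  have h1 : star v ⬝ᵥ (T *ᵥ v) = c * (star v ⬝ᵥ v) := by rw [h, dotProduct_smul, smul_eq_mul]
  have h2 : star v ⬝ᵥ (T *ᵥ v) = star c * (star v ⬝ᵥ v) := by
    have h3 : star (T *ᵥ v) ⬝ᵥ v = star v ⬝ᵥ (T *ᵥ v) := by
      rw [Matrix.star_mulVec, ← Matrix.dotProduct_mulVec, hT.eq]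
    rw [← h3, h, star_smul, smul_dotProduct, smul_eq_mul]
  have h4 : star v ⬝ᵥ v ≠ 0 := fun h' => hv (dotProduct_star_self_eq_zero.1 h')
  exact mul_right_cancel₀ h4 (h2.symm.trans h1)

namespace Lay

variable {Y F : Type} [Fintype Y] [DecidableEq Y] [Fintype F] [DecidableEq F] {d : ℕ}
  (X : Lay Y F d)

section centre

variable {a : ℕ} [NeZero a] {m : ℕ}

theorem central_comm (hm' : 3 * X.g < m) (hC : X.AllComm (Y := Y) m) (ha : m ≤ a)
    {z : Matrix (Fin X.g × Y → Fin d) (Fin X.g × Y → Fin d) ℂ}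
    (hz : IsCentral (X.alg (Y := Y) m) z) (c : ℕ) (y : Y) :
    Commute (emb (X.rng a) z) (X.term a c y) := by
  rw [← X.term_mod]
  obtain ⟨k, hk⟩ : ∃ k, k = c % a := ⟨_, rfl⟩
  have hka : k < a := by rw [hk]; exact Nat.mod_lt _ (NeZero.pos a)
  rw [← hk]
  by_cases h1 : k + X.g < a
  · exact hz.1 a ha k y h1
  · have hinj : Function.Injective (X.patch a k y) := X.patch_inj (by omega) _ _
    have r1 : Function.Injective (X.rng (Y := Y) a) := X.rng_inj (by omega)
    obtain ⟨i, hi⟩ : ∃ i, i = a - k := ⟨_, rfl⟩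
    have hi1 : 1 ≤ i := by omega
    have hi2 : i ≤ X.g := by omega
    unfold term
    rw [emb_slice (fun p => X.P p < i) hinj]
    refine Commute.sum_right _ _ _ (fun u _ => Commute.sum_right _ _ _ (fun u' _ => ?_))
    refine Commute.mul_right ?_ ?_
    · refine emb_commute r1 (hinj.comp Subtype.val_injective) ?_ _ _
      intro p q h
      have h2 := p.1.2
      have h3 := q.2
      simp only [rng, patch, Function.comp_apply, Prod.mk.injEq] at h
      have h4 := natCast_inj (by omega) (by omega) h.1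
      omega
    · have e1 : (fun p : {p // ¬ X.P p < i} => X.patch a k y p) =
          fun p => X.rng a (X.gam i hi1 y p) := by
        funext p
        have h1 := p.2
        simp only [rng, gam, patch, Prod.mk.injEq, and_true]
        have h2 : k + X.P p = a + (X.P p - i) := by omega
        rw [h2]
        push_cast
        simp
      rw [e1, ← emb_comp (X.gam_inj i hi1 y) r1]
      have h5 := hz.2 _ (X.slice_mem (by omega) hm' hC i hi1 hi2 y u u')
      show _ * _ = _ * _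
      rw [← emb_mul r1, ← emb_mul r1, h5]

theorem central_star {z : Matrix (Fin X.g × Y → Fin d) (Fin X.g × Y → Fin d) ℂ}
    (hz : IsCentral (X.alg (Y := Y) m) z) : IsCentral (X.alg (Y := Y) m) zᴴ := by
  refine ⟨X.alg_star _ hz.1, fun y hy => ?_⟩
  have h1 := congrArg Matrix.conjTranspose (hz.2 _ (X.alg_star _ hy))
  rw [Matrix.conjTranspose_mul, Matrix.conjTranspose_mul, Matrix.conjTranspose_conjTranspose] at h1
  exact h1.symm

/-- If all central elements act by scalars on `Φ`, these scalars are given by a linear form. -/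
theorem exists_eig {Φ : (ZMod a × Y → Fin d) → ℂ} (hΦ : Φ ≠ 0)
    (h : ∀ z, IsCentral (X.alg (Y := Y) m) z → ∃ c : ℂ, emb (X.rng a) z *ᵥ Φ = c • Φ) :
    ∃ χ : Matrix (Fin X.g × Y → Fin d) (Fin X.g × Y → Fin d) ℂ →ₗ[ℂ] ℂ,
      Eig (X.alg (Y := Y) m) (X.rng a) χ Φ := by
  refine ⟨{ toFun := fun M => (star Φ ⬝ᵥ (emb (X.rng a) M *ᵥ Φ)) / (star Φ ⬝ᵥ Φ)
            map_add' := fun M K => by
              simp [emb_add, Matrix.add_mulVec, dotProduct_add, add_div]
            map_smul' := fun c M => by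
              simp [emb_smul, Matrix.smul_mulVec, dotProduct_smul, mul_div_assoc] }, ?_⟩
  intro z hz
  obtain ⟨c, hc⟩ := h z hz
  rw [hc]
  congr 1
  show c = (star Φ ⬝ᵥ (emb (X.rng a) z *ᵥ Φ)) / (star Φ ⬝ᵥ Φ)
  rw [hc, dotProduct_smul, smul_eq_mul, mul_div_assoc, div_self (ev_self_ne_zero hΦ), mul_one]

theorem central_ground (hm' : 3 * X.g < m) (hC : X.AllComm (Y := Y) m) (ha : m ≤ a)
    {z : Matrix (Fin X.g × Y → Fin d) (Fin X.g × Y → Fin d) ℂ}
    (hz : IsCentral (X.alg (Y := Y) m) z) {Φ : (ZMod a × Y → Fin d) → ℂ} (hG : X.Ground a Φ) :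
    X.Ground a (emb (X.rng a) z *ᵥ Φ) := by
  intro c y
  rw [Matrix.mulVec_mulVec, ← (X.central_comm hm' hC ha hz c y).eq, ← Matrix.mulVec_mulVec,
    hG c y, Matrix.mulVec_zero]

theorem eig_of_unique (hm' : 3 * X.g < m) (hC : X.AllComm (Y := Y) m) (ha : m ≤ a)
    {Φ : (ZMod a × Y → Fin d) → ℂ} (hG : X.Ground a Φ) (hΦ : Φ ≠ 0)
    (huniq : ∀ Φ', X.Ground a Φ' → ∃ c : ℂ, Φ' = c • Φ) :
    ∃ χ : Matrix (Fin X.g × Y → Fin d) (Fin X.g × Y → Fin d) ℂ →ₗ[ℂ] ℂ,
      Eig (X.alg (Y := Y) m) (X.rng a) χ Φ :=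
  X.exists_eig hΦ (fun _ hz => huniq _ (X.central_ground hm' hC ha hz hG))

/-- If the ground space of the cover is one-dimensional, every ground state of the base has the
expectation values of the ground state of the cover. -/
theorem cover_unique (hm' : 3 * X.g < m) (hC : X.AllComm (Y := Y) m) (ha : m ≤ a) (k : ℕ)
    (n : ℕ) [NeZero n] (hn : n = (k + 1) * a) {Ω : (ZMod n × Y → Fin d) → ℂ} (hΩ : Ω ≠ 0)
    (huniq : ∀ Φ', X.Ground n Φ' → ∃ c : ℂ, Φ' = c • Ω) {U : Type} [Fintype U] [DecidableEq U]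
    (col : U → ℕ) (yy : U → Y) (hcol : ∀ u, X.g ≤ col u ∧ col u < a)
    (hinj : ∀ u v, col u = col v → yy u = yy v → u = v) (M : Matrix (U → Fin d) (U → Fin d) ℂ)
    {Φ : (ZMod a × Y → Fin d) → ℂ} (hG : X.Ground a Φ) :
    ev (emb (pos col yy a) M) Φ Φ * (star Ω ⬝ᵥ Ω) =
      ev (emb (pos col yy n) M) Ω Ω * (star Φ ⬝ᵥ Φ) := by
  have hΩ' := ev_self_ne_zero hΩ
  obtain ⟨o, ho⟩ : ∃ o, o = ev (emb (pos col yy n) M) Ω Ω / (star Ω ⬝ᵥ Ω) := ⟨_, rfl⟩
  -- the observable minus its expectation value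
  obtain ⟨O, hO⟩ : ∃ O, O = emb (pos col yy a) M - o • (1 : Matrix (ZMod a × Y → Fin d) _ ℂ) :=
    ⟨_, rfl⟩
  have r1 : Function.Injective (X.rng (Y := Y) a) := X.rng_inj (by omega)
  have pinj : Function.Injective (pos col yy a) := by
    intro u v huv
    simp only [pos, Prod.mk.injEq] at huv
    exact hinj u v (natCast_inj (hcol u).2 (hcol v).2 huv.1) huv.2
  have pdisj : ∀ (u : U) (q : Fin X.g × Y), pos col yy a u ≠ X.rng a q := by
    intro u q h
    simp only [pos, rng, Prod.mk.injEq] at h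
    have := q.1.2
    have h3 := natCast_inj (hcol u).2 (by have := hcol u; omega) h.1
    have := hcol u
    omega
  have hOc : ∀ z, Commute (emb (X.rng a) z) O := by
    intro z
    rw [hO]
    refine Commute.sub_right (emb_commute pinj r1 pdisj M z).symm ?_
    exact (Commute.one_right _).smul_right o
  -- joint eigenvectors
  have h1 : ∀ v, X.Ground a v → (∃ χ : Matrix (Fin X.g × Y → Fin d) (Fin X.g × Y → Fin d) ℂ →ₗ[ℂ] ℂ,
      Eig (X.alg (Y := Y) m) (X.rng a) χ v) → ev O v v = 0 := by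
    intro v hv ⟨χ, hχ⟩
    by_cases hv0 : v = 0
    · rw [hv0]; unfold ev; rw [Matrix.mulVec_zero, dotProduct_zero]
    obtain ⟨Θ, hΘG, hΘ0, _, hΘ⟩ := X.cover hm' hC ha hv hv0 hχ k n hn
    obtain ⟨c, hc⟩ := huniq Θ hΘG
    have h2 := hΘ U col yy hcol hinj M
    have hc0 : c ≠ 0 := by
      rintro rfl
      exact hΘ0 (by rw [hc, zero_smul])
    have h3 : ev (emb (pos col yy n) M) Θ Θ = star c * c * ev (emb (pos col yy n) M) Ω Ω := by
      unfold ev
      rw [hc, Matrix.mulVec_smul, dotProduct_smul, star_smul, smul_dotProduct, smul_eq_mul,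
        smul_eq_mul]
      ring
    have h4 : star Θ ⬝ᵥ Θ = star c * c * (star Ω ⬝ᵥ Ω) := by
      rw [hc, dotProduct_smul, star_smul, smul_dotProduct, smul_eq_mul, smul_eq_mul]
      ring
    rw [h3, h4] at h2
    have hcc : star c * c ≠ 0 := mul_ne_zero (star_ne_zero.2 hc0) hc0
    have h5 : ev (emb (pos col yy n) M) Ω Ω * (star v ⬝ᵥ v) =
        ev (emb (pos col yy a) M) v v * (star Ω ⬝ᵥ Ω) := by
      apply mul_left_cancel₀ hcc
      linear_combination h2
    have h6 : ev O v v = ev (emb (pos col yy a) M) v v - o * (star v ⬝ᵥ v) := by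
      unfold ev
      rw [hO, Matrix.sub_mulVec, dotProduct_sub, Matrix.smul_mulVec, Matrix.one_mulVec,
        dotProduct_smul, smul_eq_mul]
    rw [h6, ho]
    field_simp
    linear_combination -h5
  -- the commuting family of Hermitian central elements
  let J := {z : Matrix (Fin X.g × Y → Fin d) (Fin X.g × Y → Fin d) ℂ //
    IsCentral (X.alg (Y := Y) m) z ∧ zᴴ = z}
  let T : J → Matrix (ZMod a × Y → Fin d) (ZMod a × Y → Fin d) ℂ := fun z => emb (X.rng a) z.1
  have hTh : ∀ j, (T j).IsHermitian := by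
    intro j
    show (emb (X.rng a) j.1)ᴴ = emb (X.rng a) j.1
    rw [emb_conjTranspose, j.2.2]
  have hTc : ∀ i j, Commute (T i) (T j) := by
    intro i j
    show _ * _ = _ * _
    show emb (X.rng a) i.1 * emb (X.rng a) j.1 = emb (X.rng a) j.1 * emb (X.rng a) i.1
    rw [← emb_mul r1, ← emb_mul r1, i.2.1.2 _ j.2.1.1]
  let V : Submodule ℂ ((ZMod a × Y → Fin d) → ℂ) :=
    { carrier := {v | X.Ground a v}
      add_mem' := fun {u v} hu hv c y => by rw [Matrix.mulVec_add, hu c y, hv c y, add_zero]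
      zero_mem' := fun c y => Matrix.mulVec_zero _
      smul_mem' := fun k v hv c y => by rw [Matrix.mulVec_smul, hv c y, smul_zero] }
  have hV : ∀ j, ∀ v ∈ V, T j *ᵥ v ∈ V := fun j v hv => X.central_ground hm' hC ha j.2.1 hv
  -- scalars for Hermitian central elements give scalars for all central elements
  have hall : ∀ v, v ≠ 0 → (∃ χ : J → ℂ, ∀ j, T j *ᵥ v = χ j • v) →
      ∃ χ : Matrix (Fin X.g × Y → Fin d) (Fin X.g × Y → Fin d) ℂ →ₗ[ℂ] ℂ,
        Eig (X.alg (Y := Y) m) (X.rng a) χ v := by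
    intro v hv0 ⟨χ, hχ⟩
    refine X.exists_eig hv0 (fun z hz => ?_)
    have hz' := X.central_star hz
    have c1 : IsCentral (X.alg (Y := Y) m) (z + zᴴ) :=
      ⟨Submodule.add_mem _ hz.1 hz'.1, fun y hy => by
        rw [add_mul, mul_add, hz.2 y hy, hz'.2 y hy]⟩
    have c2 : IsCentral (X.alg (Y := Y) m) (Complex.I • (z - zᴴ)) :=
      ⟨Submodule.smul_mem _ _ (Submodule.sub_mem _ hz.1 hz'.1), fun y hy => by
        rw [Matrix.smul_mul, Matrix.mul_smul, sub_mul, mul_sub, hz.2 y hy, hz'.2 y hy]⟩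
    have s1 : (z + zᴴ)ᴴ = z + zᴴ := by
      rw [Matrix.conjTranspose_add, Matrix.conjTranspose_conjTranspose, add_comm]
    have s2 : (Complex.I • (z - zᴴ))ᴴ = Complex.I • (z - zᴴ) := by
      rw [Matrix.conjTranspose_smul, Matrix.conjTranspose_sub, Matrix.conjTranspose_conjTranspose,
        ← neg_sub z, smul_neg]
      simp
    have e1 := hχ ⟨_, c1, s1⟩
    have e2 := hχ ⟨_, c2, s2⟩
    refine ⟨(1 / 2 : ℂ) * χ ⟨_, c1, s1⟩ - (Complex.I / 2) * χ ⟨_, c2, s2⟩, ?_⟩
    have e3 : z = (1 / 2 : ℂ) • (z + zᴴ) - (Complex.I / 2 : ℂ) • (Complex.I • (z - zᴴ)) := by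
      rw [smul_smul]
      have : (Complex.I / 2 * Complex.I : ℂ) = -(1 / 2) := by
        rw [div_mul_eq_mul_div, Complex.I_mul_I]; ring
      rw [this]
      module
    conv_lhs => rw [e3]
    rw [emb_sub, emb_smul, emb_smul, Matrix.sub_mulVec, Matrix.smul_mulVec, Matrix.smul_mulVec]
    show (1 / 2 : ℂ) • (T ⟨_, c1, s1⟩ *ᵥ v) - (Complex.I / 2) • (T ⟨_, c2, s2⟩ *ᵥ v) = _
    rw [e1, e2]
    module
  -- bilinear vanishing on pairs of joint eigenvectors
  have hpair : ∀ v ∈ V, (∃ χ : J → ℂ, ∀ j, T j *ᵥ v = χ j • v) → ∀ w ∈ V,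
      (∃ χ : J → ℂ, ∀ j, T j *ᵥ w = χ j • w) → ev O v w = 0 := by
    intro v hv ⟨χ, hχ⟩ w hw ⟨χ', hχ'⟩
    by_cases hv0 : v = 0
    · rw [hv0]; unfold ev; rw [star_zero, zero_dotProduct]
    by_cases hw0 : w = 0
    · rw [hw0]; unfold ev; rw [Matrix.mulVec_zero, dotProduct_zero]
    by_cases hχχ : χ = χ'
    · subst hχχ
      have q : ∀ c : ℂ, ev O (v + c • w) (v + c • w) = 0 := by
        intro c
        have hm1 : v + c • w ∈ V := V.add_mem hv (V.smul_mem _ hw)
        by_cases h0 : v + c • w = 0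
        · rw [h0]; unfold ev; rw [Matrix.mulVec_zero, dotProduct_zero]
        · refine h1 _ hm1 (hall _ h0 ⟨χ, fun j => ?_⟩)
          rw [Matrix.mulVec_add, Matrix.mulVec_smul, hχ, hχ', smul_add, smul_comm]
      have qv := h1 v hv (hall v hv0 ⟨χ, hχ⟩)
      have qw := h1 w hw (hall w hw0 ⟨χ, hχ'⟩)
      have qe : ∀ c : ℂ, ev O (v + c • w) (v + c • w) =
          ev O v v + c * ev O v w + star c * ev O w v + star c * c * ev O w w := by
        intro c
        unfold ev
        rw [Matrix.mulVec_add, Matrix.mulVec_smul, star_add, star_smul, dotProduct_add,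
          add_dotProduct, add_dotProduct, dotProduct_smul, dotProduct_smul, smul_dotProduct,
          smul_dotProduct]
        simp only [smul_eq_mul]
        ring
      have q1 := q 1
      have q2 := q Complex.I
      rw [qe, qv, qw] at q1 q2
      simp only [star_one, Complex.star_def, Complex.conj_I] at q1 q2
      have q3 : Complex.I * (ev O v w - ev O w v) = 0 := by linear_combination q2
      have q4 : ev O v w - ev O w v = 0 := by
        rcases mul_eq_zero.1 q3 with h | h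
        · exact absurd h Complex.I_ne_zero
        · exact h
      linear_combination (1 / 2 : ℂ) * q1 + (1 / 2 : ℂ) * q4
    · obtain ⟨j, hj⟩ := Function.ne_iff.1 hχχ
      have e1 : star v ⬝ᵥ (T j *ᵥ (O *ᵥ w)) = χ' j * (star v ⬝ᵥ (O *ᵥ w)) := by
        rw [Matrix.mulVec_mulVec]
        have e2 : T j * O = O * T j := (hOc j.1).eq
        rw [e2, ← Matrix.mulVec_mulVec, hχ', Matrix.mulVec_smul, dotProduct_smul, smul_eq_mul]
      have e3 : star v ⬝ᵥ (T j *ᵥ (O *ᵥ w)) = χ j * (star v ⬝ᵥ (O *ᵥ w)) := by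
        have e4 : star (T j *ᵥ v) ⬝ᵥ (O *ᵥ w) = star v ⬝ᵥ (T j *ᵥ (O *ᵥ w)) := by
          rw [Matrix.star_mulVec, ← Matrix.dotProduct_mulVec, (hTh j).eq]
        rw [← e4, hχ, star_smul, smul_dotProduct, smul_eq_mul, eig_real (hTh j) hv0 (hχ j)]
      have e5 : (χ j - χ' j) * ev O v w = 0 := by
        unfold ev
        rw [sub_mul, ← e1, ← e3, sub_self]
      rcases mul_eq_zero.1 e5 with h | h
      · exact absurd (sub_eq_zero.1 h) hj
      · exact h
  have hall2 : ∀ w ∈ V, ∀ v ∈ V, ev O v w = 0 := by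
    refine joint_ind V T hTh hTc hV (fun w => ∀ v ∈ V, ev O v w = 0) ?_ ?_ ?_
    · intro v _
      unfold ev
      rw [Matrix.mulVec_zero, dotProduct_zero]
    · intro u v hu hv w hw
      have e1 := hu w hw
      have e2 := hv w hw
      unfold ev at e1 e2 ⊢
      rw [Matrix.mulVec_add, dotProduct_add, e1, e2, add_zero]
    · intro w hw hwe
      refine joint_ind V T hTh hTc hV (fun v => ev O v w = 0) ?_ ?_ ?_
      · unfold ev
        rw [star_zero, zero_dotProduct]
      · intro u v hu hv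
        unfold ev at hu hv ⊢
        rw [star_add, add_dotProduct, hu, hv, add_zero]
      · intro v hv hve
        exact hpair v hv hve w hw hwe
  have hfin := hall2 Φ hG Φ hG
  have h6 : ev O Φ Φ = ev (emb (pos col yy a) M) Φ Φ - o * (star Φ ⬝ᵥ Φ) := by
    unfold ev
    rw [hO, Matrix.sub_mulVec, dotProduct_sub, Matrix.smul_mulVec, Matrix.one_mulVec,
      dotProduct_smul, smul_eq_mul]
  rw [h6, ho] at hfin
  field_simp at hfin
  linear_combination hfin

end centre

end Lay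

end Pool.Agent.Hlead.Comm
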