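import Pool.Agent.Hlead.Comm.Energy
import Pool.Agent.Hhelper96.PEPS.Trans

/-!
Commuting interactions with a unique ground state on all large square tori: the marginals of the
ground states are eventually constant.
-/

set_option autoImplicit false
set_option linter.unusedSectionVars false

open Filter Topology
open scoped BigOperators Matrix ComplexOrder

namespace Pool.Agent.Hlead.Comm

open Pool.Agent.Hhelper96.PEPS Lay

variable {d : ℕ}

theorem norm_sq_eq {n : Type} [Fintype n] (ψ : n → ℂ) :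
    ((∑ t, ‖ψ t‖ ^ 2 : ℝ) : ℂ) = star ψ ⬝ᵥ ψ := by
  rw [dotProduct]
  push_cast
  refine Finset.sum_congr rfl (fun t _ => ?_)
  have h1 := Complex.mul_conj (ψ t)
  rw [Complex.normSq_eq_norm_sq] at h1
  rw [Pi.star_apply, mul_comm]
  push_cast at h1
  exact h1.symm

theorem reduced_eq_ev (L : ℕ) [NeZero L] (R : Finset (ℤ × ℤ)) (v : Site L)
    (ψ : (Site L → Fin d) → ℂ) (a b : R → Fin d) :
    reduced L R v ψ a b =
      ev (emb (fun p : R => place L v p) (Matrix.single b a 1)) ψ ψ / (star ψ ⬝ᵥ ψ) := by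
  classical
  unfold reduced ptrace density ev
  rw [norm_sq_eq]
  simp only [dotProduct, Matrix.mulVec, Finset.mul_sum]
  rw [Finset.sum_comm, Finset.sum_div]
  refine Finset.sum_congr rfl (fun s' _ => ?_)
  rw [Finset.sum_div]
  refine Finset.sum_congr rfl (fun s _ => ?_)
  unfold emb
  by_cases h1 : ∀ u, (∀ t : R, place L v t ≠ u) → s u = s' u
  · have h1' : ∀ u, (∀ t : R, place L v t ≠ u) → s' u = s u := fun u hu => (h1 u hu).symm
    rw [if_pos h1', Matrix.single_apply]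
    by_cases h2 : b = (fun p : R => s' (place L v p)) ∧ a = fun p : R => s (place L v p)
    · rw [if_pos h2, if_pos ⟨h2.2.symm, h2.1.symm, h1⟩]
      simp only [Pi.star_apply, one_mul]
      ring
    · rw [if_neg h2, if_neg (fun h3 => h2 ⟨h3.2.1.symm, h3.1.symm⟩)]
      simp
  · have h1' : ¬ ∀ u, (∀ t : R, place L v t ≠ u) → s' u = s u :=
      fun h2 => h1 (fun u hu => (h2 u hu).symm)
    rw [if_neg h1', if_neg (fun h3 => h1 h3.2.2)]
    simp

/-- **Commuting families have eventually constant marginals.**  Let `h` be a Hermitian finite-range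
interaction whose local terms commute on all large tori, and such that on all large square tori the
ground state is unique (no uniform gap is needed).  Then the reduced density matrices of the ground
states on every finite region are eventually constant in the size of the torus. -/
theorem commuting_marginals (F : Finset (ℤ × ℤ)) (h : Matrix (F → Fin d) (F → Fin d) ℂ)
    (hh : h.IsHermitian) (Δ : ℕ → ℝ) (ψ : ∀ n : ℕ, (Site (n + 1) → Fin d) → ℂ)
    (hψ : ∀ᶠ n in atTop, 0 < Δ n ∧ IsGappedGround (hamiltonian (n + 1) F h) (Δ n) (ψ n))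
    (hcomm : ∀ᶠ n in atTop, ∀ v w : Site (n + 1),
      Commute (localTerm (n + 1) F h v) (localTerm (n + 1) F h w))
    (R : Finset (ℤ × ℤ)) :
    ∃ ρ : Matrix (R → Fin d) (R → Fin d) ℂ, ∀ᶠ n in atTop, reduced (n + 1) R 0 (ψ n) = ρ := by
  classical
  obtain ⟨f, hF⟩ := exists_inBox F
  obtain ⟨r, hR⟩ := exists_inBox R
  obtain ⟨n₀, hn₀⟩ := eventually_atTop.1 (hψ.and (hcomm.and (eventually_ge_atTop (6 * f + 1))))
  have hh' : hᴴ = h := hh
  have hc : ∀ (a b : ℕ) [NeZero a] [NeZero b], 6 * f + 1 ≤ a → 6 * f + 1 ≤ b →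
      ∀ v w : ZMod a × ZMod b, Commute (lt2 a b F h v) (lt2 a b F h w) := by
    intro a b _ _ ha hb v w
    have h1 := hn₀ n₀ le_rfl
    exact comm_transfer hF h (L := n₀ + 1) (by omega) h1.2.1 ha hb v w
  -- the joint eigenvalues
  have h1 : ∀ n, ∃ e : ℝ, n₀ ≤ n → (∀ v, lt2 (n + 1) (n + 1) F h v *ᵥ ψ n = (e : ℂ) • ψ n) ∧
      (∀ Φ, (∀ v, lt2 (n + 1) (n + 1) F h v *ᵥ Φ = (e : ℂ) • Φ) → ∃ c : ℂ, Φ = c • ψ n) ∧
      ∀ (φ : (Site (n + 1) → Fin d) → ℂ) (lam : Site (n + 1) → ℝ), φ ≠ 0 →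
        (∀ v, lt2 (n + 1) (n + 1) F h v *ᵥ φ = (lam v : ℂ) • φ) →
        ((n + 1 : ℕ) : ℝ) ^ 2 * e ≤ ∑ v, lam v := by
    intro n
    by_cases hn : n₀ ≤ n
    · obtain ⟨⟨hΔ, hg⟩, _, hbig⟩ := hn₀ n hn
      obtain ⟨e, he⟩ := joint_ground hF (by omega : 2 * f < n + 1) hh'
        (hc (n + 1) (n + 1) (by omega) (by omega)) hΔ hg
      exact ⟨e, fun _ => he⟩
    · exact ⟨0, fun h2 => absurd h2 hn⟩
  choose e he using h1
  have hψ0 : ∀ n ≥ n₀, ψ n ≠ 0 := fun n hn => (hn₀ n hn).1.2.1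
  have hbig : ∀ n ≥ n₀, 6 * f + 1 ≤ n := fun n hn => (hn₀ n hn).2.2
  obtain ⟨Λ, hΛ⟩ : ∃ Λ : ℝ, ∀ x ∈ spec h, |x| ≤ Λ := by
    obtain ⟨Λ, hΛ⟩ := ((spec_finite h).image (fun x => |x|)).bddAbove
    exact ⟨Λ, fun x hx => hΛ ⟨x, hx, rfl⟩⟩
  obtain ⟨n₁, hn₁, hconst⟩ := eventually_const (spec_finite h) e n₀
    (fun n hn => mem_spec (place2_inj hF (by have := hbig n hn; omega)
      (by have := hbig n hn; omega) 0) (hψ0 n hn) ((he n hn).1 0)) (C := 8 * f * Λ)
    (by
      intro m n hm hmn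
      have h2 := compare (M := m + 1) (N := n + 1) hF (by have := hbig m hm; omega) (by omega) hh'
        (hc (m + 1) (m + 1) (by have := hbig m hm; omega) (by have := hbig m hm; omega))
        (he m hm).2.2 (hψ0 n (by omega)) (he n (by omega)).1 hΛ
      push_cast at h2
      exact h2)
  -- the shifted interaction
  obtain ⟨E, hE⟩ : ∃ E, E = e n₁ := ⟨_, rfl⟩
  obtain ⟨h', hh1⟩ : ∃ h' : Matrix (F → Fin d) (F → Fin d) ℂ, h' = h - (E : ℂ) • 1 := ⟨_, rfl⟩
  have hherm : h'ᴴ = h' := by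
    rw [hh1, Matrix.conjTranspose_sub, hh', Matrix.conjTranspose_smul, Matrix.conjTranspose_one]
    simp
  have hlt : ∀ (a b : ℕ) [NeZero a] [NeZero b], 6 * f + 1 ≤ a → 6 * f + 1 ≤ b →
      ∀ v : ZMod a × ZMod b, lt2 a b F h' v = lt2 a b F h v - (E : ℂ) • 1 := by
    intro a b _ _ ha hb v
    unfold lt2
    rw [hh1, emb_sub, emb_smul, emb_one (place2_inj hF (by omega) (by omega) v)]
  have hc' : ∀ (a b : ℕ) [NeZero a] [NeZero b], 6 * f + 1 ≤ a → 6 * f + 1 ≤ b →
      ∀ v w : ZMod a × ZMod b, Commute (lt2 a b F h' v) (lt2 a b F h' w) := by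
    intro a b _ _ ha hb v w
    rw [hlt a b ha hb, hlt a b ha hb]
    refine Commute.sub_right (Commute.sub_left (hc a b ha hb v w) ?_) ?_
    · exact (Commute.one_left _).smul_left _
    · exact (Commute.one_right _).smul_right _
  have hground : ∀ n ≥ n₁, ∀ Φ : (Site (n + 1) → Fin d) → ℂ,
      Ground2 (n + 1) (n + 1) F h' Φ ↔ ∀ v, lt2 (n + 1) (n + 1) F h v *ᵥ Φ = (e n : ℂ) • Φ := by
    intro n hn Φ
    have h3 := hbig n (by omega)
    have h4 : e n = E := by rw [hE]; exact hconst n hn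
    unfold Ground2
    constructor
    · intro hG v
      have h5 := hG v
      rw [hlt _ _ (by omega) (by omega), Matrix.sub_mulVec, Matrix.smul_mulVec,
        Matrix.one_mulVec, sub_eq_zero] at h5
      rw [h5, h4]
    · intro hG v
      rw [hlt _ _ (by omega) (by omega), Matrix.sub_mulVec, Matrix.smul_mulVec,
        Matrix.one_mulVec, hG v, h4, sub_self]
  obtain ⟨n₂, hn₂⟩ : ∃ n₂, n₂ = max n₁ (2 * f + 2 * r + 1) := ⟨_, rfl⟩
  have hpos : ∀ L : ℕ, ∀ p : R, place L (((2 * f + r : ℕ) : ZMod L), ((2 * f + r : ℕ) : ZMod L)) p =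
      ((((((p : ℤ × ℤ).1 + r).toNat + 2 * f : ℕ)) : ZMod L),
        ((((p : ℤ × ℤ).2 + r).toNat + 2 * f : ℕ) : ZMod L)) := by
    intro L p
    have hp := hR p p.2
    simp only [place]
    refine Prod.ext ?_ ?_
    · simp only
      push_cast
      rw [toNat_cast _ (by omega)]
      push_cast
      ring
    · simp only
      push_cast
      rw [toNat_cast _ (by omega)]
      push_cast
      ring
  have key : ∀ m ≥ n₂, ∀ k n : ℕ, n + 1 = (k + 1) * (m + 1) →
      reduced (m + 1) R 0 (ψ m) = reduced (n + 1) R 0 (ψ n) := by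
    intro m hm k n hn
    have hmn : m ≤ n := by
      have : m + 1 ≤ (k + 1) * (m + 1) := Nat.le_mul_of_pos_left _ (Nat.succ_pos k)
      omega
    have hm1 : n₁ ≤ m := by omega
    have hn1 : n₁ ≤ n := by omega
    have hm0 : n₀ ≤ m := by omega
    have hn0 : n₀ ≤ n := by omega
    have b1 := hbig m hm0
    have b2 := hbig n hn0
    rw [← reduced_eq_of_gapped F h (hn₀ m hm0).1.1 (hn₀ m hm0).1.2 R
        (((2 * f + r : ℕ) : ZMod (m + 1)), ((2 * f + r : ℕ) : ZMod (m + 1))),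
      ← reduced_eq_of_gapped F h (hn₀ n hn0).1.1 (hn₀ n hn0).1.2 R
        (((2 * f + r : ℕ) : ZMod (n + 1)), ((2 * f + r : ℕ) : ZMod (n + 1)))]
    funext a b
    rw [reduced_eq_ev, reduced_eq_ev]
    have h3 := square_cover hF hherm hc' (M := m + 1) (N := n + 1) (by omega) k hn
      (hψ0 m hm0) ((hground m hm1 _).2 (he m hm0).1)
      (fun Φ' hΦ' => (he m hm0).2.1 Φ' ((hground m hm1 Φ').1 hΦ'))
      (hψ0 n hn0) (fun Φ' hΦ' => (he n hn0).2.1 Φ' ((hground n hn1 Φ').1 hΦ'))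
      (U := R) (fun p => ((p : ℤ × ℤ).1 + r).toNat + 2 * f)
      (fun p => ((p : ℤ × ℤ).2 + r).toNat + 2 * f)
      (fun p => by have := hR p p.2; constructor <;> omega)
      (fun p => by have := hR p p.2; constructor <;> omega)
      (fun p q h4 h5 => by
        have hp := hR p p.2
        have hq := hR q q.2
        exact Subtype.ext (Prod.ext (by omega) (by omega)))
      (Matrix.single b a 1)
    have e1 : ∀ L : ℕ, (fun p : R => place L (((2 * f + r : ℕ) : ZMod L),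
        ((2 * f + r : ℕ) : ZMod L)) p) = fun p : R =>
        ((((((p : ℤ × ℤ).1 + r).toNat + 2 * f : ℕ)) : ZMod L),
          ((((p : ℤ × ℤ).2 + r).toNat + 2 * f : ℕ) : ZMod L)) := fun L => funext (hpos L)
    rw [e1, e1]
    rw [div_eq_div_iff (ev_self_ne_zero (hψ0 m hm0)) (ev_self_ne_zero (hψ0 n hn0))]
    exact h3
  refine ⟨reduced (n₂ + 1) R 0 (ψ n₂), eventually_atTop.2 ⟨n₂, fun m hm => ?_⟩⟩
  have hpos' : 1 ≤ (m + 1) * (n₂ + 1) := Nat.mul_pos (Nat.succ_pos _) (Nat.succ_pos _)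
  rw [key m hm n₂ ((m + 1) * (n₂ + 1) - 1) (by
      rw [Nat.sub_add_cancel hpos', Nat.mul_comm]),
    key n₂ le_rfl m ((m + 1) * (n₂ + 1) - 1) (by rw [Nat.sub_add_cancel hpos'])]

end Pool.Agent.Hlead.Comm
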