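import Pool.Agent.Hlead.Comm.Glue

/-!
Slices of an operator with respect to a splitting of its sites into two parts.
-/

set_option autoImplicit false
set_option linter.unusedSectionVars false

open scoped BigOperators Matrix

namespace Pool.Agent.Hlead.Comm

section slice

variable {S F C : Type} [Fintype S] [DecidableEq S] [Fintype F] [DecidableEq F]
  [Fintype C] [DecidableEq C] {d : ℕ}

/-- Join of two partial configurations. -/
def joinD (D : F → Prop) [DecidablePred D] (u : {p // D p} → Fin d) (w : {p // ¬ D p} → Fin d) :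
    F → Fin d :=
  fun p => if hp : D p then u ⟨p, hp⟩ else w ⟨p, hp⟩

/-- Slice of the operator `h` on `F` between the configurations `u`, `u'` of the part `D`. -/
def slice (D : F → Prop) [DecidablePred D] (h : Matrix (F → Fin d) (F → Fin d) ℂ)
    (u u' : {p // D p} → Fin d) : Matrix ({p // ¬ D p} → Fin d) ({p // ¬ D p} → Fin d) ℂ :=
  fun w w' => h (joinD D u w) (joinD D u' w')

variable (D : F → Prop) [DecidablePred D]

theorem joinD_self (s : F → Fin d) :
    joinD D (fun p => s p) (fun p => s p) = s := by
  funext p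
  unfold joinD
  split_ifs <;> rfl

theorem extend_joinD {π : F → S} (hπ : Function.Injective π) (u : {p // D p} → Fin d)
    (w : {p // ¬ D p} → Fin d) (s : S → Fin d) :
    Function.extend π (joinD D u w) s =
      Function.extend (fun p : {p // ¬ D p} => π p) w
        (Function.extend (fun p : {p // D p} => π p) u s) := by
  have hD : Function.Injective (fun p : {p // D p} => π p) :=
    hπ.comp Subtype.val_injective
  have hC : Function.Injective (fun p : {p // ¬ D p} => π p) :=
    hπ.comp Subtype.val_injective
  funext x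
  by_cases hx : ∃ p, π p = x
  · obtain ⟨p, rfl⟩ := hx
    rw [hπ.extend_apply]
    by_cases hp : D p
    · rw [Function.extend_apply' _ _ _ ?_]
      · have h1 := hD.extend_apply u s ⟨p, hp⟩
        simp only at h1
        rw [h1]
        simp [joinD, hp]
      · rintro ⟨q, hq⟩
        exact q.2 (by rw [hπ hq]; exact hp)
    · have h1 := hC.extend_apply w (Function.extend (fun p : {p // D p} => π p) u s) ⟨p, hp⟩
      simp only at h1
      rw [h1]
      simp [joinD, hp]
  · rw [Function.extend_apply' _ _ _ hx, Function.extend_apply' _ _ _ ?_,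
      Function.extend_apply' _ _ _ ?_]
    · rintro ⟨q, hq⟩
      exact hx ⟨q, hq⟩
    · rintro ⟨q, hq⟩
      exact hx ⟨q, hq⟩

theorem emb_slice {π : F → S} (hπ : Function.Injective π)
    (h : Matrix (F → Fin d) (F → Fin d) ℂ) :
    emb π h = ∑ u : {p // D p} → Fin d, ∑ u' : {p // D p} → Fin d,
      emb (fun p : {p // D p} => π p) (Matrix.single u u' 1) *
        emb (fun p : {p // ¬ D p} => π p) (slice D h u u') := by
  have hD : Function.Injective (fun p : {p // D p} => π p) :=
    hπ.comp Subtype.val_injective
  have hC : Function.Injective (fun p : {p // ¬ D p} => π p) :=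
    hπ.comp Subtype.val_injective
  apply mat_ext
  intro Φ
  funext s
  rw [emb_mulVec hπ]
  simp only [Matrix.sum_mulVec, Finset.sum_apply, ← Matrix.mulVec_mulVec]
  have h1 : ∀ u u' : {p // D p} → Fin d,
      (emb (fun p : {p // D p} => π p) (Matrix.single u u' 1) *ᵥ
        (emb (fun p : {p // ¬ D p} => π p) (slice D h u u') *ᵥ Φ)) s =
      if u = (fun p : {p // D p} => s (π p)) then
        ∑ w, slice D h u u' (fun p => s (π p)) w *
          Φ (Function.extend (fun p : {p // ¬ D p} => π p) w
            (Function.extend (fun p : {p // D p} => π p) u' s)) else 0 := by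
    intro u u'
    rw [emb_mulVec hD, Finset.sum_eq_single u']
    · rw [emb_mulVec hC, extend_comp_of_disjoint (κ := fun p : {p // ¬ D p} => π p)
        (by intro p q hpq; exact q.2 (by rw [← hπ hpq]; exact p.2))]
      by_cases hu : u = (fun p : {p // D p} => s (π p))
      · rw [if_pos hu, ← hu, Matrix.single_apply_same, one_mul]
      · rw [if_neg hu, Matrix.single_apply_of_row_ne hu, zero_mul]
    · intro q _ hq
      rw [Matrix.single_apply_of_col_ne _ _ (Ne.symm hq), zero_mul]
    · intro h'
      exact absurd (Finset.mem_univ _) h'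
  simp_rw [h1]
  have h2 : ∀ u : {p // D p} → Fin d, (∑ u' : {p // D p} → Fin d,
      if u = (fun p : {p // D p} => s (π p)) then
        ∑ w, slice D h u u' (fun p => s (π p)) w *
          Φ (Function.extend (fun p : {p // ¬ D p} => π p) w
            (Function.extend (fun p : {p // D p} => π p) u' s)) else 0) =
      if u = (fun p : {p // D p} => s (π p)) then
        ∑ u' : {p // D p} → Fin d, ∑ w, slice D h u u' (fun p => s (π p)) w *
          Φ (Function.extend (fun p : {p // ¬ D p} => π p) w
            (Function.extend (fun p : {p // D p} => π p) u' s)) else 0 := by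
    intro u
    split_ifs
    · rfl
    · simp
  simp_rw [h2]
  rw [Finset.sum_ite_eq' Finset.univ, if_pos (Finset.mem_univ _), ← Finset.sum_product']
  refine Finset.sum_equiv (Equiv.piEquivPiSubtypeProd D (fun _ => Fin d)) (by simp) ?_
  intro q _
  simp only [slice, Equiv.piEquivPiSubtypeProd_apply]
  rw [← extend_joinD D hπ, joinD_self D q]
  have h3 := joinD_self D (fun p => s (π p))
  rw [h3]

theorem slice_sandwich {π : F → S} (hπ : Function.Injective π)
    (h : Matrix (F → Fin d) (F → Fin d) ℂ) (u u' : {p // D p} → Fin d) :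
    emb (fun p : {p // ¬ D p} => π p) (slice D h u u') =
      ∑ r : {p // D p} → Fin d, emb (fun p : {p // D p} => π p) (Matrix.single r u 1) *
        emb π h * emb (fun p : {p // D p} => π p) (Matrix.single u' r 1) := by
  have hD : Function.Injective (fun p : {p // D p} => π p) :=
    hπ.comp Subtype.val_injective
  have hC : Function.Injective (fun p : {p // ¬ D p} => π p) :=
    hπ.comp Subtype.val_injective
  have hDC : ∀ (p : {p // D p}) (q : {p // ¬ D p}), π p ≠ π q := by
    intro p q hpq
    exact q.2 (by rw [← hπ hpq]; exact p.2)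
  have hcomm : ∀ (M : Matrix ({p // D p} → Fin d) ({p // D p} → Fin d) ℂ)
      (K : Matrix ({p // ¬ D p} → Fin d) ({p // ¬ D p} → Fin d) ℂ),
      emb (fun p : {p // D p} => π p) M * emb (fun p : {p // ¬ D p} => π p) K =
      emb (fun p : {p // ¬ D p} => π p) K * emb (fun p : {p // D p} => π p) M :=
    fun M K => emb_commute hD hC hDC M K
  have h1 : ∀ r : {p // D p} → Fin d,
      emb (fun p : {p // D p} => π p) (Matrix.single r u 1) * emb π h *
        emb (fun p : {p // D p} => π p) (Matrix.single u' r 1) =
      emb (fun p : {p // D p} => π p) (Matrix.single r r 1) *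
        emb (fun p : {p // ¬ D p} => π p) (slice D h u u') := by
    intro r
    rw [emb_slice D hπ h, Finset.mul_sum, Finset.sum_mul, Finset.sum_eq_single u]
    · rw [Finset.mul_sum, Finset.sum_mul, Finset.sum_eq_single u']
      · rw [← mul_assoc, ← emb_mul hD, Matrix.single_mul_single_same, mul_assoc, ← hcomm,
          ← mul_assoc, ← emb_mul hD, Matrix.single_mul_single_same, one_mul, one_mul]
      · intro v _ hv
        rw [← mul_assoc, ← emb_mul hD, Matrix.single_mul_single_same, mul_assoc, ← hcomm,
          ← mul_assoc, ← emb_mul hD, Matrix.single_mul_single_of_ne _ _ _ _ hv, emb_zero,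
          zero_mul]
      · intro h'
        exact absurd (Finset.mem_univ _) h'
    · intro v _ hv
      rw [Finset.mul_sum, Finset.sum_mul]
      refine Finset.sum_eq_zero (fun v' _ => ?_)
      rw [← mul_assoc, ← emb_mul hD, Matrix.single_mul_single_of_ne _ _ _ _ (Ne.symm hv),
        emb_zero, zero_mul, zero_mul]
    · intro h'
      exact absurd (Finset.mem_univ _) h'
  simp_rw [h1]
  rw [← Finset.sum_mul, ← emb_sum]
  have h2 : ∑ r : {p // D p} → Fin d, Matrix.single r r (1 : ℂ) = 1 := by
    funext a b
    rw [Matrix.sum_apply]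
    by_cases hab : a = b
    · subst hab
      rw [Finset.sum_eq_single a, Matrix.single_apply_same, Matrix.one_apply_eq]
      · intro r _ hr
        exact Matrix.single_apply_of_row_ne hr _ _ _
      · intro h'
        exact absurd (Finset.mem_univ _) h'
    · rw [Matrix.one_apply_ne hab]
      refine Finset.sum_eq_zero (fun r _ => ?_)
      by_cases hr : r = a
      · subst hr
        exact Matrix.single_apply_of_col_ne _ _ hab _
      · exact Matrix.single_apply_of_row_ne hr _ _ _
  rw [h2, emb_one hD, one_mul]

/-- Whatever commutes with an operator and with everything supported on its part `D` commutes with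
its slices. -/
theorem commute_slice {π : F → S} (hπ : Function.Injective π)
    (h : Matrix (F → Fin d) (F → Fin d) ℂ) {K : Matrix (S → Fin d) (S → Fin d) ℂ}
    (hK : Commute K (emb π h)) (hKD : ∀ M, Commute K (emb (fun p : {p // D p} => π p) M))
    (u u' : {p // D p} → Fin d) :
    Commute K (emb (fun p : {p // ¬ D p} => π p) (slice D h u u')) := by
  rw [slice_sandwich D hπ]
  refine Commute.sum_right _ _ _ (fun r _ => ?_)
  exact ((hKD _).mul_right hK).mul_right (hKD _)

variable {N : ℕ} {A : Submodule ℂ (Matrix (C → Fin d) (C → Fin d) ℂ)}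
  {x : Fin N → Matrix (C → Fin d) (C → Fin d) ℂ}

/-- Terms crossing the cut: one operator `h` whose `D`-part sits at fixed sites and whose other part
sits on the first or the second copy of the ring. -/
theorem crossing {j₁ j₂ : C → S} (h₁ : Function.Injective j₁) (h₂ : Function.Injective j₂)
    (hd : ∀ p q, j₁ p ≠ j₂ q)
    (hx : IsFrame A x) (hmul : ∀ a ∈ A, ∀ b ∈ A, a * b ∈ A) (hstar : ∀ a ∈ A, aᴴ ∈ A)
    (h : Matrix (F → Fin d) (F → Fin d) ℂ) {γ : {p // ¬ D p} → C} (hγ : Function.Injective γ)
    (hmem : ∀ u u', emb γ (slice D h u u') ∈ A)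
    {π₁ π₂ : F → S} (hπ₁ : Function.Injective π₁) (hπ₂ : Function.Injective π₂)
    (hδ : ∀ p, D p → π₁ p = π₂ p) (hδ₁ : ∀ p, D p → ∀ q, π₁ p ≠ j₁ q)
    (hδ₂ : ∀ p, D p → ∀ q, π₁ p ≠ j₂ q)
    (hγ₁ : ∀ p : {p // ¬ D p}, π₁ p = j₁ (γ p)) (hγ₂ : ∀ p : {p // ¬ D p}, π₂ p = j₂ (γ p)) :
    emb π₂ h * cas j₁ j₂ x = cas j₁ j₂ x * emb π₁ h ∧
      emb π₁ h * cas j₁ j₂ x = cas j₁ j₂ x * emb π₂ h := by
  have hD : Function.Injective (fun p : {p // D p} => π₁ p) :=
    hπ₁.comp Subtype.val_injective
  have e0 : (fun p : {p // D p} => π₂ p) = (fun p : {p // D p} => π₁ p) := by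
    funext p; exact (hδ p p.2).symm
  have e1 : ∀ u u', emb (fun p : {p // ¬ D p} => π₁ p) (slice D h u u') =
      emb j₁ (emb γ (slice D h u u')) := by
    intro u u'
    rw [emb_comp hγ h₁]
    congr 1
    funext p
    exact hγ₁ p
  have e2 : ∀ u u', emb (fun p : {p // ¬ D p} => π₂ p) (slice D h u u') =
      emb j₂ (emb γ (slice D h u u')) := by
    intro u u'
    rw [emb_comp hγ h₂]
    congr 1
    funext p
    exact hγ₂ p
  have hc : ∀ M, Commute (emb (fun p : {p // D p} => π₁ p) M) (cas j₁ j₂ x) := by
    intro M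
    refine cas_commute hx hstar ?_ ?_
    · intro y _
      exact emb_commute hD h₁ (fun p q => hδ₁ p p.2 q) _ _
    · intro y _
      exact emb_commute hD h₂ (fun p q => hδ₂ p p.2 q) _ _
  constructor
  · rw [emb_slice D hπ₂ h, emb_slice D hπ₁ h, Finset.sum_mul, Finset.mul_sum]
    refine Finset.sum_congr rfl (fun u _ => ?_)
    rw [Finset.sum_mul, Finset.mul_sum]
    refine Finset.sum_congr rfl (fun u' _ => ?_)
    rw [e0, e1, e2, mul_assoc, cas_right h₁ h₂ hd hx hmul hstar (hmem u u'), ← mul_assoc,
      (hc _).eq, mul_assoc]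
  · rw [emb_slice D hπ₂ h, emb_slice D hπ₁ h, Finset.sum_mul, Finset.mul_sum]
    refine Finset.sum_congr rfl (fun u _ => ?_)
    rw [Finset.sum_mul, Finset.mul_sum]
    refine Finset.sum_congr rfl (fun u' _ => ?_)
    rw [e0, e1, e2, mul_assoc, cas_left h₁ h₂ hx hmul hstar (hmem u u'), ← mul_assoc,
      (hc _).eq, mul_assoc]

end slice

end Pool.Agent.Hlead.Comm
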