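import Pool.Agent.Hlead.Comm.Torus

/-!
From the `M × M` torus to the `k M × k M` torus, through the `k M × M` torus.
-/

set_option autoImplicit false
set_option linter.unusedSectionVars false

open scoped BigOperators Matrix ComplexOrder

namespace Pool.Agent.Hlead.Comm

open Pool.Agent.Hhelper96.PEPS Lay

section transport

variable {S S' U : Type} [Fintype S] [DecidableEq S] [Fintype S'] [DecidableEq S'] [Fintype U]
  [DecidableEq U] {d : ℕ}

/-- Transport of a vector along a bijection of sites. -/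
def tr (e : S ≃ S') (Φ : (S → Fin d) → ℂ) : (S' → Fin d) → ℂ := fun s' => Φ (fun x => s' (e x))

theorem emb_tr (e : S ≃ S') {ι : U → S} (hι : Function.Injective ι)
    (M : Matrix (U → Fin d) (U → Fin d) ℂ) (Φ : (S → Fin d) → ℂ) :
    emb (fun p => e (ι p)) M *ᵥ tr e Φ = tr e (emb ι M *ᵥ Φ) := by
  have heι : Function.Injective (fun p => e (ι p)) := e.injective.comp hι
  funext s'
  rw [emb_mulVec heι]
  simp only [tr]
  rw [emb_mulVec hι]
  refine Finset.sum_congr rfl (fun q _ => ?_)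
  congr 2
  funext x
  by_cases hx : ∃ p, ι p = x
  · obtain ⟨p, rfl⟩ := hx
    rw [hι.extend_apply]
    exact heι.extend_apply q s' p
  · rw [Function.extend_apply' _ _ _ hx, Function.extend_apply' _ _ _ ?_]
    rintro ⟨p, hp⟩
    exact hx ⟨p, e.injective hp⟩

theorem inner_tr (e : S ≃ S') (Φ Ψ : (S → Fin d) → ℂ) :
    star (tr e Φ) ⬝ᵥ tr e Ψ = star Φ ⬝ᵥ Ψ := by
  simp only [dotProduct, Pi.star_apply, tr]
  refine Finset.sum_equiv (Equiv.arrowCongr e (Equiv.refl (Fin d))).symm (by simp) ?_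
  intro s' _
  rfl

theorem ev_tr (e : S ≃ S') {ι : U → S} (hι : Function.Injective ι)
    (M : Matrix (U → Fin d) (U → Fin d) ℂ) (Φ : (S → Fin d) → ℂ) :
    ev (emb (fun p => e (ι p)) M) (tr e Φ) (tr e Φ) = ev (emb ι M) Φ Φ := by
  unfold ev
  rw [emb_tr e hι, inner_tr]

theorem tr_zero (e : S ≃ S') : tr e (0 : (S → Fin d) → ℂ) = 0 := rfl

theorem tr_smul (e : S ≃ S') (c : ℂ) (Φ : (S → Fin d) → ℂ) : tr e (c • Φ) = c • tr e Φ := rfl

theorem tr_symm (e : S ≃ S') (Φ : (S' → Fin d) → ℂ) : tr e (tr e.symm Φ) = Φ := by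
  funext s'
  simp [tr]

theorem tr_injective (e : S ≃ S') {Φ Ψ : (S → Fin d) → ℂ} (h : tr e Φ = tr e Ψ) : Φ = Ψ := by
  have h1 := congrArg (tr e.symm) h
  have h2 : ∀ Φ : (S → Fin d) → ℂ, tr e.symm (tr e Φ) = Φ := by
    intro Φ
    funext s
    simp [tr]
  rwa [h2, h2] at h1

end transport

section layers

variable {d : ℕ} {F : Finset (ℤ × ℤ)} {f : ℕ}

/-- Vectors killed by all local terms of `h` on the `a × b` torus. -/
def Ground2 (a b : ℕ) [NeZero a] [NeZero b] (F : Finset (ℤ × ℤ))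
    (h : Matrix (F → Fin d) (F → Fin d) ℂ) (Φ : (ZMod a × ZMod b → Fin d) → ℂ) : Prop :=
  ∀ v, lt2 a b F h v *ᵥ Φ = 0

/-- Columns as layers. -/
def layH (hF : InBox F f) (b : ℕ) (hb : 2 * f < b) (h : Matrix (F → Fin d) (F → Fin d) ℂ)
    (hh : hᴴ = h) : Lay (ZMod b) F d where
  g := 2 * f
  P := fun p => ((p : ℤ × ℤ).1 + f).toNat
  hP := fun p => by have := hF p p.2; omega
  ψ := fun p y => y + (((p : ℤ × ℤ).2 + f : ℤ) : ZMod b)
  inj := fun y p q h1 h2 => by
    have hp := hF p p.2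
    have hq := hF q q.2
    apply Subtype.ext
    refine Prod.ext (by omega) ?_
    have h3 := intCast_inj (add_left_cancel h2) (by rw [abs_lt]; constructor <;> omega)
    omega
  h := h
  herm := hh

/-- Rows as layers. -/
def layV (hF : InBox F f) (a : ℕ) (ha : 2 * f < a) (h : Matrix (F → Fin d) (F → Fin d) ℂ)
    (hh : hᴴ = h) : Lay (ZMod a) F d where
  g := 2 * f
  P := fun p => ((p : ℤ × ℤ).2 + f).toNat
  hP := fun p => by have := hF p p.2; omega
  ψ := fun p x => x + (((p : ℤ × ℤ).1 + f : ℤ) : ZMod a)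
  inj := fun y p q h1 h2 => by
    have hp := hF p p.2
    have hq := hF q q.2
    apply Subtype.ext
    refine Prod.ext ?_ (by omega)
    have h3 := intCast_inj (add_left_cancel h2) (by rw [abs_lt]; constructor <;> omega)
    omega
  h := h
  herm := hh

theorem toNat_cast {a : ℕ} (u : ℤ) (hu : 0 ≤ u) : ((u.toNat : ℕ) : ZMod a) = (u : ZMod a) := by
  conv_rhs => rw [← Int.toNat_of_nonneg hu]
  push_cast
  rfl

variable (hF : InBox F f) {h : Matrix (F → Fin d) (F → Fin d) ℂ} (hh : hᴴ = h)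

theorem termH (a b : ℕ) [NeZero a] [NeZero b] (hb : 2 * f < b) (c : ℕ) (y : ZMod b) :
    (layH hF b hb h hh).term a c y =
      lt2 a b F h ((c : ZMod a) + (f : ZMod a), y + (f : ZMod b)) := by
  unfold Lay.term lt2
  congr 1
  funext p
  have hp := hF p p.2
  simp only [Lay.patch, layH, place2]
  refine Prod.ext ?_ ?_
  · simp only
    push_cast
    rw [toNat_cast _ (by omega)]
    push_cast
    ring
  · simp only
    push_cast
    ring

/-- Exchange of the coordinates. -/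
def sw (a b : ℕ) : ZMod a × ZMod b ≃ ZMod b × ZMod a := Equiv.prodComm _ _

theorem termV (a b : ℕ) [NeZero a] [NeZero b] (ha : 2 * f < a) (c : ℕ) (x : ZMod a) :
    (layV hF a ha h hh).term b c x =
      emb (fun p : F => sw a b (place2 a b (x + (f : ZMod a), (c : ZMod b) + (f : ZMod b)) p)) h := by
  unfold Lay.term
  congr 1
  funext p
  have hp := hF p p.2
  simp only [Lay.patch, layV, place2, sw, Equiv.prodComm_apply, Prod.swap_prod_mk]
  refine Prod.ext ?_ ?_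
  · simp only
    push_cast
    rw [toNat_cast _ (by omega)]
    push_cast
    ring
  · simp only
    push_cast
    ring

theorem groundH (a b : ℕ) [NeZero a] [NeZero b] (hb : 2 * f < b)
    (Φ : (ZMod a × ZMod b → Fin d) → ℂ) :
    (layH hF b hb h hh).Ground a Φ ↔ Ground2 a b F h Φ := by
  constructor
  · intro hG v
    have h1 := hG ((v.1 - (f : ZMod a)).val) (v.2 - (f : ZMod b))
    rw [termH] at h1
    rw [ZMod.natCast_zmod_val, sub_add_cancel, sub_add_cancel] at h1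
    exact h1
  · intro hG c y
    rw [termH]
    exact hG _

theorem groundV (a b : ℕ) [NeZero a] [NeZero b] (ha : 2 * f < a) (hb : 2 * f < b)
    (Φ : (ZMod a × ZMod b → Fin d) → ℂ) :
    (layV hF a ha h hh).Ground b (tr (sw a b) Φ) ↔ Ground2 a b F h Φ := by
  constructor
  · intro hG v
    have h1 := hG ((v.2 - (f : ZMod b)).val) (v.1 - (f : ZMod a))
    rw [termV] at h1
    rw [ZMod.natCast_zmod_val, sub_add_cancel, sub_add_cancel,
      emb_tr _ (place2_inj hF ha hb _), ← tr_zero (sw a b)] at h1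
    exact tr_injective _ h1
  · intro hG c y
    rw [termV, emb_tr _ (place2_inj hF ha hb _)]
    have h1 := hG (y + (f : ZMod a), (c : ZMod b) + (f : ZMod b))
    unfold lt2 at h1
    rw [h1, tr_zero]

theorem allComm_H {b : ℕ} [NeZero b] (hb : 2 * f < b)
    (hc : ∀ (a : ℕ) [NeZero a], 6 * f + 1 ≤ a → ∀ v w : ZMod a × ZMod b,
      Commute (lt2 a b F h v) (lt2 a b F h w)) :
    (layH hF b hb h hh).AllComm (Y := ZMod b) (6 * f + 1) := by
  intro a _ ha c c' y y'
  rw [termH, termH]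
  exact hc a ha _ _

theorem allComm_V {a : ℕ} [NeZero a] (ha' : 2 * f < a)
    (hc : ∀ (b : ℕ) [NeZero b], 6 * f + 1 ≤ b → ∀ v w : ZMod a × ZMod b,
      Commute (lt2 a b F h v) (lt2 a b F h w)) :
    (layV hF a ha' h hh).AllComm (Y := ZMod a) (6 * f + 1) := by
  intro b _ hb c c' x x'
  rw [termV, termV]
  have i1 : ∀ v : ZMod a × ZMod b, Function.Injective (fun p : F => place2 a b v p) :=
    place2_inj hF (by omega) (by omega)
  rw [← emb_comp (i1 _) (sw a b).injective, ← emb_comp (i1 _) (sw a b).injective]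
  show _ * _ = _ * _
  rw [← emb_mul (sw a b).injective, ← emb_mul (sw a b).injective]
  have h1 := (hc b hb (x + (f : ZMod a), (c : ZMod b) + (f : ZMod b))
    (x' + (f : ZMod a), (c' : ZMod b) + (f : ZMod b))).eq
  unfold lt2 at h1
  rw [h1]

include hF hh in
/-- The `k M × k M` torus has the same expectation values as the `M × M` torus. -/
theorem square_cover
    (hc : ∀ (a b : ℕ) [NeZero a] [NeZero b], 6 * f + 1 ≤ a → 6 * f + 1 ≤ b →
      ∀ v w : ZMod a × ZMod b, Commute (lt2 a b F h v) (lt2 a b F h w))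
    {M N : ℕ} [NeZero M] [NeZero N] (hM : 6 * f + 1 ≤ M) (k : ℕ) (hN : N = (k + 1) * M)
    {Φ : (ZMod M × ZMod M → Fin d) → ℂ} (hΦ : Φ ≠ 0) (hG : Ground2 M M F h Φ)
    (hu : ∀ Φ', Ground2 M M F h Φ' → ∃ c : ℂ, Φ' = c • Φ)
    {Ω : (ZMod N × ZMod N → Fin d) → ℂ} (hΩ : Ω ≠ 0)
    (huΩ : ∀ Φ', Ground2 N N F h Φ' → ∃ c : ℂ, Φ' = c • Ω)
    {U : Type} [Fintype U] [DecidableEq U] (cx cy : U → ℕ)
    (hcx : ∀ u, 2 * f ≤ cx u ∧ cx u < M) (hcy : ∀ u, 2 * f ≤ cy u ∧ cy u < M)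
    (hinj : ∀ u v, cx u = cx v → cy u = cy v → u = v) (K : Matrix (U → Fin d) (U → Fin d) ℂ) :
    ev (emb (fun u => (((cx u : ℕ) : ZMod M), ((cy u : ℕ) : ZMod M))) K) Φ Φ * (star Ω ⬝ᵥ Ω) =
      ev (emb (fun u => (((cx u : ℕ) : ZMod N), ((cy u : ℕ) : ZMod N))) K) Ω Ω *
        (star Φ ⬝ᵥ Φ) := by
  have hNM : M ≤ N := by rw [hN]; exact Nat.le_mul_of_pos_left M (Nat.succ_pos k)
  have hbM : 2 * f < M := by omega
  have hbN : 2 * f < N := by omega
  -- first stage
  have hCH := allComm_H hF hh (b := M) hbM (fun a _ ha => hc a M ha hM)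
  have hg : 3 * (layH hF M hbM h hh).g < 6 * f + 1 := by show 3 * (2 * f) < 6 * f + 1; omega
  obtain ⟨χ, hχ⟩ := (layH hF M hbM h hh).eig_of_unique hg hCH hM ((groundH hF hh M M hbM Φ).2 hG) hΦ
    (fun Φ' hΦ' => hu Φ' ((groundH hF hh M M hbM Φ').1 hΦ'))
  obtain ⟨Θ, hΘG, hΘ0, _, hΘ⟩ := (layH hF M hbM h hh).cover hg hCH hM
    ((groundH hF hh M M hbM Φ).2 hG) hΦ hχ k N hN
  have hΘG2 : Ground2 N M F h Θ := (groundH hF hh N M hbM Θ).1 hΘG
  have e1 := hΘ U cx (fun u => ((cy u : ℕ) : ZMod M)) hcx (fun u v h1 h2 => hinj u v h1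
    (natCast_inj (hcy u).2 (hcy v).2 h2)) K
  -- second stage
  have hCV := allComm_V hF hh (a := N) hbN (fun b _ hb => hc N b (by omega) hb)
  have hg' : 3 * (layV hF N hbN h hh).g < 6 * f + 1 := by show 3 * (2 * f) < 6 * f + 1; omega
  have hΩ' : tr (sw N N) Ω ≠ 0 := by
    intro h0
    rw [← tr_zero (sw N N)] at h0
    exact hΩ (tr_injective _ h0)
  have e2 := (layV hF N hbN h hh).cover_unique hg' hCV hM k N hN hΩ'
    (fun Φ' hΦ' => by
      rw [← tr_symm (sw N N) Φ', groundV hF hh N N hbN hbN] at hΦ'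
      obtain ⟨c, hc'⟩ := huΩ _ hΦ'
      refine ⟨c, ?_⟩
      rw [← tr_symm (sw N N) Φ', hc', tr_smul]) cy (fun u => ((cx u : ℕ) : ZMod N)) hcy
    (fun u v h1 h2 => hinj u v (natCast_inj (lt_of_lt_of_le (hcx u).2 hNM)
      (lt_of_lt_of_le (hcx v).2 hNM) h2) h1) K
    ((groundV hF hh N M hbN hbM Θ).2 hΘG2)
  have i1 : Function.Injective (fun u => (((cx u : ℕ) : ZMod N), ((cy u : ℕ) : ZMod M))) := by
    intro u v huv
    simp only [Prod.mk.injEq] at huv
    exact hinj u v (natCast_inj (lt_of_lt_of_le (hcx u).2 hNM)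
      (lt_of_lt_of_le (hcx v).2 hNM) huv.1) (natCast_inj (hcy u).2 (hcy v).2 huv.2)
  have i2 : Function.Injective (fun u => (((cx u : ℕ) : ZMod N), ((cy u : ℕ) : ZMod N))) := by
    intro u v huv
    simp only [Prod.mk.injEq] at huv
    exact hinj u v (natCast_inj (lt_of_lt_of_le (hcx u).2 hNM)
      (lt_of_lt_of_le (hcx v).2 hNM) huv.1) (natCast_inj (lt_of_lt_of_le (hcy u).2 hNM)
      (lt_of_lt_of_le (hcy v).2 hNM) huv.2)
  have e3 := ev_tr (sw N M) i1 K Θ
  have e4 := ev_tr (sw N N) i2 K Ω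
  have e5 : pos cy (fun u => ((cx u : ℕ) : ZMod N)) M =
      fun u => sw N M (((cx u : ℕ) : ZMod N), ((cy u : ℕ) : ZMod M)) := rfl
  have e6 : pos cy (fun u => ((cx u : ℕ) : ZMod N)) N =
      fun u => sw N N (((cx u : ℕ) : ZMod N), ((cy u : ℕ) : ZMod N)) := rfl
  rw [e5, e3, e6, e4, inner_tr, inner_tr] at e2
  have e7 : pos cx (fun u => ((cy u : ℕ) : ZMod M)) N =
      fun u => (((cx u : ℕ) : ZMod N), ((cy u : ℕ) : ZMod M)) := rfl
  have e8 : pos cx (fun u => ((cy u : ℕ) : ZMod M)) M =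
      fun u => (((cx u : ℕ) : ZMod M), ((cy u : ℕ) : ZMod M)) := rfl
  rw [e7, e8] at e1
  have hΘ1 := ev_self_ne_zero hΘ0
  apply mul_left_cancel₀ hΘ1
  linear_combination (-(star Ω ⬝ᵥ Ω)) * e1 + (star Φ ⬝ᵥ Φ) * e2

end layers

end Pool.Agent.Hlead.Comm
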