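import Pool.Agent.Hlead.Comm.Joint
import Pool.Agent.Hhelper96.PEPS.Defs

/-!
Rectangular tori: local terms, commutation, and the two layered structures.
-/

set_option autoImplicit false
set_option linter.unusedSectionVars false

open scoped BigOperators Matrix ComplexOrder

namespace Pool.Agent.Hlead.Comm

open Pool.Agent.Hhelper96.PEPS

/-- Translates on the `a × b` torus. -/
def place2 (a b : ℕ) (v : ZMod a × ZMod b) (p : ℤ × ℤ) : ZMod a × ZMod b :=
  (v.1 + (p.1 : ZMod a), v.2 + (p.2 : ZMod b))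

variable {d : ℕ}

/-- Local term on the `a × b` torus. -/
noncomputable def lt2 (a b : ℕ) [NeZero a] [NeZero b] (F : Finset (ℤ × ℤ))
    (h : Matrix (F → Fin d) (F → Fin d) ℂ) (v : ZMod a × ZMod b) :
    Matrix (ZMod a × ZMod b → Fin d) (ZMod a × ZMod b → Fin d) ℂ :=
  emb (fun p : F => place2 a b v p) h

theorem localTerm_eq (L : ℕ) [NeZero L] (F : Finset (ℤ × ℤ))
    (h : Matrix (F → Fin d) (F → Fin d) ℂ) (v : Site L) :
    localTerm L F h v = lt2 L L F h v := by
  funext s s'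
  unfold localTerm lt2 emb
  by_cases hc : ∀ u, (∀ p : F, place L v p ≠ u) → s u = s' u
  · rw [if_pos hc, if_pos (by exact hc)]; rfl
  · rw [if_neg hc, if_neg (by exact hc)]

/-- The finite set `F` lies in the box of radius `f`. -/
def InBox (F : Finset (ℤ × ℤ)) (f : ℕ) : Prop :=
  ∀ p ∈ F, -(f : ℤ) ≤ p.1 ∧ p.1 ≤ f ∧ -(f : ℤ) ≤ p.2 ∧ p.2 ≤ f

theorem exists_inBox (F : Finset (ℤ × ℤ)) : ∃ f, InBox F f := by
  refine ⟨∑ p ∈ F, (p.1.natAbs + p.2.natAbs), fun p hp => ?_⟩
  have h1 : p.1.natAbs + p.2.natAbs ≤ ∑ p ∈ F, (p.1.natAbs + p.2.natAbs) :=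
    Finset.single_le_sum (f := fun p : ℤ × ℤ => p.1.natAbs + p.2.natAbs)
      (fun _ _ => Nat.zero_le _) hp
  omega

theorem intCast_inj {a : ℕ} {u v : ℤ} (h : (u : ZMod a) = (v : ZMod a)) (h1 : |u - v| < a) :
    u = v := by
  rw [ZMod.intCast_eq_intCast_iff_dvd_sub] at h
  have h2 := Int.eq_zero_of_abs_lt_dvd h (by rw [abs_sub_comm]; exact h1)
  omega

theorem place2_inj {a b : ℕ} {F : Finset (ℤ × ℤ)} {f : ℕ} (hF : InBox F f) (ha : 2 * f < a)
    (hb : 2 * f < b) (v : ZMod a × ZMod b) : Function.Injective (fun p : F => place2 a b v p) := by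
  intro p q hpq
  simp only [place2, Prod.mk.injEq, add_right_inj] at hpq
  have h1 := hF p p.2
  have h2 := hF q q.2
  apply Subtype.ext
  refine Prod.ext ?_ ?_
  · refine intCast_inj hpq.1 ?_
    rw [abs_lt]; constructor <;> omega
  · refine intCast_inj hpq.2 ?_
    rw [abs_lt]; constructor <;> omega

section window

/-- A window of side `6 f + 1` centred at `v`. -/
def win (f a b : ℕ) (v : ZMod a × ZMod b) : Fin (6 * f + 1) × Fin (6 * f + 1) → ZMod a × ZMod b :=
  fun q => (v.1 + (((q.1 : ℕ) : ℤ) - 3 * f : ℤ), v.2 + (((q.2 : ℕ) : ℤ) - 3 * f : ℤ))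

theorem win_inj {f a b : ℕ} (ha : 6 * f + 1 ≤ a) (hb : 6 * f + 1 ≤ b) (v : ZMod a × ZMod b) :
    Function.Injective (win f a b v) := by
  intro p q hpq
  simp only [win, Prod.mk.injEq, add_right_inj] at hpq
  have h1 := p.1.2
  have h2 := p.2.2
  have h3 := q.1.2
  have h4 := q.2.2
  refine Prod.ext (Fin.ext ?_) (Fin.ext ?_)
  · have := intCast_inj hpq.1 (by rw [abs_lt]; constructor <;> omega)
    omega
  · have := intCast_inj hpq.2 (by rw [abs_lt]; constructor <;> omega)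
    omega

variable {F : Finset (ℤ × ℤ)} {f : ℕ}

/-- The position in the window of the translate by `D` of a point of `F`. -/
def winPos (hF : InBox F f) (D : ℤ × ℤ) (hD : |D.1| ≤ 2 * f ∧ |D.2| ≤ 2 * f) :
    F → Fin (6 * f + 1) × Fin (6 * f + 1) :=
  fun p => (⟨(D.1 + (p : ℤ × ℤ).1 + 3 * f).toNat, by
      have := hF p p.2; have := abs_le.1 hD.1; omega⟩,
    ⟨(D.2 + (p : ℤ × ℤ).2 + 3 * f).toNat, by
      have := hF p p.2; have := abs_le.1 hD.2; omega⟩)

theorem winPos_inj (hF : InBox F f) (D : ℤ × ℤ) (hD : |D.1| ≤ 2 * f ∧ |D.2| ≤ 2 * f) :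
    Function.Injective (winPos hF D hD) := by
  intro p q hpq
  simp only [winPos, Prod.mk.injEq, Fin.mk.injEq] at hpq
  have h1 := hF p p.2
  have h2 := hF q q.2
  have h3 := abs_le.1 hD.1
  have h4 := abs_le.1 hD.2
  apply Subtype.ext
  refine Prod.ext ?_ ?_
  · omega
  · omega

theorem win_winPos (hF : InBox F f) (D : ℤ × ℤ) (hD : |D.1| ≤ 2 * f ∧ |D.2| ≤ 2 * f) (a b : ℕ)
    (v : ZMod a × ZMod b) (p : F) :
    win f a b v (winPos hF D hD p) = place2 a b (v.1 + (D.1 : ZMod a), v.2 + (D.2 : ZMod b)) p := by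
  have h1 := hF p p.2
  have h3 := abs_le.1 hD.1
  have h4 := abs_le.1 hD.2
  simp only [win, winPos, place2]
  have e1 : (((D.1 + (p : ℤ × ℤ).1 + 3 * f).toNat : ℕ) : ℤ) = D.1 + (p : ℤ × ℤ).1 + 3 * f :=
    Int.toNat_of_nonneg (by omega)
  have e2 : (((D.2 + (p : ℤ × ℤ).2 + 3 * f).toNat : ℕ) : ℤ) = D.2 + (p : ℤ × ℤ).2 + 3 * f :=
    Int.toNat_of_nonneg (by omega)
  rw [e1, e2]
  refine Prod.ext ?_ ?_
  · push_cast; ring
  · push_cast; ring

theorem emb_injective {S U : Type} [Fintype S] [DecidableEq S] [Fintype U] [DecidableEq U]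
    {ι : U → S} (hι : Function.Injective ι) (s : S → Fin d)
    {M K : Matrix (U → Fin d) (U → Fin d) ℂ} (h : emb ι M = emb ι K) : M = K := by
  classical
  funext q q'
  have h1 := congrFun (congrFun h (Function.extend ι q s)) (Function.extend ι q' s)
  have h2 : ∀ u, (∀ p, ι p ≠ u) → Function.extend ι q s u = Function.extend ι q' s u := by
    intro u hu
    rw [Function.extend_apply' _ _ _ (by rintro ⟨p, hp⟩; exact hu p hp),
      Function.extend_apply' _ _ _ (by rintro ⟨p, hp⟩; exact hu p hp)]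
  simp only [emb, if_pos h2] at h1
  rwa [extend_comp_self hι, extend_comp_self hι] at h1

/-- Commutation of all local terms on one large square torus gives commutation on all large
rectangular tori. -/
theorem comm_transfer (hF : InBox F f) (h : Matrix (F → Fin d) (F → Fin d) ℂ) {L : ℕ} [NeZero L]
    (hL : 6 * f + 1 ≤ L) (hcomm : ∀ v w : Site L, Commute (localTerm L F h v) (localTerm L F h w))
    {a b : ℕ} [NeZero a] [NeZero b] (ha : 6 * f + 1 ≤ a) (hb : 6 * f + 1 ≤ b)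
    (v w : ZMod a × ZMod b) : Commute (lt2 a b F h v) (lt2 a b F h w) := by
  by_cases hd : ∃ p q : F, place2 a b v p = place2 a b w q
  · obtain ⟨p, q, hpq⟩ := hd
    simp only [place2, Prod.mk.injEq] at hpq
    have hp := hF p p.2
    have hq := hF q q.2
    obtain ⟨D, hD⟩ : ∃ D : ℤ × ℤ, D = ((p : ℤ × ℤ).1 - (q : ℤ × ℤ).1, (p : ℤ × ℤ).2 - (q : ℤ × ℤ).2) :=
      ⟨_, rfl⟩
    have hDb : |D.1| ≤ 2 * (f : ℤ) ∧ |D.2| ≤ 2 * (f : ℤ) := by
      rw [hD]
      constructor <;> rw [abs_le] <;> constructor <;> simp only <;> omega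
    have h0b : |(0 : ℤ × ℤ).1| ≤ 2 * (f : ℤ) ∧ |(0 : ℤ × ℤ).2| ≤ 2 * (f : ℤ) := by
      simp
    have hw : w = (v.1 + (D.1 : ZMod a), v.2 + (D.2 : ZMod b)) := by
      rw [hD]
      refine Prod.ext ?_ ?_
      · simp only; push_cast; linear_combination -hpq.1
      · simp only; push_cast; linear_combination -hpq.2
    rcases Nat.eq_zero_or_pos d with hd0 | hdpos
    · subst hd0
      show _ * _ = _ * _
      funext s
      exact (s 0).elim0
    have s0 : ∀ S : Type, S → Fin d := fun _ _ => ⟨0, hdpos⟩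
    have e1 : ∀ (a' b' : ℕ) [NeZero a'] [NeZero b'] (_ : 6 * f + 1 ≤ a') (_ : 6 * f + 1 ≤ b')
        (v' : ZMod a' × ZMod b') (D' : ℤ × ℤ) (hD' : |D'.1| ≤ 2 * (f : ℤ) ∧ |D'.2| ≤ 2 * (f : ℤ)),
        lt2 a' b' F h (v'.1 + (D'.1 : ZMod a'), v'.2 + (D'.2 : ZMod b')) =
          emb (win f a' b' v') (emb (winPos hF D' hD') h) := by
      intro a' b' _ _ ha' hb' v' D' hD'
      rw [emb_comp (winPos_inj hF D' hD') (win_inj ha' hb' v')]
      unfold lt2
      congr 1
      funext p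
      exact (win_winPos hF D' hD' a' b' v' p).symm
    -- commutation in the window
    have e2 : Commute (emb (winPos hF 0 h0b) h) (emb (winPos hF D hDb) h) := by
      have e3 := (hcomm ((0 : Site L).1 + (((0 : ℤ × ℤ).1 : ℤ) : ZMod L), (0 : Site L).2 +
        (((0 : ℤ × ℤ).2 : ℤ) : ZMod L)) ((0 : Site L).1 + ((D.1 : ℤ) : ZMod L), (0 : Site L).2 +
        ((D.2 : ℤ) : ZMod L))).eq
      rw [localTerm_eq, localTerm_eq, e1 L L hL hL 0 0 h0b, e1 L L hL hL 0 D hDb,
        ← emb_mul (win_inj hL hL _), ← emb_mul (win_inj hL hL _)] at e3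
      exact emb_injective (win_inj hL hL _) (s0 _) e3
    have e4 : v = (v.1 + (((0 : ℤ × ℤ).1 : ℤ) : ZMod a), v.2 + (((0 : ℤ × ℤ).2 : ℤ) : ZMod b)) := by
      simp
    rw [hw]
    conv_lhs => rw [e4]
    rw [e1 a b ha hb v 0 h0b, e1 a b ha hb v D hDb]
    show _ * _ = _ * _
    rw [← emb_mul (win_inj ha hb _), ← emb_mul (win_inj ha hb _), e2.eq]
  · push Not at hd
    exact emb_commute (place2_inj hF (by omega) (by omega) v)
      (place2_inj hF (by omega) (by omega) w) hd h h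

end window

end Pool.Agent.Hlead.Comm
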